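import Pool.Agent.TKS.Defs
import Pool.Agent.TwoDens.RK4

/-!
Triangle-free graphs with `e = 5 n - 10 α`: the excess, removal of closed neighbourhoods,
separated parts, and the statement of the induction.
-/

open Finset

namespace Pool.Agent.TwoDens.T3

open Pool.Agent.TwoDens Pool.Agent.TwoDens.RK Pool.Agent.TwoDens.DD Pool.Agent.TwoDens.TS

variable {V : Type*} [DecidableEq V] {G : SimpleGraph V} [DecidableRel G.Adj]

/-- twice `e - 5 n + 10 α` -/
noncomputable def pp (G : SimpleGraph V) [DecidableRel G.Adj] (Y : Finset V) : ℤ :=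
  20 * (al G Y : ℤ) - 10 * (Y.card : ℤ) + (e2 G Y : ℤ)

/-- no triangles -/
def TF (G : SimpleGraph V) : Prop := ∀ x y z, G.Adj x y → G.Adj y z → ¬ G.Adj x z

/-- the standing assumptions -/
structure Hy (G : SimpleGraph V) (X : Finset V) : Prop where
  htf : TF G
  hnu : ∀ Y ⊆ X, Y.Nonempty → Y.card + 1 ≤ 3 * al G Y

theorem Hy.mono {X Y : Finset V} (H : Hy G X) (h : Y ⊆ X) : Hy G Y :=
  ⟨H.htf, fun Z hZ hn => H.hnu Z (hZ.trans h) hn⟩

theorem pp_eq_ps (Y : Finset V) : pp G Y = ps G 3 Y := by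
  unfold pp ps
  norm_num

theorem pp_nonneg (h : TF G) (Y : Finset V) : 0 ≤ pp G Y := by
  have h1 := RK.main h _ Y rfl (al G Y) (fun I hI hi => le_al hI hi)
  unfold pp
  have h2 : (10 * Y.card : ℤ) ≤ e2 G Y + 20 * al G Y := by exact_mod_cast h1
  linarith

theorem pp_even (Y : Finset V) : ∃ m : ℤ, pp G Y = 2 * m := by
  rw [pp_eq_ps]
  exact ps_even 3 Y

theorem pp_empty : pp G (∅ : Finset V) = 0 := by
  rw [pp_eq_ps]
  exact ps_empty 3

/-- removal of a set -/
theorem ppT {Y T : Finset V} (hT : T ⊆ Y) :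
    pp G (Y \ T) + 20 * ((al G Y : ℤ) - al G (Y \ T)) +
      2 * ((∑ v ∈ T, (nb G Y v).card : ℕ) : ℤ) = pp G Y + 10 * T.card + e2 G T := by
  have h := ps_sdiff (G := G) 3 hT
  rw [pp_eq_ps, pp_eq_ps]
  push_cast at h ⊢
  linarith

theorem rem_eq (Y : Finset V) (v : V) : Y \ cl G Y v = rem G Y v := by
  ext u
  unfold cl
  rw [mem_sdiff, mem_insert, mem_nb, mem_rem, not_or, not_and]
  constructor
  · rintro ⟨h1, h2, h3⟩
    exact ⟨h1, h2, h3 h1⟩
  · rintro ⟨h1, h2, h3⟩
    exact ⟨h1, h2, fun _ => h3⟩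

theorem al_cl {Y : Finset V} {v : V} (hv : v ∈ Y) : al G (Y \ cl G Y v) + 1 ≤ al G Y := by
  have h := al_closed (G := G) (Y := Y) (S := cl G Y v) (J := {v})
    (by simpa using hv) (by simp [cl]) (indep_singleton v) (by
      intro z hz w hw ha
      rw [mem_singleton] at hz
      rw [hz] at ha
      exact mem_insert_of_mem (mem_nb.2 ⟨hw, ha⟩))
  simpa using h

/-- removal of a closed neighbourhood -/
theorem rem1 (h : TF G) {Y : Finset V} {v : V} (hv : v ∈ Y) :
    pp G (Y \ cl G Y v) + 20 * ((al G Y : ℤ) - al G (Y \ cl G Y v)) +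
      2 * ((∑ u ∈ nb G Y v, (nb G Y u).card : ℕ) : ℤ) =
      pp G Y + 10 * ((nb G Y v).card + 1) := by
  have h1 := e2_rem (G := G) h hv
  have h2 := card_rem (G := G) hv
  unfold pp
  rw [rem_eq]
  unfold Z at h1
  rw [h1, h2]
  push_cast
  ring

theorem rem1_le (h : TF G) {Y : Finset V} {v : V} (hv : v ∈ Y) :
    2 * ((∑ u ∈ nb G Y v, (nb G Y u).card : ℕ) : ℤ) + 10 ≤
      pp G Y + 10 * (nb G Y v).card := by
  have h1 := rem1 h hv
  have h2 := pp_nonneg h (Y \ cl G Y v)
  have h3 : ((al G (Y \ cl G Y v) : ℕ) : ℤ) + 1 ≤ al G Y := by exact_mod_cast al_cl hv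
  linarith

/-- removal of a closed neighbourhood: the independence number drops by exactly one -/
theorem rem1_eq (h : TF G) {Y : Finset V} {v : V} (hv : v ∈ Y)
    (hs : pp G Y + 10 * ((nb G Y v).card + 1) <
      40 + 2 * ((∑ u ∈ nb G Y v, (nb G Y u).card : ℕ) : ℤ)) :
    al G (Y \ cl G Y v) + 1 = al G Y ∧
    pp G (Y \ cl G Y v) + 20 + 2 * ((∑ u ∈ nb G Y v, (nb G Y u).card : ℕ) : ℤ) =
      pp G Y + 10 * ((nb G Y v).card + 1) := by
  have h1 := rem1 h hv
  have h2 := pp_nonneg h (Y \ cl G Y v)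
  have h3 := al_cl (G := G) hv
  have h4 : ((al G (Y \ cl G Y v) : ℕ) : ℤ) + 1 ≤ al G Y := by exact_mod_cast h3
  have h5 : (al G Y : ℤ) < al G (Y \ cl G Y v) + 2 := by linarith
  have h6 : al G Y < al G (Y \ cl G Y v) + 2 := by exact_mod_cast h5
  have h7 : al G (Y \ cl G Y v) + 1 = al G Y := by omega
  refine ⟨h7, ?_⟩
  have h8 : ((al G (Y \ cl G Y v) : ℕ) : ℤ) + 1 = al G Y := by exact_mod_cast h7
  linarith

theorem nb_sub' (X : Finset V) (v : V) : nb G X v ⊆ X := filter_subset _ _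

/-- in a graph with `pp = 0` all degrees are at least two -/
theorem two_le (h : TF G) {Y : Finset V} (hp : pp G Y = 0) {v : V} (hv : v ∈ Y) :
    2 ≤ (nb G Y v).card := by
  have h1 := rem1_le h hv
  rw [hp] at h1
  by_contra hcon
  push Not at hcon
  have h2 : (nb G Y v).card = 0 ∨ (nb G Y v).card = 1 := by omega
  rcases h2 with h2 | h2
  · rw [h2] at h1
    have h3 : (0 : ℤ) ≤ ((∑ u ∈ nb G Y v, (nb G Y u).card : ℕ) : ℤ) := Int.natCast_nonneg _
    push_cast at h1 h3
    linarith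
  · obtain ⟨u, hu⟩ := card_eq_one.1 h2
    have hum : u ∈ nb G Y v := by
      rw [hu]
      exact mem_singleton_self u
    rw [mem_nb] at hum
    have h4 : 1 ≤ (nb G Y u).card := card_pos.2 ⟨v, mem_nb.2 ⟨hv, hum.2.symm⟩⟩
    rw [h2, hu, sum_singleton] at h1
    have h5 : (1 : ℤ) ≤ ((nb G Y u).card : ℕ) := by exact_mod_cast h4
    push_cast at h1
    linarith

/-- `pp ≤ 8`: no isolated vertex -/
theorem one_le (h : TF G) {Y : Finset V} (hp : pp G Y ≤ 8) {v : V} (hv : v ∈ Y) :
    1 ≤ (nb G Y v).card := by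
  have h1 := rem1_le h hv
  by_contra hcon
  have h2 : (nb G Y v).card = 0 := by omega
  rw [h2] at h1
  have h3 : (0 : ℤ) ≤ ((∑ u ∈ nb G Y v, (nb G Y u).card : ℕ) : ℤ) := Int.natCast_nonneg _
  push_cast at h1 h3
  linarith

/-- `pp = 2`: the neighbour of a vertex of degree one has degree one -/
theorem leaf (h : TF G) {Y : Finset V} (hp : pp G Y ≤ 2) {v u : V} (hv : v ∈ Y) (hu : u ∈ Y)
    (ha : G.Adj v u) (hd : (nb G Y v).card ≤ 1) : (nb G Y u).card = 1 := by
  have hd1 : (nb G Y v).card = 1 :=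
    le_antisymm hd (card_pos.2 ⟨u, mem_nb.2 ⟨hu, ha⟩⟩)
  have h1 := rem1_le h hv
  obtain ⟨w, hw⟩ := card_eq_one.1 hd1
  have hum : u ∈ nb G Y v := mem_nb.2 ⟨hu, ha⟩
  rw [hw, mem_singleton] at hum
  rw [hw, sum_singleton, card_singleton, ← hum] at h1
  have h4 : 1 ≤ (nb G Y u).card := card_pos.2 ⟨v, mem_nb.2 ⟨hv, ha.symm⟩⟩
  push_cast at h1
  have h5 : ((nb G Y u).card : ℤ) ≤ 1 := by linarith
  have h6 : (nb G Y u).card ≤ 1 := by exact_mod_cast h5
  omega

theorem e2_insert {S : Finset V} {v : V} (hv : v ∉ S) :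
    e2 G (insert v S) = e2 G S + 2 * (nb G S v).card := by
  rw [e2_eq, sum_insert hv, e2_eq]
  have h0 : nb G (insert v S) v = nb G S v := by
    ext u
    simp only [mem_nb, mem_insert]
    constructor
    · rintro ⟨h1 | h1, h2⟩
      · exact absurd h1.symm h2.ne
      · exact ⟨h1, h2⟩
    · rintro ⟨h1, h2⟩
      exact ⟨Or.inr h1, h2⟩
  have h1 : ∀ u ∈ S, (nb G (insert v S) u).card = (nb G S u).card +
      (if G.Adj v u then 1 else 0) := by
    intro u hu
    by_cases h2 : G.Adj v u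
    · rw [if_pos h2, show nb G (insert v S) u = insert v (nb G S u) by
        ext w
        simp only [mem_nb, mem_insert]
        constructor
        · rintro ⟨h3 | h3, h4⟩
          · exact Or.inl h3
          · exact Or.inr ⟨h3, h4⟩
        · rintro (h3 | ⟨h3, h4⟩)
          · exact ⟨Or.inl h3, h3 ▸ h2.symm⟩
          · exact ⟨Or.inr h3, h4⟩]
      rw [card_insert_of_notMem (fun h => hv (mem_nb.1 h).1)]
    · rw [if_neg h2, show nb G (insert v S) u = nb G S u by
        ext w
        simp only [mem_nb, mem_insert]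
        constructor
        · rintro ⟨h3 | h3, h4⟩
          · exact absurd (h3 ▸ h4).symm h2
          · exact ⟨h3, h4⟩
        · rintro ⟨h3, h4⟩
          exact ⟨Or.inr h3, h4⟩]
      rfl
  rw [h0, sum_congr rfl h1, sum_add_distrib, ← card_filter]
  unfold nb
  ring

theorem e2_pair {a b : V} (hab : a ≠ b) :
    e2 G {a, b} = if G.Adj a b then 2 else 0 := by
  rw [e2_insert (by simpa using hab), e2_singleton]
  unfold nb
  by_cases h : G.Adj a b <;> simp [filter_singleton, h]

/-- a triangle-free graph on three vertices has at most two edges -/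
theorem e2_triple_le (h : TF G) {a b c : V} (hab : a ≠ b) (hac : a ≠ c) (hbc : b ≠ c) :
    e2 G {a, b, c} ≤ 4 := by
  rw [e2_insert (by simp [hab, hac]), e2_pair hbc]
  have h1 : (nb G {b, c} a).card = (if G.Adj a b then 1 else 0) + (if G.Adj a c then 1 else 0) := by
    unfold nb
    rw [card_filter, sum_pair hbc]
  rw [h1]
  by_cases h2 : G.Adj a b <;> by_cases h3 : G.Adj a c <;> by_cases h4 : G.Adj b c
  · exact absurd h3 (h a b c h2 h4)
  all_goals simp [h2, h3, h4]

/-! ### Separated parts -/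

/-- `A` and `B` are disjoint and there are no edges between them -/
def Sep (G : SimpleGraph V) (A B : Finset V) : Prop :=
  Disjoint A B ∧ ∀ a ∈ A, ∀ b ∈ B, ¬ G.Adj a b

theorem Sep.symm {A B : Finset V} (h : Sep G A B) : Sep G B A :=
  ⟨h.1.symm, fun a ha b hb hab => h.2 b hb a ha hab.symm⟩

theorem Sep.nb_left {A B : Finset V} (h : Sep G A B) {v : V} (hv : v ∈ A) :
    nb G (A ∪ B) v = nb G A v := by
  ext u
  simp only [mem_nb, mem_union]
  constructor
  · rintro ⟨h1 | h1, h2⟩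
    · exact ⟨h1, h2⟩
    · exact absurd h2 (h.2 v hv u h1)
  · rintro ⟨h1, h2⟩
    exact ⟨Or.inl h1, h2⟩

theorem Sep.nb_right {A B : Finset V} (h : Sep G A B) {v : V} (hv : v ∈ B) :
    nb G (A ∪ B) v = nb G B v := by
  rw [union_comm]
  exact h.symm.nb_left hv

theorem Sep.e2 {A B : Finset V} (h : Sep G A B) : e2 G (A ∪ B) = e2 G A + e2 G B := by
  rw [e2_eq, sum_union h.1, e2_eq, e2_eq, sum_congr rfl (fun v hv => by rw [h.nb_left hv]),
    sum_congr (s₂ := B) rfl (fun v hv => by rw [h.nb_right hv])]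

theorem Sep.card {A B : Finset V} (h : Sep G A B) : (A ∪ B).card = A.card + B.card :=
  card_union_of_disjoint h.1

theorem Sep.al {A B : Finset V} (h : Sep G A B) : al G (A ∪ B) = al G A + al G B := by
  refine le_antisymm (al_union_le A B) ?_
  obtain ⟨I, hI, hi, hIc⟩ := exists_al (G := G) A
  obtain ⟨J, hJ, hj, hJc⟩ := exists_al (G := G) B
  rw [← hIc, ← hJc, ← card_union_of_disjoint (h.1.mono hI hJ)]
  exact le_al (union_subset_union hI hJ)
    (indep_union hi hj (fun x hx y hy => h.2 x (hI hx) y (hJ hy)))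

theorem Sep.pp {A B : Finset V} (h : Sep G A B) : pp G (A ∪ B) = pp G A + pp G B := by
  unfold T3.pp
  rw [h.e2, h.card, h.al]
  push_cast
  ring

theorem sep_closed {X C : Finset V} (hc : ∀ v ∈ C, ∀ u ∈ X, G.Adj v u → u ∈ C) :
    Sep G C (X \ C) :=
  ⟨disjoint_sdiff, fun a ha b hb hab => (mem_sdiff.1 hb).2 (hc a ha b (mem_sdiff.1 hb).1 hab)⟩

/-! ### The statements of the induction -/

/-- `X` is a separated union of two nonempty parts -/
def Spl (G : SimpleGraph V) (X : Finset V) : Prop :=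
  ∃ A B, A.Nonempty ∧ B.Nonempty ∧ Sep G A B ∧ A ∪ B = X

/-- two disjoint pairs of adjacent vertices of degree two -/
def Ends (G : SimpleGraph V) [DecidableRel G.Adj] (X : Finset V) : Prop :=
  ∃ x ∈ X, ∃ x' ∈ X, ∃ y ∈ X, ∃ y' ∈ X, G.Adj x x' ∧ G.Adj y y' ∧ x ≠ y ∧ x ≠ y' ∧ x' ≠ y ∧
    x' ≠ y' ∧ (nb G X x).card = 2 ∧ (nb G X x').card = 2 ∧ (nb G X y).card = 2 ∧
    (nb G X y').card = 2

/-- there is a cycle of length four -/
def C4 (G : SimpleGraph V) (X : Finset V) : Prop :=
  ∃ v ∈ X, ∃ w ∈ X, ∃ a ∈ X, ∃ b ∈ X, v ≠ w ∧ a ≠ b ∧ G.Adj v a ∧ G.Adj v b ∧ G.Adj w a ∧ G.Adj w b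

theorem C4.mono {X Y : Finset V} (h : C4 G X) (hs : X ⊆ Y) : C4 G Y := by
  obtain ⟨v, hv, w, hw, a, ha, b, hb, h⟩ := h
  exact ⟨v, hs hv, w, hs hw, a, hs ha, b, hs hb, h⟩

/-- the statement of the induction -/
def Good (G : SimpleGraph V) [DecidableRel G.Adj] (X : Finset V) : Prop :=
  (3 * al G X = X.card + 1 → (X.card = 5 ∧ ∀ v ∈ X, (nb G X v).card = 2) ∨
    (8 ≤ X.card ∧ Ends G X ∧ C4 G X)) ∧ (X.card + 2 ≤ 3 * al G X → Spl G X)

/-- the set of vertices of degree two -/
def n2 (G : SimpleGraph V) [DecidableRel G.Adj] (X : Finset V) : Finset V :=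
  X.filter (fun v => (nb G X v).card = 2)

theorem Spl.nu {X : Finset V} (H : Hy G X) (h : Spl G X) : X.card + 2 ≤ 3 * al G X := by
  obtain ⟨A, B, hA, hB, hs, rfl⟩ := h
  have h1 := H.hnu A subset_union_left hA
  have h2 := H.hnu B subset_union_right hB
  rw [hs.card, hs.al]
  omega

/-- the number of vertices of degree two -/
theorem goodC {X : Finset V} (H : Hy G X)
    (hg : ∀ Y ⊆ X, Y.Nonempty → pp G Y = 0 → Good G Y) :
    ∀ n, ∀ Y ⊆ X, Y.card = n → pp G Y = 0 → 12 * al G Y ≤ (n2 G Y).card + 4 * Y.card := by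
  intro n
  induction n using Nat.strong_induction_on with
  | _ n IH =>
    intro Y hY hn hp
    rcases Y.eq_empty_or_nonempty with rfl | hne
    · simp [al_empty]
    have h1 := H.hnu Y hY hne
    have hG := hg Y hY hne hp
    rcases Nat.lt_or_ge (Y.card + 1) (3 * al G Y) with h2 | h2
    · obtain ⟨A, B, hA, hB, hs, hAB⟩ := hG.2 (by omega)
      have hpp := hs.pp
      rw [hAB, hp] at hpp
      have hpA := pp_nonneg H.htf A
      have hpB := pp_nonneg H.htf B
      have hAY : A ⊆ Y := hAB ▸ subset_union_left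
      have hBY : B ⊆ Y := hAB ▸ subset_union_right
      have hc := hs.card
      have ha := hs.al
      rw [hAB] at hc ha
      have hA1 := card_pos.2 hA
      have hB1 := card_pos.2 hB
      have i1 := IH A.card (by omega) A (hAY.trans hY) rfl (by linarith)
      have i2 := IH B.card (by omega) B (hBY.trans hY) rfl (by linarith)
      have hn2 : (n2 G Y).card = (n2 G A).card + (n2 G B).card := by
        rw [← card_union_of_disjoint]
        · congr 1
          unfold n2
          rw [← hAB, filter_union]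
          congr 1
          · exact filter_congr (fun v hv => by rw [hs.nb_left hv])
          · exact filter_congr (fun v hv => by rw [hs.nb_right hv])
        · exact hs.1.mono (filter_subset _ _) (filter_subset _ _)
      omega
    · have h3 : 3 * al G Y = Y.card + 1 := by omega
      rcases hG.1 h3 with ⟨h4, h5⟩ | ⟨_, ⟨x, hx, x', hx', y, hy, y', hy', axx, ayy, n1, n2', n3,
        n4, d1, d2, d3, d4⟩, _⟩
      · have h6 : n2 G Y = Y := by
          unfold n2
          exact filter_true_of_mem h5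
        rw [h6]
        omega
      · have h6 : ({x, x', y, y'} : Finset V) ⊆ n2 G Y := by
          intro u hu
          simp only [mem_insert, mem_singleton] at hu
          unfold n2
          rw [mem_filter]
          rcases hu with rfl | rfl | rfl | rfl
          · exact ⟨hx, d1⟩
          · exact ⟨hx', d2⟩
          · exact ⟨hy, d3⟩
          · exact ⟨hy', d4⟩
        have h7 := card_le_card h6
        rw [card_insert_of_notMem (by simp [axx.ne, n1, n2']),
          card_insert_of_notMem (by simp [n3, n4]), card_pair ayy.ne] at h7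
        omega

/-- the induction hypothesis -/
def IHs (G : SimpleGraph V) [DecidableRel G.Adj] (X : Finset V) : Prop :=
  ∀ Y ⊆ X, Y ≠ X → Y.Nonempty → pp G Y = 0 → Good G Y

/-- the number of vertices of degree two of a proper subset with `pp = 0` -/
theorem IHs.n2 {X : Finset V} (H : Hy G X) (ih : IHs G X) {Y : Finset V} (hY : Y ⊆ X)
    (hne : Y ≠ X) (hp : pp G Y = 0) : 12 * al G Y ≤ (T3.n2 G Y).card + 4 * Y.card := by
  refine goodC (H.mono hY) ?_ _ Y (Finset.Subset.refl Y) rfl hp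
  intro Z hZ hZn hpZ
  refine ih Z (hZ.trans hY) ?_ hZn hpZ
  rintro rfl
  exact hne (Finset.Subset.antisymm hY hZ)

/-- the cubic case -/
structure Cub (G : SimpleGraph V) [DecidableRel G.Adj] (X : Finset V) : Prop where
  H : Hy G X
  hne : X.Nonempty
  hp : pp G X = 0
  ih : IHs G X
  h3 : ∀ v ∈ X, (nb G X v).card = 3

end Pool.Agent.TwoDens.T3
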