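import Pool.Agent.T3L.Base
import Pool.Agent.TwoDens.Bridge

/-!
The lower bound on the line `m = 3 r - 4` from the structure theorem.
-/

open Finset

namespace Pool.Agent.TwoDens.T3

open Pool.Agent.TwoDens Pool.Agent.TwoDens.RK Pool.Agent.TwoDens.DD Pool.Agent.TwoDens.TS

section low

variable {V : Type*} [DecidableEq V] {G : SimpleGraph V} [DecidableRel G.Adj]

/-- three pairwise adjacent vertices -/
theorem e2_tri {x y z : V} (hxy : G.Adj x y) (hyz : G.Adj y z) (hxz : G.Adj x z) :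
    ({x, y, z} : Finset V).card = 3 ∧ e2 G {x, y, z} = 6 := by
  have h1 : x ≠ y := hxy.ne
  have h2 : y ≠ z := hyz.ne
  have h3 : x ≠ z := hxz.ne
  refine ⟨card_eq_three.2 ⟨x, y, z, h1, h3, h2, rfl⟩, ?_⟩
  rw [e2_insert (by simp [h1, h3]), e2_pair h2, if_pos hyz]
  have h4 : nb G {y, z} x = {y, z} := by
    unfold nb
    refine filter_true_of_mem ?_
    intro u hu
    rw [mem_insert, mem_singleton] at hu
    rcases hu with rfl | rfl
    · exact hxy
    · exact hxz
  rw [h4, card_pair h2]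

/-- removing two disjoint pairs of adjacent vertices of degree two -/
theorem ends_del {X : Finset V} (h : Ends G X) :
    ∃ Y ⊆ X, Y.card + 4 = X.card ∧ e2 G X ≤ e2 G Y + 12 := by
  obtain ⟨x, hx, x', hx', y, hy, y', hy', axx, ayy, n1, n2', n3, n4, d1, d2, d3, d4⟩ := h
  have hT : ({x, x', y, y'} : Finset V) ⊆ X := by
    intro u hu
    simp only [mem_insert, mem_singleton] at hu
    rcases hu with rfl | rfl | rfl | rfl
    · exact hx
    · exact hx'
    · exact hy
    · exact hy'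
  have hx1 : x ∉ ({x', y, y'} : Finset V) := by simp [axx.ne, n1, n2']
  have hx2 : x' ∉ ({y, y'} : Finset V) := by simp [n3, n4]
  have hx3 : y ∉ ({y'} : Finset V) := by simp [ayy.ne]
  have hc : ({x, x', y, y'} : Finset V).card = 4 := by
    rw [card_insert_of_notMem hx1, card_insert_of_notMem hx2, card_pair ayy.ne]
  have hs : ∑ v ∈ ({x, x', y, y'} : Finset V), (nb G X v).card = 8 := by
    rw [sum_insert hx1, sum_insert hx2, sum_insert hx3, sum_singleton, d1, d2, d3, d4]
    norm_num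
  have he : 4 ≤ e2 G ({x, x', y, y'} : Finset V) := by
    rw [e2_insert hx1, e2_insert hx2, e2_pair ayy.ne, if_pos ayy]
    have h5 : 1 ≤ (nb G {x', y, y'} x).card :=
      card_pos.2 ⟨x', mem_nb.2 ⟨by simp, axx⟩⟩
    omega
  refine ⟨X \ {x, x', y, y'}, sdiff_subset, ?_, ?_⟩
  · have h6 := card_sdiff_add_card_eq_card hT
    omega
  · have h7 := e2_sdiff (G := G) hT
    omega

end low

/-- `M(3 s - 1, s + 1) ≥ (5 s - 12) / (3 s - 7)` -/
theorem le_line (s : ℕ) (hs : 3 ≤ s)
    (hE : ∀ (G : SimpleGraph (Fin (3 * s - 1))) [DecidableRel G.Adj],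
      Hy G Finset.univ → pp G Finset.univ = 0 →
      3 * al G Finset.univ = (Finset.univ : Finset (Fin (3 * s - 1))).card + 1 →
      8 ≤ (Finset.univ : Finset (Fin (3 * s - 1))).card → Ends G Finset.univ) :
    (5 * (s : ℝ) - 12) / (3 * s - 7) ≤ minTwoDensity (3 * s - 1) (s + 1) := by
  have hsR : (3 : ℝ) ≤ s := by exact_mod_cast hs
  have hpos : (0 : ℝ) < 3 * (s : ℝ) - 7 := by linarith
  obtain ⟨D, hD⟩ : ∃ D : ℝ, D = (5 * (s : ℝ) - 12) / (3 * s - 7) := ⟨_, rfl⟩
  have hDm : D * (3 * s - 7) = 5 * s - 12 := by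
    rw [hD]
    exact div_mul_cancel₀ _ hpos.ne'
  have hD1 : D ≤ 5 / 3 := by
    rw [hD, div_le_iff₀ hpos]
    linarith
  rw [← hD]
  refine le_minTwoDensity (by omega) ?_
  intro G _ hα
  by_contra hcon
  push Not at hcon
  have hn : (Finset.univ : Finset (Fin (3 * s - 1))).card = 3 * s - 1 := by
    rw [Finset.card_univ, Fintype.card_fin]
  have hTF : TF G := by
    intro x y z hxy hyz hxz
    obtain ⟨h1, h2⟩ := e2_tri hxy hyz hxz
    have h3 := hcon {x, y, z} h1.ge
    rw [h1, h2] at h3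
    push_cast at h3
    linarith
  have hRK : ∀ Y : Finset (Fin (3 * s - 1)), 10 * Y.card ≤ e2 G Y + 20 * al G Y := by
    intro Y
    exact RK.main hTF _ Y rfl (al G Y) (fun I hI hi => le_al hI hi)
  have hH : Hy G Finset.univ := by
    refine ⟨hTF, ?_⟩
    intro Y _ hne
    by_contra hY
    push Not at hY
    have h1 := al_pos (G := G) hne
    have h2 := hRK Y
    have h3 : 3 ≤ Y.card := by omega
    have h4 := hcon Y h3
    have h5 : 10 * Y.card ≤ 3 * e2 G Y := by omega
    have h6 : 10 * (Y.card : ℝ) ≤ 3 * (e2 G Y : ℝ) := by exact_mod_cast h5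
    have h7 : (3 : ℝ) ≤ (Y.card : ℝ) := by exact_mod_cast h3
    have h8 : D * ((Y.card : ℝ) - 2) ≤ 5 / 3 * ((Y.card : ℝ) - 2) :=
      mul_le_mul_of_nonneg_right hD1 (by linarith)
    linarith
  have hal : al G Finset.univ ≤ s := al_le (fun I _ hI => by
    have := hα I hI
    omega)
  have hal2 := hH.hnu Finset.univ (Finset.Subset.refl _) ⟨⟨0, by omega⟩, mem_univ _⟩
  rw [hn] at hal2
  have hal3 : al G Finset.univ = s := by omega
  have he1 : 10 * s ≤ e2 G Finset.univ + 10 := by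
    have := hRK Finset.univ
    rw [hn, hal3] at this
    omega
  have he2 : e2 G Finset.univ < 10 * s - 8 := by
    have h1 := hcon Finset.univ (by rw [hn]; omega)
    rw [hn] at h1
    have h2 : ((3 * s - 1 : ℕ) : ℝ) = 3 * (s : ℝ) - 1 := by
      rw [Nat.cast_sub (by omega)]
      push_cast
      ring
    rw [h2] at h1
    have h3 : (e2 G Finset.univ : ℝ) < 10 * (s : ℝ) - 8 := by
      have h4 : D * (3 * s - 1 - 2) = 5 * s - 12 + 4 * D := by
        linear_combination hDm
      have h5 : 2 + 2 * D * (3 * (s : ℝ) - 1 - 2) = 2 + 2 * (5 * s - 12 + 4 * D) := by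
        rw [← h4]
        ring
      rw [h5] at h1
      linarith
    have h6 : (e2 G Finset.univ : ℝ) + 8 < 10 * (s : ℝ) := by linarith
    have h7 : e2 G Finset.univ + 8 < 10 * s := by exact_mod_cast h6
    omega
  obtain ⟨e, he⟩ := e2_even (G := G) (Finset.univ : Finset (Fin (3 * s - 1)))
  have he3 : e2 G Finset.univ + 10 = 10 * s := by omega
  have hp : pp G Finset.univ = 0 := by
    unfold pp
    rw [hn, hal3]
    have h1 : ((e2 G Finset.univ : ℕ) : ℤ) + 10 = 10 * s := by exact_mod_cast he3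
    have h2 : ((3 * s - 1 : ℕ) : ℤ) = 3 * (s : ℤ) - 1 := by
      rw [Nat.cast_sub (by omega)]
      push_cast
      ring
    rw [h2]
    linarith
  obtain ⟨Y, _, hY, hYe⟩ := ends_del (hE G hH hp (by rw [hn, hal3]; omega) (by rw [hn]; omega))
  rw [hn] at hY
  have h1 := hcon Y (by omega)
  have h2 : Y.card + 5 = 3 * s := by omega
  have h3 : (Y.card : ℝ) + 5 = 3 * (s : ℝ) := by exact_mod_cast h2
  have h4 : 10 * s ≤ e2 G Y + 22 := by omega
  have h5 : 10 * (s : ℝ) ≤ (e2 G Y : ℝ) + 22 := by exact_mod_cast h4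
  have h6 : (Y.card : ℝ) - 2 = 3 * (s : ℝ) - 7 := by linarith
  rw [h6] at h1
  have h7 : 2 + 2 * D * (3 * (s : ℝ) - 7) = 10 * s - 22 := by linear_combination 2 * hDm
  rw [h7] at h1
  linarith

end Pool.Agent.TwoDens.T3
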