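import Pool.Agent.T3L.Chain

/-!
Sparseness and independence number of the chain, and the upper bound for `M(3r-4, r)`.
-/

open Finset

namespace Pool.Agent.TwoDens.T3

/-- least value of `5 n - 3 e` in the state `(a, c, b)` of the last block, with
`min n 3 = t` vertices so far (`100`: the state does not occur) -/
def Lt (a c b t : ℕ) : ℕ :=
  ((([[0, 5, 7, 8], [100, 5, 7, 9], [100, 5, 10, 12], [100, 100, 7, 9],
    [100, 5, 7, 8], [100, 100, 10, 10], [100, 100, 7, 9], [100, 100, 100, 9]] : List (List ℕ)).getD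
    (4 * a + 2 * c + b) []).getD t 100)

theorem Lt_step : ∀ (a c b a' c' b' : Fin 2) (t : Fin 4),
    Lt a' c' b' (min 3 (t + (a' + c' + b'))) +
      3 * (a' * (b + a) + c' * a' + b' * (c' + c)) ≤ Lt a c b t + 5 * (a' + c' + b') := by
  decide

theorem Lt_base : ∀ (c b : Fin 2), Lt 0 c b (min 3 (c + b)) + 3 * (c * b) ≤ 5 * (c + b) := by
  decide

theorem Lt_three : ∀ (a c b : Fin 2), 8 ≤ Lt a c b 3 := by
  decide

theorem Lt_step' {a c b a' c' b' n : ℕ} (ha : a ≤ 1) (hc : c ≤ 1) (hb : b ≤ 1) (ha' : a' ≤ 1)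
    (hc' : c' ≤ 1) (hb' : b' ≤ 1) :
    Lt a' c' b' (min 3 (n + (a' + c' + b'))) +
      3 * (a' * (b + a) + c' * a' + b' * (c' + c)) ≤
      Lt a c b (min 3 n) + 5 * (a' + c' + b') := by
  have h := Lt_step ⟨a, by omega⟩ ⟨c, by omega⟩ ⟨b, by omega⟩ ⟨a', by omega⟩ ⟨c', by omega⟩
    ⟨b', by omega⟩ ⟨min 3 n, by omega⟩
  simp only [] at h
  rw [show min 3 (min 3 n + (a' + c' + b')) = min 3 (n + (a' + c' + b')) by omega] at h
  exact h

/-- the bit of the first vertex of the block number `j` -/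
def ba (S : Finset ℕ) (j : ℕ) : ℕ := if j = 0 then 0 else bt S (3 * j - 1)

theorem ba_le (S : Finset ℕ) (j : ℕ) : ba S j ≤ 1 := by
  unfold ba
  split_ifs
  · omega
  · exact bt_le _ _

theorem ba_succ (S : Finset ℕ) (j : ℕ) : ba S (j + 1) = bt S (3 * j + 2) := by
  unfold ba
  rw [if_neg (by omega), show 3 * (j + 1) - 1 = 3 * j + 2 by omega]

theorem blw_zero (S : Finset ℕ) : blw S 0 = ∅ := by
  unfold blw
  rw [Finset.filter_eq_empty_iff]
  intro x _
  omega

theorem e2_empty' {V : Type*} [DecidableEq V] (G : SimpleGraph V) [DecidableRel G.Adj] :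
    e2 G ∅ = 0 := by
  unfold e2
  exact Finset.sum_empty

/-- the invariant -/
theorem spars (S : Finset ℕ) (j : ℕ) : ∃ e : ℕ, e2 chN (blw S (3 * j + 2)) = 2 * e ∧
    Lt (ba S j) (bt S (3 * j)) (bt S (3 * j + 1)) (min 3 (blw S (3 * j + 2)).card) + 3 * e ≤
      5 * (blw S (3 * j + 2)).card := by
  induction j with
  | zero =>
    have h0 : ((blw S 0).filter (chN.Adj 0)).card = 0 := by
      rw [blw_zero]
      rfl
    have h1 : ((blw S 1).filter (chN.Adj 1)).card = bt S 0 :=
      down_one (fun y => by unfold stp; omega) (by omega)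
    have g0 := e2_blw_succ S 0
    have g1 := e2_blw_succ S 1
    rw [h0, blw_zero, e2_empty'] at g0
    rw [h1, g0] at g1
    have c0 := card_blw_succ S 0
    have c1 := card_blw_succ S 1
    rw [blw_zero, card_empty] at c0
    rw [c0] at c1
    refine ⟨bt S 0 * bt S 1, ?_, ?_⟩
    · rw [show 3 * 0 + 2 = 1 + 1 by rfl, g1]
      ring
    · rw [show 3 * 0 + 2 = 1 + 1 by rfl, c1]
      have h := Lt_base ⟨bt S 0, by have := bt_le S 0; omega⟩ ⟨bt S 1, by have := bt_le S 1; omega⟩
      simp only [] at h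
      unfold ba
      rw [if_pos rfl, show 3 * 0 = 0 by rfl, Nat.zero_add, Nat.zero_add]
      exact h
  | succ j ih =>
    obtain ⟨e, he, hL⟩ := ih
    have hc := card_block S j
    have hE := e2_block S j
    rw [he] at hE
    have hst := Lt_step' (n := (blw S (3 * j + 2)).card) (ba_le S j) (bt_le S (3 * j))
      (bt_le S (3 * j + 1)) (bt_le S (3 * j + 2)) (bt_le S (3 * j + 3)) (bt_le S (3 * j + 4))
    rw [← hc] at hst
    refine ⟨e + (bt S (3 * j + 2) * (bt S (3 * j + 1) + ba S j) +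
        bt S (3 * j + 3) * bt S (3 * j + 2) +
        bt S (3 * j + 4) * (bt S (3 * j + 3) + bt S (3 * j))), ?_, ?_⟩
    · rw [show 3 * (j + 1) + 2 = 3 * j + 5 by omega, hE]
      unfold ba
      ring
    · rw [ba_succ, show 3 * (j + 1) + 2 = 3 * j + 5 by omega,
        show 3 * (j + 1) + 1 = 3 * j + 4 by omega, show 3 * (j + 1) = 3 * j + 3 by omega]
      rw [hc] at hst ⊢
      linarith

/-- (u2) -/
theorem spars' {S : Finset ℕ} {j : ℕ} (hS : S ⊆ range (3 * j + 2)) (h3 : 3 ≤ S.card) :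
    ∃ e : ℕ, e2 chN S = 2 * e ∧ 3 * e + 8 ≤ 5 * S.card := by
  have hb : blw S (3 * j + 2) = S := by
    ext x
    rw [mem_blw]
    exact ⟨fun h => h.1, fun h => ⟨h, mem_range.1 (hS h)⟩⟩
  obtain ⟨e, he, hL⟩ := spars S j
  rw [hb] at he hL
  refine ⟨e, he, ?_⟩
  rw [show min 3 S.card = 3 by omega] at hL
  have h := Lt_three ⟨ba S j, by have := ba_le S j; omega⟩
    ⟨bt S (3 * j), by have := bt_le S (3 * j); omega⟩
    ⟨bt S (3 * j + 1), by have := bt_le S (3 * j + 1); omega⟩
  simp only [] at h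
  omega

/-- independent pairs of bits -/
theorem bt_adj {S : Finset ℕ} (hS : chN.IsIndepSet (S : Set ℕ)) {x y : ℕ} (h : chN.Adj x y) :
    bt S x + bt S y ≤ 1 := by
  unfold bt
  split_ifs with h1 h2
  · exact absurd h (hS (by exact_mod_cast h1) (by exact_mod_cast h2) h.ne)
  all_goals omega

/-- (u1) -/
theorem indep_le {S : Finset ℕ} (hS : chN.IsIndepSet (S : Set ℕ)) (j : ℕ) :
    (blw S (3 * j + 2)).card ≤ j + 1 ∧
    (ba S j + bt S (3 * j) + bt S (3 * j + 1) = 0 → (blw S (3 * j + 2)).card ≤ j) := by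
  induction j with
  | zero =>
    have c0 := card_blw_succ S 0
    have c1 := card_blw_succ S 1
    rw [blw_zero, card_empty] at c0
    rw [c0] at c1
    have h := bt_adj hS (chN_of (x := 0) (y := 1) (Or.inl rfl))
    rw [show 3 * 0 + 2 = 1 + 1 by rfl, c1]
    rw [show 3 * 0 = 0 by rfl]
    simp only [Nat.zero_add]
    constructor <;> omega
  | succ j ih =>
    have hc := card_block S j
    have h1 := bt_adj hS (chN_of (x := 3 * j + 1) (y := 3 * j + 2) (Or.inl (by omega)))
    have h2 := bt_adj hS (chN_of (x := 3 * j + 2) (y := 3 * j + 3) (Or.inl (by omega)))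
    have h3 := bt_adj hS (chN_of (x := 3 * j + 3) (y := 3 * j + 4) (Or.inl (by omega)))
    have h4 := bt_adj hS (chN_of (x := 3 * j) (y := 3 * j + 4)
      (Or.inr (Or.inr ⟨by omega, by omega⟩)))
    have h5 : ba S j + bt S (3 * j + 2) ≤ 1 := by
      unfold ba
      split_ifs with hj
      · have := bt_le S (3 * j + 2)
        omega
      · exact bt_adj hS (chN_of (Or.inr (Or.inl ⟨by omega, by omega⟩)))
    rw [ba_succ, show 3 * (j + 1) + 2 = 3 * j + 5 by omega,
      show 3 * (j + 1) + 1 = 3 * j + 4 by omega, show 3 * (j + 1) = 3 * j + 3 by omega, hc]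
    obtain ⟨i1, i2⟩ := ih
    constructor
    · by_cases h0 : ba S j + bt S (3 * j) + bt S (3 * j + 1) = 0
      · have := i2 h0
        omega
      · omega
    · intro h0
      omega

/-- every vertex of the finite chain has two neighbours in it -/
theorem two_nb {s x : ℕ} (hs : 2 ≤ s) (hx : x < 3 * s - 1) :
    ∃ y z : ℕ, y < 3 * s - 1 ∧ z < 3 * s - 1 ∧ y ≠ z ∧ chN.Adj x y ∧ chN.Adj x z := by
  rcases (show x = 0 ∨ x = 1 ∨ (2 ≤ x ∧ x % 3 = 2) ∨ (3 ≤ x ∧ x % 3 = 0) ∨ (4 ≤ x ∧ x % 3 = 1)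
    by omega) with h | h | h | h | h
  · exact ⟨1, 4, by omega, by omega, by omega, Or.inl (by unfold stp; omega),
      Or.inl (by unfold stp; omega)⟩
  · exact ⟨0, 2, by omega, by omega, by omega, Or.inr (by unfold stp; omega),
      Or.inl (by unfold stp; omega)⟩
  · exact ⟨x - 1, x + 1, by omega, by omega, by omega, Or.inr (by unfold stp; omega),
      Or.inl (by unfold stp; omega)⟩
  · exact ⟨x - 1, x + 1, by omega, by omega, by omega, Or.inr (by unfold stp; omega),
      Or.inl (by unfold stp; omega)⟩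
  · exact ⟨x - 1, x - 4, by omega, by omega, by omega, Or.inr (by unfold stp; omega),
      Or.inr (by unfold stp; omega)⟩

/-- the final inequality, for subsets of the chain -/
theorem chain_ineq {s : ℕ} (hs : 3 ≤ s) {S : Finset ℕ} (hS : S ⊆ range (3 * s - 1))
    (h3 : 3 ≤ S.card) : ∃ e : ℕ, e2 chN S = 2 * e ∧
    ((e : ℤ) - 1) * (3 * s - 7) ≤ (5 * s - 12) * ((S.card : ℤ) - 2) := by
  obtain ⟨j, rfl⟩ : ∃ j, s = j + 1 := ⟨s - 1, by omega⟩
  have hr : 3 * (j + 1) - 1 = 3 * j + 2 := by omega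
  have hn : S.card ≤ 3 * j + 2 := by
    have := Finset.card_le_card hS
    rw [card_range] at this
    omega
  obtain ⟨e, he, hL⟩ := spars' (j := j) (hr ▸ hS) h3
  refine ⟨e, he, ?_⟩
  have hj : (2 : ℤ) ≤ j := by exact_mod_cast (show 2 ≤ j by omega)
  rcases (show S.card ≤ 3 * j - 2 ∨ S.card = 3 * j - 1 ∨ S.card = 3 * j ∨ S.card = 3 * j + 1 ∨
    S.card = 3 * j + 2 by omega) with h | h | h | h | h
  · have h1 : (3 * (e : ℤ) + 8) ≤ 5 * S.card := by exact_mod_cast hL
    have h2 : (S.card : ℤ) + 2 ≤ 3 * j := by exact_mod_cast (show S.card + 2 ≤ 3 * j by omega)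
    push_cast
    have h4 : (0 : ℤ) ≤ 3 * (j + 1) - 7 := by linarith
    have h5 := mul_le_mul_of_nonneg_right h1 h4
    nlinarith
  · have h1 : e ≤ 5 * j - 5 := by omega
    have h2 : (e : ℤ) ≤ 5 * j - 5 := by
      have : e + 5 ≤ 5 * j := by omega
      have : (e : ℤ) + 5 ≤ 5 * j := by exact_mod_cast this
      linarith
    have h5 : (S.card : ℤ) = 3 * j - 1 := by
      have : S.card + 1 = 3 * j := by omega
      have : (S.card : ℤ) + 1 = 3 * j := by exact_mod_cast this
      linarith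
    rw [h5]
    push_cast
    have h4 : (0 : ℤ) ≤ 3 * (j + 1) - 7 := by linarith
    have h6 := mul_le_mul_of_nonneg_right h2 h4
    nlinarith
  · have h2 : (e : ℤ) ≤ 5 * j - 3 := by
      have : e + 3 ≤ 5 * j := by omega
      have : (e : ℤ) + 3 ≤ 5 * j := by exact_mod_cast this
      linarith
    have h5 : (S.card : ℤ) = 3 * j := by exact_mod_cast h
    rw [h5]
    push_cast
    have h4 : (0 : ℤ) ≤ 3 * (j + 1) - 7 := by linarith
    have h6 := mul_le_mul_of_nonneg_right h2 h4
    nlinarith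
  · obtain ⟨v, hv, hvS⟩ : ∃ v ∈ range (3 * j + 2), v ∉ S := by
      by_contra hcon
      push Not at hcon
      have := Finset.card_le_card (show range (3 * j + 2) ⊆ S from fun x hx => hcon x hx)
      rw [card_range] at this
      omega
    have hcI : (insert v S).card = 3 * j + 2 := by
      rw [Finset.card_insert_of_notMem hvS, h]
    have hsub : insert v S ⊆ range (3 * j + 2) :=
      Finset.insert_subset hv (hr ▸ hS)
    have hins : insert v S = range (3 * j + 2) :=
      Finset.eq_of_subset_of_card_le hsub (by rw [card_range, hcI])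
    obtain ⟨e', he', hL'⟩ := spars' (j := j) hsub (by omega)
    rw [e2_ins chN hvS, he] at he'
    rw [hcI] at hL'
    obtain ⟨y, z, hy, hz, hyz, hvy, hvz⟩ := two_nb (s := j + 1) (x := v) (by omega)
      (by rw [hr]; exact mem_range.1 hv)
    have hyS : y ∈ S := by
      have : y ∈ insert v S := by
        rw [hins, mem_range]
        omega
      rw [mem_insert] at this
      rcases this with h1 | h1
      · exact absurd h1 hvy.ne'
      · exact h1
    have hzS : z ∈ S := by
      have : z ∈ insert v S := by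
        rw [hins, mem_range]
        omega
      rw [mem_insert] at this
      rcases this with h1 | h1
      · exact absurd h1 hvz.ne'
      · exact h1
    have hd : 2 ≤ (S.filter (chN.Adj v)).card := by
      rw [← Finset.card_pair hyz]
      refine Finset.card_le_card ?_
      intro w hw
      rw [mem_insert, mem_singleton] at hw
      rw [mem_filter]
      rcases hw with rfl | rfl
      · exact ⟨hyS, hvy⟩
      · exact ⟨hzS, hvz⟩
    have h2 : (e : ℤ) ≤ 5 * j - 2 := by
      have : e + 2 ≤ 5 * j := by omega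
      have : (e : ℤ) + 2 ≤ 5 * j := by exact_mod_cast this
      linarith
    have h5 : (S.card : ℤ) = 3 * j + 1 := by exact_mod_cast h
    rw [h5]
    push_cast
    have h4 : (0 : ℤ) ≤ 3 * (j + 1) - 7 := by linarith
    have h6 := mul_le_mul_of_nonneg_right h2 h4
    nlinarith
  · have h2 : (e : ℤ) ≤ 5 * j := by exact_mod_cast (show e ≤ 5 * j by omega)
    have h5 : (S.card : ℤ) = 3 * j + 2 := by exact_mod_cast h
    rw [h5]
    push_cast
    have h4 : (0 : ℤ) ≤ 3 * (j + 1) - 7 := by linarith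
    have h6 := mul_le_mul_of_nonneg_right h2 h4
    nlinarith

/-- the chain on `Fin m` -/
def chF (m : ℕ) : SimpleGraph (Fin m) := chN.comap Fin.valEmbedding

instance (m : ℕ) : DecidableRel (chF m).Adj :=
  fun x y => inferInstanceAs (Decidable (chN.Adj x.val y.val))

theorem e2_chF {m : ℕ} (Y : Finset (Fin m)) :
    e2 (chF m) Y = e2 chN (Y.map Fin.valEmbedding) := by
  unfold e2
  rw [Finset.sum_map]
  refine Finset.sum_congr rfl ?_
  intro x _
  rw [Finset.filter_map, Finset.card_map]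
  rfl

theorem map_sub {m : ℕ} (Y : Finset (Fin m)) : Y.map Fin.valEmbedding ⊆ range m := by
  intro x hx
  rw [mem_map] at hx
  obtain ⟨y, _, rfl⟩ := hx
  rw [mem_range]
  exact y.isLt

/-- the upper bound: `M(3 s - 1, s + 1) ≤ (5 s - 12) / (3 s - 7)` for `s ≥ 3` -/
theorem upper_line (s : ℕ) (hs : 3 ≤ s) :
    minTwoDensity (3 * s - 1) (s + 1) ≤ (5 * (s : ℝ) - 12) / (3 * s - 7) := by
  have hs' : (3 : ℝ) ≤ s := by exact_mod_cast hs
  have hpos : (0 : ℝ) < 3 * s - 7 := by linarith
  refine minTwoDensity_le (div_nonneg (by linarith) hpos.le) (chF (3 * s - 1)) (by simp) ?_ ?_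
  · intro I hI
    have h1 : chN.IsIndepSet ((I.map Fin.valEmbedding : Finset ℕ) : Set ℕ) := by
      intro x hx y hy hxy
      rw [Finset.mem_coe, mem_map] at hx hy
      obtain ⟨x', hx', rfl⟩ := hx
      obtain ⟨y', hy', rfl⟩ := hy
      exact hI hx' hy' (fun h => hxy (by rw [h]))
    obtain ⟨j, rfl⟩ : ∃ j, s = j + 1 := ⟨s - 1, by omega⟩
    have h2 := (indep_le h1 j).1
    have h3 : blw (I.map Fin.valEmbedding) (3 * j + 2) = I.map Fin.valEmbedding := by
      ext x
      rw [mem_blw]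
      refine ⟨fun h => h.1, fun h => ⟨h, ?_⟩⟩
      have := mem_range.1 (map_sub I h)
      omega
    rw [h3, card_map] at h2
    omega
  · intro Y hY
    obtain ⟨e, he, h1⟩ := chain_ineq hs (map_sub Y) (by rw [card_map]; exact hY)
    rw [e2_chF, he]
    rw [card_map] at h1
    have h2 : ((e : ℝ) - 1) * (3 * s - 7) ≤ (5 * s - 12) * ((Y.card : ℝ) - 2) := by
      exact_mod_cast h1
    have h3 : (e : ℝ) - 1 ≤ (5 * (s : ℝ) - 12) / (3 * s - 7) * ((Y.card : ℝ) - 2) := by
      rw [div_mul_eq_mul_div, le_div_iff₀ hpos]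
      exact h2
    push_cast
    linarith

end Pool.Agent.TwoDens.T3
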