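import Pool.Agent.TwoDens.Bridge

/-!
The chain graph on `3 s - 1` vertices: no independent set with more than `s` elements, and
all its subsets are sparse.
-/

open Finset

namespace Pool.Agent.TwoDens.T3

/-- upward neighbours -/
def stp (x y : ℕ) : Prop := y = x + 1 ∨ (x % 3 = 2 ∧ y = x + 3) ∨ (x % 3 = 0 ∧ y = x + 4)

instance : DecidableRel stp := fun _ _ => by unfold stp; infer_instance

theorem stp_lt {x y : ℕ} (h : stp x y) : x < y := by
  unfold stp at h
  omega

/-- the infinite chain -/
def chN : SimpleGraph ℕ where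
  Adj x y := stp x y ∨ stp y x
  symm := ⟨fun _ _ h => Or.symm h⟩
  loopless := ⟨fun x h => by
    rcases h with h | h <;> exact absurd (stp_lt h) (lt_irrefl x)⟩

instance : DecidableRel chN.Adj := fun x y => inferInstanceAs (Decidable (stp x y ∨ stp y x))

theorem chN_adj {x y : ℕ} : chN.Adj x y ↔ stp x y ∨ stp y x := Iff.rfl

theorem chN_of {x y : ℕ} (h : stp x y) : chN.Adj x y := Or.inl h

/-- insertion of a vertex -/
theorem e2_ins {V : Type*} [DecidableEq V] (G : SimpleGraph V) [DecidableRel G.Adj]
    {S : Finset V} {v : V} (hv : v ∉ S) :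
    e2 G (insert v S) = e2 G S + 2 * (S.filter (G.Adj v)).card := by
  unfold e2
  rw [Finset.sum_insert hv]
  have h1 : ((insert v S).filter (G.Adj v)).card = (S.filter (G.Adj v)).card := by
    rw [Finset.filter_insert, if_neg (G.loopless.irrefl v)]
  have h2 : ∀ x ∈ S, ((insert v S).filter (G.Adj x)).card =
      (S.filter (G.Adj x)).card + if G.Adj v x then 1 else 0 := by
    intro x _
    rw [Finset.filter_insert]
    by_cases h : G.Adj x v
    · rw [if_pos h, if_pos h.symm, Finset.card_insert_of_notMem]
      intro hm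
      exact hv (mem_filter.1 hm).1
    · rw [if_neg h, if_neg (fun h' => h h'.symm), Nat.add_zero]
  rw [h1, Finset.sum_congr rfl h2, Finset.sum_add_distrib, ← Finset.card_filter]
  ring

/-- membership as a number -/
def bt (S : Finset ℕ) (x : ℕ) : ℕ := if x ∈ S then 1 else 0

theorem bt_le (S : Finset ℕ) (x : ℕ) : bt S x ≤ 1 := by
  unfold bt
  split_ifs <;> omega

/-- the part of `S` below `n` -/
def blw (S : Finset ℕ) (n : ℕ) : Finset ℕ := S.filter (fun x => x < n)

theorem mem_blw {S : Finset ℕ} {n x : ℕ} : x ∈ blw S n ↔ x ∈ S ∧ x < n := by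
  unfold blw
  rw [mem_filter]

theorem bt_blw (S : Finset ℕ) {n x : ℕ} (h : x < n) : bt (blw S n) x = bt S x := by
  unfold bt
  simp only [mem_blw, h, and_true]

theorem blw_succ_mem {S : Finset ℕ} {n : ℕ} (h : n ∈ S) :
    blw S (n + 1) = insert n (blw S n) := by
  ext x
  rw [mem_insert, mem_blw, mem_blw]
  constructor
  · rintro ⟨h1, h2⟩
    by_cases hx : x = n
    · exact Or.inl hx
    · exact Or.inr ⟨h1, by omega⟩
  · rintro (h1 | ⟨h1, h2⟩)
    · exact ⟨h1 ▸ h, by omega⟩
    · exact ⟨h1, by omega⟩

theorem blw_succ_not {S : Finset ℕ} {n : ℕ} (h : n ∉ S) : blw S (n + 1) = blw S n := by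
  ext x
  rw [mem_blw, mem_blw]
  constructor
  · rintro ⟨h1, h2⟩
    refine ⟨h1, ?_⟩
    by_contra hc
    exact h ((show x = n by omega) ▸ h1)
  · rintro ⟨h1, h2⟩
    exact ⟨h1, by omega⟩

theorem card_blw_succ (S : Finset ℕ) (n : ℕ) :
    (blw S (n + 1)).card = (blw S n).card + bt S n := by
  by_cases h : n ∈ S
  · rw [blw_succ_mem h, Finset.card_insert_of_notMem (fun hm => by
      rw [mem_blw] at hm
      omega)]
    unfold bt
    rw [if_pos h]
  · rw [blw_succ_not h]
    unfold bt
    rw [if_neg h, Nat.add_zero]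

theorem e2_blw_succ (S : Finset ℕ) (n : ℕ) :
    e2 chN (blw S (n + 1)) = e2 chN (blw S n) +
      2 * (bt S n * ((blw S n).filter (chN.Adj n)).card) := by
  by_cases h : n ∈ S
  · rw [blw_succ_mem h, e2_ins chN (fun hm => by
      rw [mem_blw] at hm
      omega)]
    unfold bt
    rw [if_pos h, one_mul]
  · rw [blw_succ_not h]
    unfold bt
    rw [if_neg h, zero_mul, mul_zero, Nat.add_zero]

theorem down_one {S : Finset ℕ} {n p : ℕ} (h : ∀ y, stp y n ↔ y = p) (hp : p < n) :
    ((blw S n).filter (chN.Adj n)).card = bt S p := by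
  have h1 : (blw S n).filter (chN.Adj n) = if p ∈ S then {p} else ∅ := by
    ext y
    rw [mem_filter, mem_blw, chN_adj]
    constructor
    · rintro ⟨⟨h1, h2⟩, h3⟩
      have h4 : stp y n := by
        rcases h3 with h3 | h3
        · exact absurd (stp_lt h3) (by omega)
        · exact h3
      rw [h] at h4
      rw [h4] at h1
      rw [if_pos h1, mem_singleton]
      exact h4
    · intro h1
      by_cases hS : p ∈ S
      · rw [if_pos hS, mem_singleton] at h1
        subst h1
        exact ⟨⟨hS, hp⟩, Or.inr ((h y).2 rfl)⟩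
      · rw [if_neg hS] at h1
        exact absurd h1 (notMem_empty y)
  rw [h1]
  unfold bt
  split_ifs
  · exact card_singleton p
  · exact card_empty

theorem down_two {S : Finset ℕ} {n p q : ℕ} (h : ∀ y, stp y n ↔ y = p ∨ y = q) (hp : p < n)
    (hq : q < n) (hpq : p ≠ q) :
    ((blw S n).filter (chN.Adj n)).card = bt S p + bt S q := by
  have h1 : (blw S n).filter (chN.Adj n) =
      (if p ∈ S then {p} else ∅) ∪ (if q ∈ S then {q} else ∅) := by
    ext y
    rw [mem_filter, mem_blw, chN_adj, mem_union]
    constructor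
    · rintro ⟨⟨h1, h2⟩, h3⟩
      have h4 : stp y n := by
        rcases h3 with h3 | h3
        · exact absurd (stp_lt h3) (by omega)
        · exact h3
      rw [h] at h4
      rcases h4 with h4 | h4
      · rw [h4] at h1
        left
        rw [if_pos h1, mem_singleton]
        exact h4
      · rw [h4] at h1
        right
        rw [if_pos h1, mem_singleton]
        exact h4
    · rintro (h1 | h1)
      · by_cases hS : p ∈ S
        · rw [if_pos hS, mem_singleton] at h1
          subst h1
          exact ⟨⟨hS, hp⟩, Or.inr ((h y).2 (Or.inl rfl))⟩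
        · rw [if_neg hS] at h1
          exact absurd h1 (notMem_empty y)
      · by_cases hS : q ∈ S
        · rw [if_pos hS, mem_singleton] at h1
          subst h1
          exact ⟨⟨hS, hq⟩, Or.inr ((h y).2 (Or.inr rfl))⟩
        · rw [if_neg hS] at h1
          exact absurd h1 (notMem_empty y)
  rw [h1, Finset.card_union_of_disjoint]
  · unfold bt
    split_ifs <;> simp
  · rw [Finset.disjoint_left]
    intro y h1 h2
    by_cases hS : p ∈ S
    · by_cases hT : q ∈ S
      · rw [if_pos hS, mem_singleton] at h1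
        rw [if_pos hT, mem_singleton] at h2
        exact hpq (h1.symm.trans h2)
      · rw [if_neg hT] at h2
        exact absurd h2 (notMem_empty y)
    · rw [if_neg hS] at h1
      exact absurd h1 (notMem_empty y)

/-- one more block: number of vertices -/
theorem card_block (S : Finset ℕ) (j : ℕ) :
    (blw S (3 * j + 5)).card = (blw S (3 * j + 2)).card +
      (bt S (3 * j + 2) + bt S (3 * j + 3) + bt S (3 * j + 4)) := by
  rw [show 3 * j + 5 = 3 * j + 4 + 1 by omega, card_blw_succ,
    show 3 * j + 4 = 3 * j + 3 + 1 by omega, card_blw_succ,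
    show 3 * j + 3 = 3 * j + 2 + 1 by omega, card_blw_succ]
  omega

/-- one more block: number of edges; `a` is the bit of `3 j - 1` (zero if `j = 0`) -/
theorem e2_block (S : Finset ℕ) (j : ℕ) :
    e2 chN (blw S (3 * j + 5)) = e2 chN (blw S (3 * j + 2)) +
      2 * (bt S (3 * j + 2) * (bt S (3 * j + 1) + (if j = 0 then 0 else bt S (3 * j - 1))) +
        bt S (3 * j + 3) * bt S (3 * j + 2) +
        bt S (3 * j + 4) * (bt S (3 * j + 3) + bt S (3 * j))) := by
  have h1 : ((blw S (3 * j + 2)).filter (chN.Adj (3 * j + 2))).card =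
      bt S (3 * j + 1) + (if j = 0 then 0 else bt S (3 * j - 1)) := by
    by_cases hj : j = 0
    · rw [if_pos hj, Nat.add_zero]
      exact down_one (fun y => by unfold stp; omega) (by omega)
    · rw [if_neg hj]
      exact down_two (fun y => by unfold stp; omega) (by omega) (by omega) (by omega)
  have h2 : ((blw S (3 * j + 3)).filter (chN.Adj (3 * j + 3))).card = bt S (3 * j + 2) :=
    down_one (fun y => by unfold stp; omega) (by omega)
  have h3 : ((blw S (3 * j + 4)).filter (chN.Adj (3 * j + 4))).card =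
      bt S (3 * j + 3) + bt S (3 * j) :=
    down_two (fun y => by unfold stp; omega) (by omega) (by omega) (by omega)
  have g1 := e2_blw_succ S (3 * j + 2)
  have g2 := e2_blw_succ S (3 * j + 3)
  have g3 := e2_blw_succ S (3 * j + 4)
  rw [h1] at g1
  rw [h2] at g2
  rw [h3] at g3
  rw [show 3 * j + 5 = 3 * j + 4 + 1 by omega, g3, show 3 * j + 4 = 3 * j + 3 + 1 by omega, g2,
    show 3 * j + 3 = 3 * j + 2 + 1 by omega, g1]
  ring

end Pool.Agent.TwoDens.T3
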