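import Pool.Agent.T3L.Base

/-!
The cubic case: no cycles of length four, and every path with three vertices lies in a cycle of
length five.
-/

open Finset

namespace Pool.Agent.TwoDens.T3

open Pool.Agent.TwoDens Pool.Agent.TwoDens.RK Pool.Agent.TwoDens.DD Pool.Agent.TwoDens.TS

variable {V : Type*} [DecidableEq V] {G : SimpleGraph V} [DecidableRel G.Adj]

namespace Cub
variable {X : Finset V} (C : Cub G X)
include C

/-- the rest after removing a closed neighbourhood -/
theorem c1 {v : V} (hv : v ∈ X) : al G (X \ cl G X v) + 1 = al G X ∧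
    pp G (X \ cl G X v) = 2 := by
  have h1 : ∑ u ∈ nb G X v, (nb G X u).card = 9 := by
    rw [Finset.sum_congr rfl (fun u hu => C.h3 u (mem_nb.1 hu).1), Finset.sum_const, C.h3 v hv]
    rfl
  have h2 := rem1_eq C.H.htf hv (by
    rw [h1, C.hp, C.h3 v hv]
    norm_num)
  rw [h1, C.hp, C.h3 v hv] at h2
  refine ⟨h2.1, ?_⟩
  have := h2.2
  push_cast at this
  linarith

/-- there is no cycle of length four -/
theorem noC4 {v w a b : V} (hv : v ∈ X) (hw : w ∈ X)
    (ha : a ∈ X) (hb : b ∈ X) (hvw : v ≠ w) (hab : a ≠ b) (h1 : G.Adj v a) (h2 : G.Adj v b)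
    (h3 : G.Adj w a) (h4 : G.Adj w b) : False := by
  have htf := C.H.htf
  obtain ⟨-, hp⟩ := C.c1 hv
  have hnvw : ¬ G.Adj v w := htf v a w h1 h3.symm
  have mY : ∀ {z : V}, z ∈ X \ cl G X v ↔ z ∈ X ∧ z ≠ v ∧ ¬ G.Adj v z := by
    intro z
    rw [rem_eq, mem_rem]
  have hwY : w ∈ X \ cl G X v := mY.2 ⟨hw, hvw.symm, hnvw⟩
  have split : ∀ z ∈ X \ cl G X v, (nb G (X \ cl G X v) z).card +
      (nb G X v ∩ nb G X z).card = 3 := by
    intro z hz
    have hz' := mY.1 hz
    rw [← C.h3 z hz'.1, ← Finset.card_union_of_disjoint]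
    · congr 1
      ext y
      rw [mem_union, mem_nb, mY, mem_inter, mem_nb, mem_nb]
      constructor
      · rintro (⟨h5, h6⟩ | ⟨_, h6⟩)
        · exact ⟨h5.1, h6⟩
        · exact h6
      · rintro ⟨h5, h6⟩
        by_cases h7 : G.Adj v y
        · exact Or.inr ⟨⟨h5, h7⟩, h5, h6⟩
        · exact Or.inl ⟨⟨h5, fun e => hz'.2.2 (e ▸ h6.symm), h7⟩, h6⟩
    · rw [Finset.disjoint_left]
      intro y hy hy'
      exact (mY.1 (mem_nb.1 hy).1).2.2 (mem_nb.1 (mem_inter.1 hy').1).2
  have s1 := split w hwY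
  have s2 : 2 ≤ (nb G X v ∩ nb G X w).card := by
    rw [← Finset.card_pair hab]
    refine Finset.card_le_card ?_
    intro z hz
    rw [mem_insert, mem_singleton] at hz
    rcases hz with rfl | rfl
    · exact mem_inter.2 ⟨mem_nb.2 ⟨ha, h1⟩, mem_nb.2 ⟨ha, h3⟩⟩
    · exact mem_inter.2 ⟨mem_nb.2 ⟨hb, h2⟩, mem_nb.2 ⟨hb, h4⟩⟩
  have h5 := one_le htf (by rw [hp]; norm_num) hwY
  obtain ⟨u, hu⟩ := card_pos.1 h5
  have hu' := mem_nb.1 hu
  have h6 := leaf htf (by rw [hp]) hwY hu'.1 hu'.2 (by omega)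
  have s3 := split u hu'.1
  have h7 := Finset.card_union_add_card_inter (nb G X v ∩ nb G X w) (nb G X v ∩ nb G X u)
  have h8 : ((nb G X v ∩ nb G X w) ∪ (nb G X v ∩ nb G X u)).card ≤ 3 := by
    rw [← C.h3 v hv]
    exact Finset.card_le_card (Finset.union_subset Finset.inter_subset_left
      Finset.inter_subset_left)
  obtain ⟨c, hc⟩ := card_pos.1 (by omega :
    0 < ((nb G X v ∩ nb G X w) ∩ (nb G X v ∩ nb G X u)).card)
  rw [mem_inter, mem_inter, mem_inter] at hc
  exact htf w u c hu'.2 (mem_nb.1 hc.2.2).2 (mem_nb.1 hc.1.2).2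

/-- every path with three vertices lies in a cycle of length five -/
theorem P {v a w : V} (hv : v ∈ X) (hw : w ∈ X)
    (ha : a ∈ X) (hvw : v ≠ w) (h1 : G.Adj v a) (h2 : G.Adj a w) :
    ∃ u ∈ X, ∃ b ∈ X, u ≠ a ∧ b ≠ a ∧ G.Adj w u ∧ G.Adj u b ∧ G.Adj b v := by
  by_contra hcon
  have htf := C.H.htf
  have hno : ∀ {u b : V}, u ∈ X → b ∈ X → u ≠ a → b ≠ a → G.Adj w u → G.Adj b v →
      ¬ G.Adj u b := by
    intro u b hu hb e1 e2 g1 g2 g3
    exact hcon ⟨u, hu, b, hb, e1, e2, g1, g3, g2⟩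
  have hnvw : ¬ G.Adj v w := htf v a w h1 h2
  have cov : ∀ {z : V}, z ∈ X → z ≠ a → G.Adj v z → ¬ G.Adj w z := by
    intro z hz e g1 g2
    exact C.noC4 hv hw ha hz hvw e.symm h1 g1 h2.symm g2
  have haV : a ∈ nb G X v := mem_nb.2 ⟨ha, h1⟩
  have haW : a ∈ nb G X w := mem_nb.2 ⟨ha, h2.symm⟩
  obtain ⟨S1, hS1⟩ : ∃ S, S = (nb G X v).erase a := ⟨_, rfl⟩
  obtain ⟨S2, hS2⟩ : ∃ S, S = (nb G X w).erase a := ⟨_, rfl⟩
  have m1 : ∀ {z : V}, z ∈ S1 ↔ z ≠ a ∧ z ∈ X ∧ G.Adj v z := by
    intro z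
    rw [hS1, mem_erase, mem_nb]
  have m2 : ∀ {z : V}, z ∈ S2 ↔ z ≠ a ∧ z ∈ X ∧ G.Adj w z := by
    intro z
    rw [hS2, mem_erase, mem_nb]
  have c1 : S1.card = 2 := by
    rw [hS1, Finset.card_erase_of_mem haV, C.h3 v hv]
  have c2 : S2.card = 2 := by
    rw [hS2, Finset.card_erase_of_mem haW, C.h3 w hw]
  have hd : Disjoint S1 S2 := by
    rw [Finset.disjoint_left]
    intro z hz hz'
    exact cov (m1.1 hz).2.1 (m1.1 hz).1 (m1.1 hz).2.2 (m2.1 hz').2.2
  obtain ⟨R, hR⟩ : ∃ R, R = ({v, w, a} : Finset V) ∪ (S1 ∪ S2) := ⟨_, rfl⟩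
  have mR : ∀ {z : V}, z ∈ R ↔ (z = v ∨ z = w ∨ z = a) ∨ z ∈ S1 ∨ z ∈ S2 := by
    intro z
    rw [hR]
    simp only [mem_union, mem_insert, mem_singleton]
  have hRX : R ⊆ X := by
    intro z hz
    rw [mR] at hz
    rcases hz with (rfl | rfl | rfl) | hz | hz
    · exact hv
    · exact hw
    · exact ha
    · exact (m1.1 hz).2.1
    · exact (m2.1 hz).2.1
  have h3c : ({v, w, a} : Finset V).card = 3 := by
    rw [Finset.card_insert_of_notMem (by simp [hvw, h1.ne]), Finset.card_pair h2.ne']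
  have hd2 : Disjoint ({v, w, a} : Finset V) (S1 ∪ S2) := by
    rw [Finset.disjoint_left]
    intro z hz hz'
    rw [mem_insert, mem_insert, mem_singleton] at hz
    rw [mem_union] at hz'
    rcases hz with rfl | rfl | rfl
    · rcases hz' with g | g
      · exact (m1.1 g).2.2.ne rfl
      · exact hnvw (m2.1 g).2.2.symm
    · rcases hz' with g | g
      · exact hnvw (m1.1 g).2.2
      · exact (m2.1 g).2.2.ne rfl
    · rcases hz' with g | g
      · exact (m1.1 g).1 rfl
      · exact (m2.1 g).1 rfl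
  have hRc : R.card = 7 := by
    rw [hR, Finset.card_union_of_disjoint hd2, Finset.card_union_of_disjoint hd, h3c, c1, c2]
  -- the edges inside
  have he : e2 G R ≤ 12 := by
    rw [e2_eq]
    have e0 : ∑ z ∈ R, (nb G R z).card = ∑ z ∈ ({v, w, a} : Finset V), (nb G R z).card +
        (∑ z ∈ S1, (nb G R z).card + ∑ z ∈ S2, (nb G R z).card) := by
      rw [← Finset.sum_union hd, ← Finset.sum_union hd2, ← hR]
    have e1 : ∑ z ∈ ({v, w, a} : Finset V), (nb G R z).card ≤ 8 := by
      rw [Finset.sum_insert (by simp [hvw, h1.ne]), Finset.sum_pair h2.ne']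
      have g1 : (nb G R v).card ≤ 3 := by
        rw [← C.h3 v hv]
        exact Finset.card_le_card (Finset.filter_subset_filter _ hRX)
      have g2 : (nb G R w).card ≤ 3 := by
        rw [← C.h3 w hw]
        exact Finset.card_le_card (Finset.filter_subset_filter _ hRX)
      have g3 : (nb G R a).card ≤ 2 := by
        rw [← Finset.card_pair hvw]
        refine Finset.card_le_card ?_
        intro z hz
        have hz' := mem_nb.1 hz
        rw [mem_insert, mem_singleton]
        have hz2 := mR.1 hz'.1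
        rcases hz2 with (e | e | e) | g | g
        · exact Or.inl e
        · exact Or.inr e
        · exact absurd e.symm hz'.2.ne
        · exact (htf v a z h1 hz'.2 (m1.1 g).2.2).elim
        · exact (htf w a z h2.symm hz'.2 (m2.1 g).2.2).elim
      omega
    have e2' : ∑ z ∈ S1, (nb G R z).card ≤ 2 := by
      rw [← c1]
      refine (Finset.sum_le_card_nsmul S1 _ 1 ?_).trans (by simp)
      intro z hz
      have hz' := m1.1 hz
      rw [← Finset.card_singleton v]
      refine Finset.card_le_card ?_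
      intro y hy
      have hy' := mem_nb.1 hy
      rw [mem_singleton]
      rcases mR.1 hy'.1 with (e | e | e) | g | g
      · exact e
      · exact (cov hz'.2.1 hz'.1 hz'.2.2 (e ▸ hy'.2.symm)).elim
      · exact (htf v z y hz'.2.2 hy'.2 (e ▸ h1)).elim
      · exact (htf v z y hz'.2.2 hy'.2 (m1.1 g).2.2).elim
      · exact (hno (m2.1 g).2.1 hz'.2.1 (m2.1 g).1 hz'.1 (m2.1 g).2.2 hz'.2.2.symm
          hy'.2.symm).elim
    have e3 : ∑ z ∈ S2, (nb G R z).card ≤ 2 := by
      rw [← c2]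
      refine (Finset.sum_le_card_nsmul S2 _ 1 ?_).trans (by simp)
      intro z hz
      have hz' := m2.1 hz
      rw [← Finset.card_singleton w]
      refine Finset.card_le_card ?_
      intro y hy
      have hy' := mem_nb.1 hy
      rw [mem_singleton]
      rcases mR.1 hy'.1 with (e | e | e) | g | g
      · exact (cov hz'.2.1 hz'.1 (e ▸ hy'.2.symm) hz'.2.2).elim
      · exact e
      · exact (htf w z y hz'.2.2 hy'.2 (e ▸ h2.symm)).elim
      · exact (hno hz'.2.1 (m1.1 g).2.1 hz'.1 (m1.1 g).1 hz'.2.2 (m1.1 g).2.2.symm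
          hy'.2).elim
      · exact (htf w z y hz'.2.2 hy'.2 (m2.1 g).2.2).elim
    omega
  -- the rest
  have hsum : ∑ z ∈ R, (nb G X z).card = 21 := by
    rw [Finset.sum_congr rfl (fun u hu => C.h3 u (hRX hu)), Finset.sum_const, hRc]
    rfl
  have hal : al G (X \ R) + 2 ≤ al G X := by
    have h := al_closed (G := G) (Y := X) (S := R) (J := {v, w}) (by
      intro z hz
      rw [mem_insert, mem_singleton] at hz
      rcases hz with rfl | rfl
      · exact hv
      · exact hw) (by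
      intro z hz
      rw [mem_insert, mem_singleton] at hz
      rw [mR]
      tauto) (indep_pair hnvw) (by
      intro z hz y hy hzy
      rw [mem_insert, mem_singleton] at hz
      rw [mR]
      by_cases e : y = a
      · exact Or.inl (Or.inr (Or.inr e))
      · rcases hz with rfl | rfl
        · exact Or.inr (Or.inl (m1.2 ⟨e, hy, hzy⟩))
        · exact Or.inr (Or.inr (m2.2 ⟨e, hy, hzy⟩)))
    rwa [Finset.card_pair hvw] at h
  have hpT := ppT (G := G) hRX
  have hp0 := pp_nonneg htf (X \ R)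
  rw [hsum, hRc, C.hp] at hpT
  have he' : (e2 G R : ℤ) ≤ 12 := by exact_mod_cast he
  have hal' : (al G (X \ R) : ℤ) + 2 ≤ al G X := by exact_mod_cast hal
  push_cast at hpT
  have a1 : (al G X : ℤ) = al G (X \ R) + 2 := by linarith
  have a2 : pp G (X \ R) = 0 := by linarith
  have a3 : (e2 G R : ℤ) = 12 := by linarith
  have a1' : al G X = al G (X \ R) + 2 := by exact_mod_cast a1
  have a3' : e2 G R = 12 := by exact_mod_cast a3
  have hcZ : (X \ R).card + 7 = X.card := by
    rw [← hRc]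
    exact Finset.card_sdiff_add_card_eq_card hRX
  -- the number of vertices
  have hn : 20 * al G X = 7 * X.card := by
    have g1 := C.hp
    unfold pp at g1
    have g2 : e2 G X = 3 * X.card := by
      rw [e2_eq, Finset.sum_congr rfl (fun u hu => C.h3 u hu), Finset.sum_const, smul_eq_mul,
        mul_comm]
    rw [g2] at g1
    push_cast at g1
    have g3 : (20 * al G X : ℤ) = 7 * X.card := by linarith
    exact_mod_cast g3
  have hZne : X \ R ≠ X := by
    intro e
    have : v ∈ X \ R := by rw [e]; exact hv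
    exact (mem_sdiff.1 this).2 (mR.2 (Or.inl (Or.inl rfl)))
  have hZX : X \ R ⊆ X := Finset.sdiff_subset
  have sub : ∀ {Y : Finset V}, Y ⊆ X \ R → Y ≠ X := by
    intro Y hY e
    exact hZne (Finset.Subset.antisymm hZX (e ▸ hY))
  have hC := goodC (C.H.mono hZX) (fun Y hY hYn hpY => C.ih Y (hY.trans hZX) (sub hY) hYn hpY)
    (X \ R).card (X \ R) le_rfl rfl a2
  -- the edges between
  have hn2 : (n2 G (X \ R)).card ≤ 9 := by
    have g1 : (n2 G (X \ R)).card ≤ ∑ z ∈ X \ R, (nb G R z).card := by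
      have g2 : ∑ z ∈ n2 G (X \ R), 1 ≤ ∑ z ∈ n2 G (X \ R), (nb G R z).card := by
        refine Finset.sum_le_sum fun z hz => ?_
        unfold n2 at hz
        rw [mem_filter] at hz
        have g3 : (nb G X z).card = (nb G (X \ R) z).card + (nb G R z).card := by
          rw [← Finset.card_union_of_disjoint]
          · congr 1
            ext y
            rw [mem_union, mem_nb, mem_nb, mem_nb, mem_sdiff]
            constructor
            · rintro ⟨g4, g5⟩
              by_cases g6 : y ∈ R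
              · exact Or.inr ⟨g6, g5⟩
              · exact Or.inl ⟨⟨g4, g6⟩, g5⟩
            · rintro (⟨g4, g5⟩ | ⟨g4, g5⟩)
              · exact ⟨g4.1, g5⟩
              · exact ⟨hRX g4, g5⟩
          · rw [Finset.disjoint_left]
            intro y hy hy'
            exact (mem_sdiff.1 (mem_nb.1 hy).1).2 (mem_nb.1 hy').1
        rw [C.h3 z (hZX hz.1), hz.2] at g3
        omega
      rw [Finset.sum_const, smul_eq_mul, mul_one] at g2
      exact g2.trans (Finset.sum_le_sum_of_subset (filter_subset _ _))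
    have g4 : ∑ z ∈ X \ R, (nb G R z).card = ∑ z ∈ R, (nb G (X \ R) z).card := by
      unfold nb
      simp only [Finset.card_filter]
      rw [Finset.sum_comm]
      refine Finset.sum_congr rfl fun x _ => Finset.sum_congr rfl fun y _ => ?_
      simp only [G.adj_comm]
    have g5 : ∑ z ∈ R, (nb G (X \ R) z).card + ∑ z ∈ R, (nb G R z).card = 21 := by
      rw [← hsum, ← Finset.sum_add_distrib]
      refine Finset.sum_congr rfl fun z hz => ?_
      rw [← Finset.card_union_of_disjoint]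
      · congr 1
        ext y
        rw [mem_union, mem_nb, mem_nb, mem_nb, mem_sdiff]
        constructor
        · rintro (⟨g4, g5⟩ | ⟨g4, g5⟩)
          · exact ⟨g4.1, g5⟩
          · exact ⟨hRX g4, g5⟩
        · rintro ⟨g4, g5⟩
          by_cases g6 : y ∈ R
          · exact Or.inr ⟨g6, g5⟩
          · exact Or.inl ⟨⟨g4, g6⟩, g5⟩
      · rw [Finset.disjoint_left]
        intro y hy hy'
        exact (mem_sdiff.1 (mem_nb.1 hy).1).2 (mem_nb.1 hy').1
    rw [e2_eq] at a3'
    omega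
  have hXc := card_pos.2 C.hne
  have h20 : X.card = 20 := by omega
  have hZn : (X \ R).Nonempty := card_pos.1 (by omega)
  obtain ⟨A, B, hA, hB, hs, hAB⟩ := (C.ih (X \ R) hZX hZne hZn a2).2 (by omega)
  have hAZ : A ⊆ X \ R := hAB ▸ subset_union_left
  have hBZ : B ⊆ X \ R := hAB ▸ subset_union_right
  have hpp := hs.pp
  have hc := hs.card
  have ha' := hs.al
  rw [hAB] at hpp hc ha'
  have hpA := pp_nonneg htf A
  have hpB := pp_nonneg htf B
  have nA := C.H.hnu A (hAZ.trans hZX) hA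
  have nB := C.H.hnu B (hBZ.trans hZX) hB
  have key : ∀ {Y : Finset V}, Y ⊆ X \ R → Y.Nonempty → pp G Y = 0 → 3 * al G Y = Y.card + 1 →
      Y.card ≠ 5 → False := by
    intro Y hY hYn hpY hnu h5
    rcases (C.ih Y (hY.trans hZX) (sub hY) hYn hpY).1 hnu with ⟨g, -⟩ | ⟨-, -, g⟩
    · exact h5 g
    · obtain ⟨p, hp, q, hq, b, hb, c, hc, g1, g2, g3, g4, g5, g6⟩ := g
      exact C.noC4 (hZX (hY hp)) (hZX (hY hq)) (hZX (hY hb)) (hZX (hY hc)) g1 g2 g3 g4 g5 g6
  by_cases h5 : A.card = 5
  · exact key hBZ hB (by linarith) (by omega) (by omega)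
  · exact key hAZ hA (by linarith) (by omega) h5

end Cub

end Pool.Agent.TwoDens.T3
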