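import Pool.Agent.T3L.CubA

/-!
The cubic case: every path with three vertices lies in at most one cycle of length five.
-/

open Finset

namespace Pool.Agent.TwoDens.T3

open Pool.Agent.TwoDens Pool.Agent.TwoDens.RK Pool.Agent.TwoDens.DD Pool.Agent.TwoDens.TS

variable {V : Type*} [DecidableEq V] {G : SimpleGraph V} [DecidableRel G.Adj]

/-- the vertices outside the closed neighbourhood -/
def sY (G : SimpleGraph V) [DecidableRel G.Adj] (X : Finset V) (v : V) : Finset V :=
  X \ cl G X v

/-- the vertices at distance two -/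
def sH (G : SimpleGraph V) [DecidableRel G.Adj] (X : Finset V) (v : V) : Finset V :=
  (sY G X v).filter (fun t => 0 < (nb G (nb G X v) t).card)

theorem mem_cl {X : Finset V} {v u : V} : u ∈ cl G X v ↔ u = v ∨ (u ∈ X ∧ G.Adj v u) := by
  unfold cl
  rw [mem_insert, mem_nb]

theorem mem_sY {X : Finset V} {v u : V} : u ∈ sY G X v ↔ u ∈ X ∧ u ≠ v ∧ ¬ G.Adj v u := by
  unfold sY
  rw [mem_sdiff, mem_cl]
  tauto

theorem mem_sH {X : Finset V} {v u : V} :
    u ∈ sH G X v ↔ u ∈ sY G X v ∧ ∃ a ∈ X, G.Adj v a ∧ G.Adj a u := by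
  unfold sH
  rw [mem_filter, Finset.card_pos]
  constructor
  · rintro ⟨h1, a, ha⟩
    have h2 := mem_nb.1 ha
    have h3 := mem_nb.1 h2.1
    exact ⟨h1, a, h3.1, h3.2, h2.2.symm⟩
  · rintro ⟨h1, a, h2, h3, h4⟩
    exact ⟨h1, a, mem_nb.2 ⟨mem_nb.2 ⟨h2, h3⟩, h4.symm⟩⟩

namespace Cub
variable {X : Finset V} (C : Cub G X)
include C

theorem tfx {a b c : V} (h1 : G.Adj a b) (h2 : G.Adj b c) : ¬ G.Adj a c := C.H.htf a b c h1 h2

/-- degrees outside the closed neighbourhood -/
theorem dY {v t : V} (hv : v ∈ X) (ht : t ∈ sY G X v) :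
    (nb G (sY G X v) t).card + (nb G (nb G X v) t).card = 3 ∧ (nb G (nb G X v) t).card ≤ 1 := by
  have ht' := mem_sY.1 ht
  constructor
  · rw [← C.h3 t ht'.1, ← card_union_of_disjoint]
    · congr 1
      ext u
      rw [mem_union, mem_nb, mem_nb, mem_nb, mem_sY]
      rw [mem_nb]
      constructor
      · rintro (⟨h1, h2⟩ | ⟨h1, h2⟩)
        · exact ⟨h1.1, h2⟩
        · exact ⟨h1.1, h2⟩
      · rintro ⟨h1, h2⟩
        by_cases e : G.Adj v u
        · exact Or.inr ⟨⟨h1, e⟩, h2⟩
        · refine Or.inl ⟨⟨h1, ?_, e⟩, h2⟩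
          intro e2
          rw [e2] at h2
          exact ht'.2.2 h2.symm
    · rw [disjoint_left]
      intro u hu hu'
      exact (mem_sY.1 (mem_nb.1 hu).1).2.2 (mem_nb.1 (mem_nb.1 hu').1).2
  · rw [card_le_one]
    intro a ha b hb
    by_contra hab
    have a1 := mem_nb.1 ha
    have a2 := mem_nb.1 a1.1
    have b1 := mem_nb.1 hb
    have b2 := mem_nb.1 b1.1
    exact C.noC4 hv ht'.1 a2.1 b2.1 ht'.2.1.symm hab a2.2 b2.2 a1.2 b1.2

theorem dH {v t : V} (hv : v ∈ X) (ht : t ∈ sH G X v) : (nb G (sY G X v) t).card = 2 := by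
  unfold sH at ht
  rw [mem_filter] at ht
  have h1 := C.dY hv ht.1
  omega

theorem dnH {v t : V} (hv : v ∈ X) (ht : t ∈ sY G X v) (hn : t ∉ sH G X v) :
    (nb G (sY G X v) t).card = 3 := by
  have h1 := C.dY hv ht
  have h2 : ¬ 0 < (nb G (nb G X v) t).card := by
    intro h
    exact hn (mem_filter.2 ⟨ht, h⟩)
  omega

theorem dle {v t : V} (hv : v ∈ X) (ht : t ∈ sY G X v) :
    2 ≤ (nb G (sY G X v) t).card ∧ (nb G (sY G X v) t).card ≤ 3 := by
  have h1 := C.dY hv ht
  omega

omit C in
theorem sYX {v : V} : sY G X v ⊆ X := fun _ h => (mem_sY.1 h).1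

/-- the potential outside the closed neighbourhood -/
theorem pY {v : V} (hv : v ∈ X) : al G (sY G X v) + 1 = al G X ∧ pp G (sY G X v) = 2 := by
  have h1 : ∑ u ∈ nb G X v, (nb G X u).card = 9 := by
    rw [sum_congr rfl (fun u hu => C.h3 u (mem_nb.1 hu).1), sum_const, C.h3 v hv]
    rfl
  have h2 := rem1_eq C.H.htf hv (by rw [h1, C.hp, C.h3 v hv]; norm_num)
  rw [h1, C.hp, C.h3 v hv] at h2
  unfold sY
  refine ⟨h2.1, ?_⟩
  have h3 := h2.2
  push_cast at h3
  linarith

theorem cY {v : V} (hv : v ∈ X) : (sY G X v).card + 4 = X.card := by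
  have h1 : (cl G X v).card = 4 := by
    unfold cl
    rw [card_insert_of_notMem (fun h => G.loopless.irrefl v (mem_nb.1 h).2), C.h3 v hv]
  have h2 : cl G X v ⊆ X := by
    intro u hu
    rw [mem_cl] at hu
    rcases hu with h | h
    · exact h ▸ hv
    · exact h.1
  rw [← h1]
  exact card_sdiff_add_card_eq_card h2

theorem cH {v : V} (hv : v ∈ X) : (sH G X v).card = 6 := by
  have h1 : e2 G X = 3 * X.card := by
    rw [e2_eq, sum_congr rfl (fun u hu => C.h3 u hu), sum_const, smul_eq_mul, mul_comm]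
  have h2 : e2 G (sY G X v) + (sH G X v).card = 3 * (sY G X v).card := by
    have h3 : ∀ t ∈ sY G X v, (nb G (sY G X v) t).card +
        (if 0 < (nb G (nb G X v) t).card then 1 else 0) = 3 := by
      intro t ht
      have h4 := C.dY hv ht
      split_ifs <;> omega
    rw [e2_eq]
    unfold sH
    rw [card_filter, ← sum_add_distrib, sum_congr rfl h3, sum_const, smul_eq_mul, mul_comm]
  have h3 := (C.pY hv).2
  have h4 := (C.pY hv).1
  have h5 := C.hp
  have h6 := C.cY hv
  unfold pp at h3 h5
  rw [h1] at h5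
  push_cast at h5
  omega

theorem Hsub {v : V} : sH G X v ⊆ sY G X v := filter_subset _ _

/-- two neighbours determine the neighbourhood of a vertex of the sphere -/
theorem nb2 {v t a b : V} (hv : v ∈ X) (ht : t ∈ sH G X v) (ha : a ∈ sY G X v)
    (hb : b ∈ sY G X v) (hab : a ≠ b) (h1 : G.Adj t a) (h2 : G.Adj t b) {u : V}
    (hu : u ∈ sY G X v) (h3 : G.Adj t u) : u = a ∨ u = b := by
  have h4 : ({a, b} : Finset V) = nb G (sY G X v) t := by
    refine eq_of_subset_of_card_le ?_ ?_
    · intro z hz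
      rw [mem_insert, mem_singleton] at hz
      rcases hz with rfl | rfl
      · exact mem_nb.2 ⟨ha, h1⟩
      · exact mem_nb.2 ⟨hb, h2⟩
    · rw [C.dH hv ht, card_pair hab]
  have h5 : u ∈ nb G (sY G X v) t := mem_nb.2 ⟨hu, h3⟩
  rw [← h4, mem_insert, mem_singleton] at h5
  exact h5

/-- the other neighbour of a vertex of the sphere -/
theorem oth {v t a : V} (hv : v ∈ X) (ht : t ∈ sH G X v) (_ha : a ∈ sY G X v)
    (_h1 : G.Adj t a) : ∃ b ∈ sY G X v, b ≠ a ∧ G.Adj t b := by
  obtain ⟨b, hb, hba⟩ := exists_mem_ne (by rw [C.dH hv ht]; omega :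
    1 < (nb G (sY G X v) t).card) a
  exact ⟨b, (mem_nb.1 hb).1, hba, (mem_nb.1 hb).2⟩

/-- no 4-cycle, in a convenient form -/
theorem n4 {v w a b : V} (hv : v ∈ X) (hw : w ∈ X) (ha : a ∈ X) (hb : b ∈ X) (hab : a ≠ b)
    (h1 : G.Adj v a) (h2 : G.Adj v b) (h3 : G.Adj w a) (h4 : G.Adj w b) : v = w := by
  by_contra h
  exact C.noC4 hv hw ha hb h hab h1 h2 h3 h4

/-- a 5-cycle `w' w x y x'` outside the closed neighbourhood of `v` with exactly the vertex `x'`
not in the sphere -/
theorem c4b {v w w' x y x' : V} (hv : v ∈ X) (hw : w ∈ sH G X v) (hw' : w' ∈ sH G X v)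
    (hx : x ∈ sH G X v) (hy : y ∈ sH G X v) (hx' : x' ∈ sY G X v) (hn : x' ∉ sH G X v)
    (a1 : G.Adj w w') (a2 : G.Adj w x) (a3 : G.Adj x y) (a4 : G.Adj y x') (a5 : G.Adj x' w')
    (e1 : w' ≠ x) (e2' : w ≠ y) (e3 : w' ≠ y) : False := by
  have hHY := C.Hsub (v := v)
  have ew' : x' ≠ w := fun h => hn (h ▸ hw)
  have ex' : x' ≠ x := fun h => hn (h ▸ hx)
  have nwy : ¬ G.Adj w y := C.tfx a2 a3
  have nw : ∀ u ∈ sY G X v, G.Adj w u → u = w' ∨ u = x := fun u hu h =>
    C.nb2 hv hw (hHY hw') (hHY hx) e1 a1 a2 hu h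
  have nw' : ∀ u ∈ sY G X v, G.Adj w' u → u = w ∨ u = x' := fun u hu h =>
    C.nb2 hv hw' (hHY hw) hx' ew'.symm a1.symm a5.symm hu h
  have nx : ∀ u ∈ sY G X v, G.Adj x u → u = w ∨ u = y := fun u hu h =>
    C.nb2 hv hx (hHY hw) (hHY hy) e2' a2.symm a3 hu h
  have ny : ∀ u ∈ sY G X v, G.Adj y u → u = x ∨ u = x' := fun u hu h =>
    C.nb2 hv hy (hHY hx) hx' ex'.symm a3.symm a4 hu h
  obtain ⟨Q, hQ⟩ : ∃ Q : Finset V, Q = insert w' (insert w (insert x (insert y {x'}))) := ⟨_, rfl⟩
  have mQ : ∀ u, u ∈ Q ↔ u = w' ∨ u = w ∨ u = x ∨ u = y ∨ u = x' := by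
    intro u
    rw [hQ]
    simp only [mem_insert, mem_singleton]
  have hQY : Q ⊆ sY G X v := by
    intro u hu
    rw [mQ] at hu
    rcases hu with h | h | h | h | h
    · exact h ▸ hHY hw'
    · exact h ▸ hHY hw
    · exact h ▸ hHY hx
    · exact h ▸ hHY hy
    · exact h ▸ hx'
  have k1 : y ∉ ({x'} : Finset V) := by
    rw [mem_singleton]
    exact a4.ne
  have k2 : x ∉ insert y ({x'} : Finset V) := by
    rw [mem_insert, mem_singleton]
    rintro (h | h)
    · exact a3.ne h
    · exact ex' h.symm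
  have k3 : w ∉ insert x (insert y ({x'} : Finset V)) := by
    rw [mem_insert, mem_insert, mem_singleton]
    rintro (h | h | h)
    · exact a2.ne h
    · exact e2' h
    · exact ew' h.symm
  have k4 : w' ∉ insert w (insert x (insert y ({x'} : Finset V))) := by
    rw [mem_insert, mem_insert, mem_insert, mem_singleton]
    rintro (h | h | h | h)
    · exact a1.ne h.symm
    · exact e1 h
    · exact e3 h
    · exact a5.ne h.symm
  have hQc : Q.card = 5 := by
    rw [hQ, card_insert_of_notMem k4, card_insert_of_notMem k3, card_insert_of_notMem k2,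
      card_insert_of_notMem k1, card_singleton]
  have hsum : ∑ u ∈ Q, (nb G (sY G X v) u).card = 11 := by
    rw [hQ, sum_insert k4, sum_insert k3, sum_insert k2, sum_insert k1, sum_singleton,
      C.dH hv hw', C.dH hv hw, C.dH hv hx, C.dH hv hy, C.dnH hv hx' hn]
    rfl
  have he : e2 G Q ≤ 10 := by
    have key : ∀ u ∈ Q, (nb G Q u).card ≤ 2 := by
      have hm : ∀ u ∈ sH G X v, (nb G Q u).card ≤ 2 := by
        intro u hu
        rw [← C.dH hv hu]
        exact card_le_card (fun z hz => mem_nb.2 ⟨hQY (mem_nb.1 hz).1, (mem_nb.1 hz).2⟩)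
      intro u hu
      rw [mQ] at hu
      rcases hu with h | h | h | h | h
      · exact hm u (h ▸ hw')
      · exact hm u (h ▸ hw)
      · exact hm u (h ▸ hx)
      · exact hm u (h ▸ hy)
      · rw [h]
        have h1 : nb G Q x' ⊆ {w', y} := by
          intro z hz
          have hz' := mem_nb.1 hz
          rw [mQ] at hz'
          rw [mem_insert, mem_singleton]
          rcases hz'.1 with e | e | e | e | e
          · exact Or.inl e
          · rw [e] at hz'
            rcases nw x' hx' hz'.2.symm with h2 | h2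
            · exact absurd (h2 ▸ hw') hn
            · exact absurd h2 ex'
          · rw [e] at hz'
            rcases nx x' hx' hz'.2.symm with h2 | h2
            · exact absurd h2 ew'
            · exact absurd (h2 ▸ hy) hn
          · exact Or.inr e
          · rw [e] at hz'
            exact absurd hz'.2 (G.loopless.irrefl x')
        have h2 := card_le_card h1
        have h3 := card_insert_le w' ({y} : Finset V)
        rw [card_singleton] at h3
        omega
    rw [e2_eq]
    have := sum_le_card_nsmul Q (fun u => (nb G Q u).card) 2 key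
    rw [hQc] at this
    simpa using this
  have hal := al_closed (G := G) (Y := sY G X v) (S := Q) (J := {w, y}) (by
    intro z hz
    rw [mem_insert, mem_singleton] at hz
    rcases hz with rfl | rfl
    · exact hHY hw
    · exact hHY hy) (by
    intro z hz
    rw [mem_insert, mem_singleton] at hz
    rw [mQ]
    tauto) (indep_pair nwy) (by
    intro z hz u hu hzu
    rw [mem_insert, mem_singleton] at hz
    rw [mQ]
    rcases hz with rfl | rfl
    · rcases nw u hu hzu with h | h
      · exact Or.inl h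
      · exact Or.inr (Or.inr (Or.inl h))
    · rcases ny u hu hzu with h | h
      · exact Or.inr (Or.inr (Or.inl h))
      · exact Or.inr (Or.inr (Or.inr (Or.inr h))))
  rw [card_pair e2'] at hal
  have hp := ppT (G := G) hQY
  rw [hsum, hQc, (C.pY hv).2] at hp
  have hpn := pp_nonneg C.H.htf (sY G X v \ Q)
  have hpn' := pp_nonneg C.H.htf (sY G X v \ Q)
  have he' : (e2 G Q : ℤ) ≤ 10 := by exact_mod_cast he
  have hal' : (al G (sY G X v \ Q) : ℤ) + 2 ≤ al G (sY G X v) := by exact_mod_cast hal
  push_cast at hp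
  have hD : (al G (sY G X v) : ℤ) ≤ al G (sY G X v \ Q) + 2 := by
    by_contra hcon
    push Not at hcon
    have : (al G (sY G X v \ Q) : ℤ) + 3 ≤ al G (sY G X v) := by linarith
    linarith
  have hpp : pp G (sY G X v \ Q) = 0 := by linarith
  have hal2 : al G (sY G X v \ Q) + 3 = al G X := by
    have h1 : al G (sY G X v) ≤ al G (sY G X v \ Q) + 2 := by exact_mod_cast hD
    have h2 := (C.pY hv).1
    omega
  have hc2 : (sY G X v \ Q).card + 9 = X.card := by
    have h1 := card_sdiff_add_card_eq_card hQY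
    have h2 := C.cY hv
    omega
  have hYX : sY G X v \ Q ⊆ X := sdiff_subset.trans sYX
  have hne : sY G X v \ Q ≠ X := by
    intro h
    rw [← h] at hv
    exact (mem_sY.1 (mem_sdiff.1 hv).1).2.1 rfl
  have hn2 := C.ih.n2 C.H hYX hne hpp
  have hnu := C.H.hnu X (Subset.refl X) C.hne
  -- the vertices of degree two
  have hup : (n2 G (sY G X v \ Q)).card ≤ 3 := by
    obtain ⟨A, hA⟩ : ∃ A : Finset V, A = (sH G X v) \ insert w' (insert w (insert x {y})) :=
      ⟨_, rfl⟩
    obtain ⟨D, hD⟩ : ∃ D : Finset V, D = ((nb G (sY G X v) x').erase w').erase y := ⟨_, rfl⟩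
    have h1 : n2 G (sY G X v \ Q) ⊆ A ∪ D := by
      intro t ht
      unfold n2 at ht
      rw [mem_filter, mem_sdiff, mQ] at ht
      obtain ⟨⟨ht1, ht2⟩, ht3⟩ := ht
      push Not at ht2
      rw [mem_union]
      by_cases htH : t ∈ sH G X v
      · refine Or.inl ?_
        rw [hA, mem_sdiff, mem_insert, mem_insert, mem_insert, mem_singleton]
        refine ⟨htH, ?_⟩
        rintro (h | h | h | h)
        · exact ht2.1 h
        · exact ht2.2.1 h
        · exact ht2.2.2.1 h
        · exact ht2.2.2.2.1 h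
      · refine Or.inr ?_
        have h3 := C.dnH hv ht1 htH
        have h4 : ∃ q ∈ nb G (sY G X v) t, q ∈ Q := by
          by_contra hcon
          push Not at hcon
          have h5 : nb G (sY G X v) t ⊆ nb G (sY G X v \ Q) t := fun z hz =>
            mem_nb.2 ⟨mem_sdiff.2 ⟨(mem_nb.1 hz).1, hcon z hz⟩, (mem_nb.1 hz).2⟩
          have h6 := card_le_card h5
          omega
        obtain ⟨q, hq, hqQ⟩ := h4
        have hq' := mem_nb.1 hq
        rw [mQ] at hqQ
        rw [hD, mem_erase, mem_erase, mem_nb]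
        have hx't : G.Adj x' t := by
          rcases hqQ with h | h | h | h | h
          · exfalso
            rw [h] at hq'
            rcases nw' t ht1 hq'.2.symm with g | g
            · exact ht2.2.1 g
            · exact ht2.2.2.2.2 g
          · exfalso
            rw [h] at hq'
            rcases nw t ht1 hq'.2.symm with g | g
            · exact ht2.1 g
            · exact ht2.2.2.1 g
          · exfalso
            rw [h] at hq'
            rcases nx t ht1 hq'.2.symm with g | g
            · exact ht2.2.1 g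
            · exact ht2.2.2.2.1 g
          · exfalso
            rw [h] at hq'
            rcases ny t ht1 hq'.2.symm with g | g
            · exact ht2.2.2.1 g
            · exact ht2.2.2.2.2 g
          · rw [h] at hq'
            exact hq'.2.symm
        exact ⟨ht2.2.2.2.1, ht2.1, ht1, hx't⟩
    have h2 := card_le_card h1
    have h3 := card_union_le A D
    have h4 : A.card + 4 = 6 := by
      rw [← C.cH hv, hA]
      have g1 : insert w' (insert w (insert x {y})) ⊆ sH G X v := by
        intro u hu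
        simp only [mem_insert, mem_singleton] at hu
        rcases hu with h | h | h | h
        · exact h ▸ hw'
        · exact h ▸ hw
        · exact h ▸ hx
        · exact h ▸ hy
      have g2 : (insert w' (insert w (insert x ({y} : Finset V)))).card = 4 := by
        rw [card_insert_of_notMem, card_insert_of_notMem, card_insert_of_notMem, card_singleton]
        · rw [mem_singleton]
          exact a3.ne
        · rw [mem_insert, mem_singleton]
          rintro (h | h)
          · exact a2.ne h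
          · exact e2' h
        · rw [mem_insert, mem_insert, mem_singleton]
          rintro (h | h | h)
          · exact a1.ne h.symm
          · exact e1 h
          · exact e3 h
      rw [← g2]
      exact card_sdiff_add_card_eq_card g1
    have h5 : D.card = 1 := by
      rw [hD, card_erase_of_mem, card_erase_of_mem, C.dnH hv hx' hn]
      · exact mem_nb.2 ⟨hHY hw', a5⟩
      · exact mem_erase.2 ⟨e3.symm, mem_nb.2 ⟨hHY hy, a4.symm⟩⟩
    omega
  omega

/-- if both neighbours of `w` are in the sphere, then also their other neighbours -/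
theorem c4a {v w w' x x' y : V} (hv : v ∈ X) (hw : w ∈ sH G X v) (hw' : w' ∈ sH G X v)
    (hx : x ∈ sH G X v) (hy : y ∈ sY G X v) (hx' : x' ∈ sY G X v) (a1 : G.Adj w w')
    (a2 : G.Adj w x) (e1 : w' ≠ x) (a3 : G.Adj x y) (e2' : y ≠ w) (a5 : G.Adj w' x')
    (e4 : x' ≠ w) : x' ∈ sH G X v := by
  by_contra hn
  have hHY := C.Hsub (v := v)
  have hYX : sY G X v ⊆ X := sYX
  have ex' : x' ≠ x := fun h => hn (h ▸ hx)
  have ew' : x' ≠ w' := fun h => hn (h ▸ hw')
  have e3 : y ≠ w' := by
    intro h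
    rw [h] at a3
    exact C.tfx a1 a3.symm a2
  have e5 : x' ≠ y := by
    intro h
    refine e4 (C.n4 (hYX hx') (hYX (hHY hw)) (hYX (hHY hw')) (hYX (hHY hx)) e1 a5.symm ?_ a1 a2)
    rw [h]
    exact a3.symm
  have nw : ∀ u ∈ sY G X v, G.Adj w u → u = w' ∨ u = x := fun u hu h =>
    C.nb2 hv hw (hHY hw') (hHY hx) e1 a1 a2 hu h
  have nw' : ∀ u ∈ sY G X v, G.Adj w' u → u = w ∨ u = x' := fun u hu h =>
    C.nb2 hv hw' (hHY hw) hx' e4.symm a1.symm a5 hu h
  have nx : ∀ u ∈ sY G X v, G.Adj x u → u = w ∨ u = y := fun u hu h =>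
    C.nb2 hv hx (hHY hw) hy e2'.symm a2.symm a3 hu h
  -- remove `w`, `w'`, `x`
  have hnbw : nb G (sY G X v) w = {w', x} := by
    ext u
    rw [mem_nb, mem_insert, mem_singleton]
    constructor
    · rintro ⟨h1, h2⟩
      exact nw u h1 h2
    · rintro (h | h)
      · exact ⟨h ▸ hHY hw', h ▸ a1⟩
      · exact ⟨h ▸ hHY hx, h ▸ a2⟩
  have hr := rem1_eq C.H.htf (hHY hw) (by
    rw [hnbw, sum_pair e1, card_pair e1, C.dH hv hw', C.dH hv hx, (C.pY hv).2]
    norm_num)
  rw [hnbw, sum_pair e1, card_pair e1, C.dH hv hw', C.dH hv hx, (C.pY hv).2] at hr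
  obtain ⟨Z, hZ⟩ : ∃ Z, Z = sY G X v \ cl G (sY G X v) w := ⟨_, rfl⟩
  rw [← hZ] at hr
  have mZ : ∀ u, u ∈ Z ↔ u ∈ sY G X v ∧ u ≠ w ∧ u ≠ w' ∧ u ≠ x := by
    intro u
    rw [hZ, mem_sdiff]
    unfold cl
    rw [hnbw, mem_insert, mem_insert, mem_singleton]
    tauto
  have x'Z : x' ∈ Z := (mZ _).2 ⟨hx', e4, ew', ex'⟩
  have yZ : y ∈ Z := (mZ _).2 ⟨hy, e2', e3, a3.ne.symm⟩
  have hTZ : ({x', y} : Finset V) ⊆ Z := by
    intro u hu
    rw [mem_insert, mem_singleton] at hu
    rcases hu with rfl | rfl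
    · exact x'Z
    · exact yZ
  have hp := ppT (G := G) hTZ
  rw [sum_pair e5, card_pair e5] at hp
  have hpn := pp_nonneg C.H.htf (Z \ {x', y})
  -- transversal
  have hal := al_closed (G := G) (Y := sY G X v) (S := insert w (insert w' (insert x {x', y})))
    (J := {w', x}) (by
    intro z hz
    rw [mem_insert, mem_singleton] at hz
    rcases hz with rfl | rfl
    · exact hHY hw'
    · exact hHY hx) (by
    intro z hz
    rw [mem_insert, mem_singleton] at hz
    simp only [mem_insert, mem_singleton]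
    tauto) (indep_pair (C.tfx a1.symm a2)) (by
    intro z hz u hu hzu
    rw [mem_insert, mem_singleton] at hz
    simp only [mem_insert, mem_singleton]
    rcases hz with rfl | rfl
    · rcases nw' u hu hzu with h | h
      · exact Or.inl h
      · exact Or.inr (Or.inr (Or.inr (Or.inl h)))
    · rcases nx u hu hzu with h | h
      · exact Or.inl h
      · exact Or.inr (Or.inr (Or.inr (Or.inr h))))
  rw [card_pair e1] at hal
  have hZS : sY G X v \ insert w (insert w' (insert x {x', y})) = Z \ {x', y} := by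
    ext u
    rw [mem_sdiff, mem_sdiff, mZ]
    simp only [mem_insert, mem_singleton]
    tauto
  rw [hZS] at hal
  have hal' : (al G (Z \ {x', y}) : ℤ) + 1 ≤ al G Z := by
    have : al G (Z \ {x', y}) + 1 ≤ al G Z := by omega
    exact_mod_cast this
  have hpZ : pp G Z = 4 := by
    have := hr.2
    push_cast at this
    linarith
  -- degrees in `Z`
  have g1 : 2 ≤ (nb G Z x').card := by
    have h1 := C.dnH hv hx' hn
    have h2 : nb G (sY G X v) x' ⊆ insert w' (nb G Z x') := by
      intro u hu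
      have hu' := mem_nb.1 hu
      rw [mem_insert]
      by_cases e : u = w'
      · exact Or.inl e
      · refine Or.inr (mem_nb.2 ⟨(mZ u).2 ⟨hu'.1, ?_, e, ?_⟩, hu'.2⟩)
        · intro h
          rw [h] at hu'
          rcases nw x' hx' hu'.2.symm with h3 | h3
          · exact ew' h3
          · exact ex' h3
        · intro h
          rw [h] at hu'
          rcases nx x' hx' hu'.2.symm with h3 | h3
          · exact e4 h3
          · exact e5 h3
    have h3 := card_le_card h2
    have h4 := card_insert_le w' (nb G Z x')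
    omega
  have g2 : (nb G (sY G X v) y).card ≤ (nb G Z y).card + 1 := by
    have h2 : nb G (sY G X v) y ⊆ insert x (nb G Z y) := by
      intro u hu
      have hu' := mem_nb.1 hu
      rw [mem_insert]
      by_cases e : u = x
      · exact Or.inl e
      · refine Or.inr (mem_nb.2 ⟨(mZ u).2 ⟨hu'.1, ?_, ?_, e⟩, hu'.2⟩)
        · intro h
          rw [h] at hu'
          rcases nw y hy hu'.2.symm with h3 | h3
          · exact e3 h3
          · exact a3.ne h3.symm
        · intro h
          rw [h] at hu'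
          rcases nw' y hy hu'.2.symm with h3 | h3
          · exact e2' h3
          · exact e5 h3.symm
    have h3 := card_le_card h2
    have h4 := card_insert_le x (nb G Z y)
    omega
  have g3 := C.dle hv hy
  have g4 := e2_pair (G := G) e5
  by_cases hadj : G.Adj x' y
  · rw [if_pos hadj] at g4
    rw [g4, hpZ] at hp
    push_cast at hp
    have g5 : ((nb G Z x').card : ℤ) + (nb G Z y).card ≤ 3 := by linarith
    have g6 : (nb G Z x').card + (nb G Z y).card ≤ 3 := by exact_mod_cast g5
    have hyH : y ∈ sH G X v := by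
      by_contra h
      have := C.dnH hv hy h
      omega
    exact C.c4b hv hw hw' hx hyH hx' hn a1 a2 a3 hadj.symm a5.symm e1 e2'.symm e3.symm
  · rw [if_neg hadj] at g4
    rw [g4, hpZ] at hp
    push_cast at hp
    have g5 : ((nb G Z x').card : ℤ) + (nb G Z y).card ≤ 2 := by linarith
    have g6 : (nb G Z x').card + (nb G Z y).card ≤ 2 := by exact_mod_cast g5
    omega

/-- the vertices of the sphere with all neighbours in the sphere -/
theorem closedB {v w w' : V} (hv : v ∈ X) (hw : w ∈ sH G X v)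
    (hB : ∀ s ∈ sY G X v, G.Adj w s → s ∈ sH G X v) (hw' : w' ∈ sY G X v) (a1 : G.Adj w w') :
    ∀ s ∈ sY G X v, G.Adj w' s → s ∈ sH G X v := by
  intro s hs hws
  have hHY := C.Hsub (v := v)
  have hw'H := hB w' hw' a1
  by_cases e : s = w
  · rw [e]
    exact hw
  · obtain ⟨x, hx, hxw, a2⟩ := C.oth hv hw hw' a1
    have hxH := hB x hx a2
    obtain ⟨y, hy, hyw, a3⟩ := C.oth hv hxH (hHY hw) a2.symm
    exact C.c4a hv hw hw'H hxH hy hs a1 a2 hxw.symm a3 hyw hws e

/-- a vertex of the sphere has a neighbour in the sphere -/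
theorem PH {v w : V} (hv : v ∈ X) (hw : w ∈ sH G X v) : ∃ s ∈ sH G X v, G.Adj w s := by
  obtain ⟨hwY, a, ha, h1, h2⟩ := mem_sH.1 hw
  have hw' := mem_sY.1 hwY
  obtain ⟨u, hu, b, hb, e1, e2', h3, h4, h5⟩ := C.P hv hw'.1 ha hw'.2.1.symm h1 h2
  refine ⟨u, mem_sH.2 ⟨mem_sY.2 ⟨hu, ?_, ?_⟩, b, hb, h5.symm, h4.symm⟩, h3⟩
  · intro h
    rw [h] at h3
    exact hw'.2.2 h3.symm
  · intro h
    exact C.tfx h h4 h5.symm

/-- no vertex of the sphere has both neighbours in the sphere -/
theorem noB {v w : V} (hv : v ∈ X) (hw : w ∈ sH G X v)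
    (hB : ∀ s ∈ sY G X v, G.Adj w s → s ∈ sH G X v) : False := by
  have hHY := C.Hsub (v := v)
  have hYX : sY G X v ⊆ X := sYX
  obtain ⟨B, hBd⟩ : ∃ B, B = (sH G X v).filter (fun t => nb G (sY G X v) t ⊆ sH G X v) :=
    ⟨_, rfl⟩
  have mB : ∀ t, t ∈ B ↔ t ∈ sH G X v ∧ ∀ s ∈ sY G X v, G.Adj t s → s ∈ sH G X v := by
    intro t
    rw [hBd, mem_filter]
    constructor
    · rintro ⟨h1, h2⟩
      exact ⟨h1, fun s hs h => h2 (mem_nb.2 ⟨hs, h⟩)⟩
    · rintro ⟨h1, h2⟩
      exact ⟨h1, fun s hs => h2 s (mem_nb.1 hs).1 (mem_nb.1 hs).2⟩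
  have hBH : B ⊆ sH G X v := fun t ht => ((mB t).1 ht).1
  have hcl : ∀ t ∈ B, ∀ s ∈ sY G X v, G.Adj t s → s ∈ B := by
    intro t ht s hs hts
    have ht' := (mB t).1 ht
    exact (mB s).2 ⟨ht'.2 s hs hts, C.closedB hv ht'.1 ht'.2 hs hts⟩
  have hwB : w ∈ B := (mB w).2 ⟨hw, hB⟩
  -- at least five elements
  have h5 : 5 ≤ B.card := by
    obtain ⟨w', hw', h1⟩ := C.PH hv hw
    have hw'B := hcl w hwB w' (hHY hw') h1
    obtain ⟨x, hx, hxw, a2⟩ := C.oth hv hw (hHY hw') h1
    have hxB := hcl w hwB x hx a2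
    obtain ⟨y, hy, hyw, a3⟩ := C.oth hv (hBH hxB) (hHY hw) a2.symm
    have hyB := hcl x hxB y hy a3
    obtain ⟨x', hx', hx'w, a5⟩ := C.oth hv hw' (hHY hw) h1.symm
    have hx'B := hcl w' hw'B x' hx' a5
    have e3 : y ≠ w' := by
      intro h
      rw [h] at a3
      exact C.tfx h1 a3.symm a2
    have e6 : x' ≠ x := by
      intro h
      rw [h] at a5
      exact C.tfx h1 a5 a2
    have e5 : x' ≠ y := by
      intro h
      refine hx'w (C.n4 (hYX hx') (hYX (hHY hw)) (hYX (hHY hw')) (hYX hx) hxw.symm a5.symm ?_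
        h1 a2)
      rw [h]
      exact a3.symm
    have hsub : insert w (insert w' (insert x (insert y {x'}))) ⊆ B := by
      intro u hu
      simp only [mem_insert, mem_singleton] at hu
      rcases hu with h | h | h | h | h
      · exact h ▸ hwB
      · exact h ▸ hw'B
      · exact h ▸ hxB
      · exact h ▸ hyB
      · exact h ▸ hx'B
    have hc : (insert w (insert w' (insert x (insert y ({x'} : Finset V))))).card = 5 := by
      rw [card_insert_of_notMem, card_insert_of_notMem, card_insert_of_notMem,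
        card_insert_of_notMem, card_singleton]
      · rw [mem_singleton]
        exact e5.symm
      · rw [mem_insert, mem_singleton]
        rintro (h | h)
        · exact a3.ne h
        · exact e6 h.symm
      · rw [mem_insert, mem_insert, mem_singleton]
        rintro (h | h | h)
        · exact hxw h.symm
        · exact e3 h.symm
        · exact a5.ne h
      · rw [mem_insert, mem_insert, mem_insert, mem_singleton]
        rintro (h | h | h | h)
        · exact h1.ne h
        · exact a2.ne h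
        · exact hyw h.symm
        · exact hx'w h.symm
    rw [← hc]
    exact card_le_card hsub
  -- parity
  have hpar : e2 G (sH G X v) = B.card + 6 := by
    rw [e2_eq]
    have key : ∀ t ∈ sH G X v, (nb G (sH G X v) t).card = (if t ∈ B then 1 else 0) + 1 := by
      intro t ht
      have hsub : nb G (sH G X v) t ⊆ nb G (sY G X v) t := fun z hz =>
        mem_nb.2 ⟨hHY (mem_nb.1 hz).1, (mem_nb.1 hz).2⟩
      have hd := C.dH hv ht
      split_ifs with h
      · have h' := (mB t).1 h
        have h2 : nb G (sY G X v) t ⊆ nb G (sH G X v) t := fun z hz =>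
          mem_nb.2 ⟨h'.2 z (mem_nb.1 hz).1 (mem_nb.1 hz).2, (mem_nb.1 hz).2⟩
        have h3 := card_le_card h2
        have h4 := card_le_card hsub
        omega
      · obtain ⟨s, hs, hts⟩ := C.PH hv ht
        have h2 : 1 ≤ (nb G (sH G X v) t).card := card_pos.2 ⟨s, mem_nb.2 ⟨hs, hts⟩⟩
        have h3 := card_le_card hsub
        have h4 : (nb G (sH G X v) t).card ≠ 2 := by
          intro h4
          apply h
          have h5' := eq_of_subset_of_card_le hsub (by omega)
          refine (mB t).2 ⟨ht, fun s hs hts => ?_⟩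
          have h6 : s ∈ nb G (sY G X v) t := mem_nb.2 ⟨hs, hts⟩
          rw [← h5'] at h6
          exact (mem_nb.1 h6).1
        omega
    rw [sum_congr rfl key, sum_add_distrib, sum_const, C.cH hv, ← card_filter]
    have h2 : (sH G X v).filter (fun t => t ∈ B) = B := by
      ext t
      rw [mem_filter]
      exact ⟨fun h => h.2, fun h => ⟨hBH h, h⟩⟩
    rw [h2]
    simp
  obtain ⟨h, hh⟩ := e2_even (G := G) (sH G X v)
  have hle := card_le_card hBH
  rw [C.cH hv] at hle
  have hB6 : B.card = 6 := by omega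
  have hBe : B = sH G X v := eq_of_subset_of_card_le hBH (by rw [C.cH hv, hB6])
  -- the component
  obtain ⟨K, hK⟩ : ∃ K, K = cl G X v ∪ sH G X v := ⟨_, rfl⟩
  have hclX : cl G X v ⊆ X := by
    intro u hu
    rw [mem_cl] at hu
    rcases hu with h | h
    · exact h ▸ hv
    · exact h.1
  have hKX : K ⊆ X := by
    rw [hK]
    exact union_subset hclX (hHY.trans hYX)
  have hKc : ∀ t ∈ K, ∀ u ∈ X, G.Adj t u → u ∈ K := by
    intro t ht u hu htu
    rw [hK, mem_union] at ht ⊢
    by_cases hul : u ∈ cl G X v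
    · exact Or.inl hul
    · refine Or.inr ?_
      have huY : u ∈ sY G X v := by
        unfold sY
        exact mem_sdiff.2 ⟨hu, hul⟩
      rcases ht with ht | ht
      · rw [mem_cl] at ht
        rcases ht with h | h
        · exfalso
          rw [h] at htu
          exact (mem_sY.1 huY).2.2 htu
        · exact mem_sH.2 ⟨huY, t, h.1, h.2, htu⟩
      · rw [← hBe] at ht ⊢
        exact hcl t ht u huY htu
  have hsep := sep_closed (G := G) (X := X) (C := K) hKc
  have hKu : K ∪ (X \ K) = X := union_sdiff_of_subset hKX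
  have hpp := hsep.pp
  rw [hKu, C.hp] at hpp
  have q1 := pp_nonneg C.H.htf K
  have q2 := pp_nonneg C.H.htf (X \ K)
  have q3 : pp G K = 0 := by linarith
  have hKcard : K.card = 10 := by
    rw [hK, card_union_of_disjoint, C.cH hv]
    · have h1 := card_sdiff_add_card_eq_card hclX
      have h2 := C.cY hv
      unfold sY at h2
      omega
    · rw [disjoint_left]
      intro u hu hu'
      exact (mem_sdiff.1 (hHY hu')).2 hu
  have hKe : e2 G K = 30 := by
    rw [e2_eq]
    have key : ∀ t ∈ K, (nb G K t).card = 3 := by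
      intro t ht
      rw [← C.h3 t (hKX ht)]
      congr 1
      ext u
      rw [mem_nb, mem_nb]
      exact ⟨fun h => ⟨hKX h.1, h.2⟩, fun h => ⟨hKc t ht u h.1 h.2, h.2⟩⟩
    rw [sum_congr rfl key, sum_const, hKcard]
    rfl
  unfold pp at q3
  rw [hKcard, hKe] at q3
  push_cast at q3
  omega

/-- F3b: every path with three vertices lies in at most one cycle of length five -/
theorem c5 {v a w u b u' b' : V} (hv : v ∈ X) (hw : w ∈ X)
    (ha : a ∈ X) (hu : u ∈ X) (hb : b ∈ X) (hu' : u' ∈ X) (hb' : b' ∈ X) (hvw : v ≠ w)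
    (h1 : G.Adj v a) (h2 : G.Adj a w) (_e1 : u ≠ a) (_e2 : u' ≠ a) (h3 : G.Adj w u)
    (h4 : G.Adj u b) (h5 : G.Adj b v) (h3' : G.Adj w u') (h4' : G.Adj u' b')
    (h5' : G.Adj b' v) : u = u' := by
  by_contra hne
  have nvw : ¬ G.Adj v w := C.tfx h1 h2
  have hwY : w ∈ sY G X v := mem_sY.2 ⟨hw, hvw.symm, nvw⟩
  have hwH : w ∈ sH G X v := mem_sH.2 ⟨hwY, a, ha, h1, h2⟩
  have key : ∀ z ∈ X, ∀ d ∈ X, G.Adj w z → G.Adj z d → G.Adj d v → z ∈ sH G X v := by
    intro z hz d hd g1 g2 g3
    refine mem_sH.2 ⟨mem_sY.2 ⟨hz, ?_, ?_⟩, d, hd, g3.symm, g2.symm⟩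
    · intro h
      rw [h] at g1
      exact nvw g1.symm
    · intro h
      exact C.tfx h g2 g3.symm
  have huH := key u hu b hb h3 h4 h5
  have huH' := key u' hu' b' hb' h3' h4' h5'
  have hHY := C.Hsub (v := v)
  refine C.noB hv hwH ?_
  intro s hs hws
  rcases C.nb2 hv hwH (hHY huH) (hHY huH') hne h3 h3' hs hws with h | h
  · rw [h]
    exact huH
  · rw [h]
    exact huH'

end Cub

end Pool.Agent.TwoDens.T3
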