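import Pool.Agent.TKS.Defs

/-!
Cubic triangle-free graphs without 4-cycles in which every path with three vertices lies in exactly
one 5-cycle: they cannot have potential `0` if all potentials are nonnegative.
-/

open Finset

namespace Pool.Agent.TwoDens.T3

open Pool.Agent.TwoDens Pool.Agent.TwoDens.RK Pool.Agent.TwoDens.DD Pool.Agent.TwoDens.TS

variable {V : Type*} [DecidableEq V] {G : SimpleGraph V} [DecidableRel G.Adj]

/-- the closed neighbourhood of a vertex is removed (triangle-free graphs) -/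
theorem t3_drop {X Y : Finset V} (hY : Y ⊆ X)
    (tf : ∀ a ∈ X, ∀ b ∈ X, ∀ c ∈ X, G.Adj a b → G.Adj b c → ¬ G.Adj a c) {v : V} (hv : v ∈ Y) :
    ps G 3 (Y \ insert v (nb G Y v)) + 2 * ((∑ u ∈ nb G Y v, (nb G Y u).card : ℕ) : ℤ) + 10 ≤
      ps G 3 Y + 10 * ((nb G Y v).card : ℤ) := by
  obtain ⟨S, hS⟩ : ∃ S, S = insert v (nb G Y v) := ⟨_, rfl⟩
  have hvn : v ∉ nb G Y v := fun h => G.loopless.irrefl v (mem_nb.1 h).2
  have hSY : S ⊆ Y := by
    rw [hS]
    exact Finset.insert_subset hv (Finset.filter_subset _ _)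
  have h1 := ps_sdiff (G := G) 3 hSY
  have h2 := al_closed (G := G) (Y := Y) (S := S) (J := {v}) (by
    intro z hz
    rw [mem_singleton] at hz
    exact hz ▸ hv) (by
    intro z hz
    rw [mem_singleton] at hz
    rw [hS, hz]
    exact mem_insert_self _ _) (indep_singleton v) (by
    intro z hz w hw hzw
    rw [mem_singleton] at hz
    rw [hS]
    exact mem_insert_of_mem (mem_nb.2 ⟨hw, hz ▸ hzw⟩))
  rw [Finset.card_singleton] at h2
  have h3 : S.card = (nb G Y v).card + 1 := by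
    rw [hS, Finset.card_insert_of_notMem hvn]
  have h4 : ∑ u ∈ S, (nb G Y u).card = (nb G Y v).card + ∑ u ∈ nb G Y v, (nb G Y u).card := by
    rw [hS, Finset.sum_insert hvn]
  have h5 : e2 G S ≤ 2 * (nb G Y v).card := by
    rw [e2_eq, hS, Finset.sum_insert hvn, two_mul]
    refine Nat.add_le_add ?_ ?_
    · refine Finset.card_le_card ?_
      intro z hz
      have hz' := mem_nb.1 hz
      rw [mem_insert] at hz'
      rcases hz'.1 with h | h
      · rw [h] at hz'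
        exact absurd hz'.2 (G.loopless.irrefl v)
      · exact h
    · refine (Finset.sum_le_card_nsmul _ _ 1 fun w hw => ?_).trans (by simp)
      rw [Finset.card_le_one]
      have key : ∀ z ∈ nb G (insert v (nb G Y v)) w, z = v := by
        intro z hz
        have hz' := mem_nb.1 hz
        rw [mem_insert] at hz'
        rcases hz'.1 with h | h
        · exact h
        · exfalso
          have hw' := mem_nb.1 hw
          have hz2 := mem_nb.1 h
          exact tf v (hY hv) w (hY hw'.1) z (hY hz2.1) hw'.2 hz'.2 hz2.2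
      intro z hz t ht
      rw [key z hz, key t ht]
  rw [← hS]
  obtain ⟨D, hD⟩ : ∃ D : ℤ, D = (al G Y : ℤ) - al G (Y \ S) := ⟨_, rfl⟩
  have h6 : (1 : ℤ) ≤ D := by
    have : (al G (Y \ S) : ℤ) + 1 ≤ al G Y := by exact_mod_cast h2
    linarith
  rw [← hD, h3, h4] at h1
  have h7 : (e2 G S : ℤ) ≤ 2 * (nb G Y v).card := by exact_mod_cast h5
  push_cast at h1 ⊢
  linarith

/-- the local situation in the cubic case -/
structure Cub3 (G : SimpleGraph V) [DecidableRel G.Adj] (X : Finset V) : Prop where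
  tf : ∀ a ∈ X, ∀ b ∈ X, ∀ c ∈ X, G.Adj a b → G.Adj b c → ¬ G.Adj a c
  deg : ∀ v ∈ X, (nb G X v).card = 3
  p0 : ps G 3 X = 0
  rk : ∀ Y ⊆ X, 0 ≤ ps G 3 Y
  c2 : ∀ v ∈ X, ∀ w ∈ X, v ≠ w → ∀ a ∈ X, ∀ b ∈ X, a ≠ b → G.Adj v a → G.Adj v b →
    G.Adj w a → ¬ G.Adj w b
  c5 : ∀ v ∈ X, ∀ a ∈ X, ∀ w ∈ X, v ≠ w → G.Adj v a → G.Adj a w → ∀ u ∈ X, ∀ u' ∈ X, u ≠ a →
    u' ≠ a → u ≠ u' → G.Adj w u → G.Adj w u' →
    ((∃ b ∈ X, G.Adj v b ∧ G.Adj b u) ↔ ¬ ∃ b ∈ X, G.Adj v b ∧ G.Adj b u')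

/-- a 5-cycle with the third neighbours of its vertices -/
structure Pn5 (G : SimpleGraph V) (X : Finset V) (c n : Fin 5 → V) : Prop where
  cX : ∀ i, c i ∈ X
  nX : ∀ i, n i ∈ X
  cc : ∀ i, G.Adj (c i) (c (i + 1))
  cn : ∀ i, G.Adj (c i) (n i)
  n1 : ∀ i, n i ≠ c (i + 1)
  n4 : ∀ i, n i ≠ c (i + 4)
  ci : ∀ i j, i ≠ j → c i ≠ c j

/-- a vertex of degree three with three known neighbours -/
theorem three_of {X : Finset V} {v a b d : V} (h : (nb G X v).card = 3) (ha : a ∈ nb G X v)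
    (hb : b ∈ nb G X v) (hd : d ∈ nb G X v) (hab : a ≠ b) (had : a ≠ d) (hbd : b ≠ d) {w : V}
    (hw : w ∈ X) (hvw : G.Adj v w) : w = a ∨ w = b ∨ w = d := by
  have h1 : ({a, b, d} : Finset V) ⊆ nb G X v := by
    intro z hz
    rw [mem_insert, mem_insert, mem_singleton] at hz
    rcases hz with rfl | rfl | rfl
    · exact ha
    · exact hb
    · exact hd
  have h2 : ({a, b, d} : Finset V).card = 3 := by
    rw [Finset.card_insert_of_notMem, Finset.card_pair hbd]
    rw [mem_insert, mem_singleton]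
    rintro (e | e)
    · exact hab e
    · exact had e
  have h3 := Finset.eq_of_subset_of_card_le h1 (by omega)
  have h4 : w ∈ nb G X v := mem_nb.2 ⟨hw, hvw⟩
  rw [← h3, mem_insert, mem_insert, mem_singleton] at h4
  exact h4

theorem dist5 : ∀ i j : Fin 5, i ≠ j → j = i + 1 ∨ j = i + 2 ∨ i = j + 1 ∨ i = j + 2 := by
  decide

theorem five1 : ∀ i : Fin 5, i + 4 + 1 = i := by decide
theorem five2 : ∀ i : Fin 5, i + 1 + 4 = i := by decide
theorem five3 : ∀ i : Fin 5, i + 1 + 1 = i + 2 := by decide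
theorem five4 : ∀ i : Fin 5, i + 2 + 1 = i + 3 := by decide
theorem five5 : ∀ i : Fin 5, i + 3 + 1 = i + 4 := by decide

namespace Pn5
variable {X : Finset V} {c n : Fin 5 → V}

omit [DecidableEq V] [DecidableRel G.Adj] in
theorem c4 (P : Pn5 G X c n) (i : Fin 5) : G.Adj (c i) (c (i + 4)) := by
  have h := P.cc (i + 4)
  rw [five1] at h
  exact h.symm

theorem nbC (D : Cub3 G X) (P : Pn5 G X c n) (i : Fin 5) {v : V} (hv : v ∈ X)
    (h : G.Adj (c i) v) : v = c (i + 1) ∨ v = c (i + 4) ∨ v = n i :=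
  three_of (D.deg _ (P.cX i)) (mem_nb.2 ⟨P.cX _, P.cc i⟩) (mem_nb.2 ⟨P.cX _, P.c4 i⟩)
    (mem_nb.2 ⟨P.nX i, P.cn i⟩) (P.ci _ _ (by clear * -; revert i; decide)) (P.n1 i).symm (P.n4 i).symm hv h

/-- two vertices of the cycle are adjacent only if they are consecutive -/
theorem cadj (D : Cub3 G X) (P : Pn5 G X c n) (i j : Fin 5) (h : G.Adj (c i) (c j)) :
    j = i + 1 ∨ j = i + 4 := by
  by_contra hcon
  push Not at hcon
  have hij : i ≠ j := fun e => G.loopless.irrefl (c i) (by rw [e] at h ⊢; exact h)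
  rcases dist5 i j hij with e | e | e | e
  · exact hcon.1 e
  · refine D.tf (c i) (P.cX _) (c (i + 1)) (P.cX _) (c j) (P.cX _) (P.cc i) ?_ h
    rw [e, ← five3]
    exact P.cc _
  · refine hcon.2 ?_
    rw [e, five2]
  · refine D.tf (c j) (P.cX _) (c (j + 1)) (P.cX _) (c i) (P.cX _) (P.cc j) ?_ h.symm
    rw [e, ← five3]
    exact P.cc _

theorem nC (D : Cub3 G X) (P : Pn5 G X c n) (i j : Fin 5) : n i ≠ c j := by
  intro e
  have h := P.cn i
  rw [e] at h
  rcases P.cadj D i j h with h1 | h1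
  · exact P.n1 i (by rw [e, h1])
  · exact P.n4 i (by rw [e, h1])

theorem nn (D : Cub3 G X) (P : Pn5 G X c n) (i j : Fin 5) (hij : i ≠ j) : n i ≠ n j := by
  have key1 : ∀ i, n i ≠ n (i + 1) := by
    intro i e
    refine D.tf (n i) (P.nX _) (c i) (P.cX _) (c (i + 1)) (P.cX _) (P.cn i).symm (P.cc i) ?_
    rw [e]
    exact (P.cn (i + 1)).symm
  have key2 : ∀ i, n i ≠ n (i + 2) := by
    intro i e
    refine D.c2 (c i) (P.cX _) (c (i + 2)) (P.cX _) (P.ci _ _ (by clear * -; revert i; decide)) (c (i + 1))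
      (P.cX _) (n i) (P.nX _) (P.nC D _ _).symm (P.cc i) (P.cn i) ?_ ?_
    · rw [← five3]
      exact (P.cc _).symm
    · rw [e]
      exact P.cn _
  rcases dist5 i j hij with e | e | e | e
  · rw [e]; exact key1 i
  · rw [e]; exact key2 i
  · rw [e]; exact (key1 j).symm
  · rw [e]; exact (key2 j).symm

/-- the third neighbours are pairwise nonadjacent -/
theorem nnA (D : Cub3 G X) (P : Pn5 G X c n) (i j : Fin 5) : ¬ G.Adj (n i) (n j) := by
  have key1 : ∀ i, ¬ G.Adj (n i) (n (i + 1)) := by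
    intro i h
    exact D.c2 (c i) (P.cX _) (n (i + 1)) (P.nX _) (P.nC D _ _).symm (c (i + 1)) (P.cX _) (n i)
      (P.nX _) (P.nC D _ _).symm (P.cc i) (P.cn i) (P.cn (i + 1)).symm h.symm
  have key2 : ∀ i, ¬ G.Adj (n i) (n (i + 2)) := by
    intro i h
    have h1 := D.c5 (c i) (P.cX _) (c (i + 1)) (P.cX _) (c (i + 2)) (P.cX _)
      (P.ci _ _ (by clear * -; revert i; decide)) (P.cc i) (by rw [← five3]; exact P.cc _) (c (i + 3))
      (P.cX _) (n (i + 2)) (P.nX _) (P.ci _ _ (by clear * -; revert i; decide)) (P.nC D _ _)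
      (P.nC D _ _).symm (by rw [← five4]; exact P.cc _) (P.cn _)
    exact h1.1 ⟨c (i + 4), P.cX _, P.c4 i, by rw [← five5]; exact (P.cc _).symm⟩
      ⟨n i, P.nX _, P.cn i, h⟩
  intro h
  by_cases hij : i = j
  · rw [hij] at h
    exact G.loopless.irrefl _ h
  · rcases dist5 i j hij with e | e | e | e
    · rw [e] at h; exact key1 i h
    · rw [e] at h; exact key2 i h
    · rw [e] at h; exact key1 j h.symm
    · rw [e] at h; exact key2 j h.symm

/-- consecutive third neighbours have a common neighbour -/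
theorem exm (D : Cub3 G X) (P : Pn5 G X c n) (i : Fin 5) :
    ∃ m ∈ X, G.Adj (n i) m ∧ G.Adj m (n (i + 1)) := by
  by_contra hcon
  have h1 := D.c5 (n i) (P.nX _) (c i) (P.cX _) (c (i + 1)) (P.cX _) (P.nC D _ _)
    (P.cn i).symm (P.cc i) (c (i + 2)) (P.cX _) (n (i + 1)) (P.nX _)
    (P.ci _ _ (by clear * -; revert i; decide)) (P.nC D _ _) (P.nC D _ _).symm
    (by rw [← five3]; exact P.cc _) (P.cn _)
  obtain ⟨b, hb, h2, h3⟩ := h1.2 hcon
  rcases P.nbC D (i + 2) hb h3.symm with e | e | e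
  · have h4 := P.nbC D (i + 2 + 1) (P.nX i) (by rw [← e]; exact h2.symm)
    rcases h4 with h4 | h4 | h4
    · exact P.nC D _ _ h4
    · exact P.nC D _ _ h4
    · exact P.nn D _ _ (by clear * -; revert i; decide) h4
  · have h4 := P.nbC D (i + 2 + 4) (P.nX i) (by rw [← e]; exact h2.symm)
    rcases h4 with h4 | h4 | h4
    · exact P.nC D _ _ h4
    · exact P.nC D _ _ h4
    · exact P.nn D _ _ (by clear * -; revert i; decide) h4
  · rw [e] at h2
    exact P.nnA D _ _ h2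

end Pn5

/-- a 5-cycle, its third neighbours and their common neighbours -/
structure Pm5 (G : SimpleGraph V) (X : Finset V) (c n m : Fin 5 → V) : Prop extends
    Pn5 G X c n where
  mX : ∀ i, m i ∈ X
  nm : ∀ i, G.Adj (n i) (m i)
  mn : ∀ i, G.Adj (m i) (n (i + 1))

namespace Pm5
variable {X : Finset V} {c n m : Fin 5 → V}

theorem mC (D : Cub3 G X) (P : Pm5 G X c n m) (i j : Fin 5) : m i ≠ c j := by
  intro e
  have h1 := P.toPn5.nbC D j (P.nX i) (by rw [← e]; exact (P.nm i).symm)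
  have h2 := P.toPn5.nbC D j (P.nX (i + 1)) (by rw [← e]; exact P.mn i)
  rcases h1 with h1 | h1 | h1
  · exact P.toPn5.nC D _ _ h1
  · exact P.toPn5.nC D _ _ h1
  · rcases h2 with h2 | h2 | h2
    · exact P.toPn5.nC D _ _ h2
    · exact P.toPn5.nC D _ _ h2
    · exact P.toPn5.nn D i (i + 1) (by clear * -; revert i; decide) (h1.trans h2.symm)

theorem mN (D : Cub3 G X) (P : Pm5 G X c n m) (i j : Fin 5) : m i ≠ n j := by
  intro e
  have h := P.nm i
  rw [e] at h
  exact P.toPn5.nnA D _ _ h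

theorem mm (D : Cub3 G X) (P : Pm5 G X c n m) (i j : Fin 5) (hij : i ≠ j) : m i ≠ m j := by
  have key1 : ∀ i, m i ≠ m (i + 1) := by
    intro i e
    have h1 := D.c5 (c (i + 1)) (P.cX _) (n (i + 1)) (P.nX _) (m i) (P.mX _)
      (P.mC D _ _).symm (P.cn _) (P.mn i).symm (n i) (P.nX _) (n (i + 2)) (P.nX _)
      (P.toPn5.nn D _ _ (by clear * -; revert i; decide)) (P.toPn5.nn D _ _ (by clear * -; revert i; decide))
      (P.toPn5.nn D _ _ (by clear * -; revert i; decide)) (P.nm i).symm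
      (by rw [e, ← five3]; exact P.mn _)
    exact h1.1 ⟨c i, P.cX _, (P.cc i).symm, P.cn i⟩
      ⟨c (i + 2), P.cX _, by rw [← five3]; exact P.cc _, P.cn _⟩
  have key2 : ∀ i, m i ≠ m (i + 2) := by
    intro i e
    have h1 := three_of (D.deg _ (P.mX i)) (mem_nb.2 ⟨P.nX i, (P.nm i).symm⟩)
      (mem_nb.2 ⟨P.nX (i + 1), P.mn i⟩)
      (mem_nb.2 ⟨P.nX (i + 2), by rw [e]; exact (P.nm _).symm⟩)
      (P.toPn5.nn D _ _ (by clear * -; revert i; decide)) (P.toPn5.nn D _ _ (by clear * -; revert i; decide))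
      (P.toPn5.nn D _ _ (by clear * -; revert i; decide)) (P.nX (i + 3))
      (by rw [e, ← five4]; exact P.mn _)
    rcases h1 with h1 | h1 | h1
    · exact P.toPn5.nn D _ _ (by clear * -; revert i; decide) h1
    · exact P.toPn5.nn D _ _ (by clear * -; revert i; decide) h1
    · exact P.toPn5.nn D _ _ (by clear * -; revert i; decide) h1
  rcases dist5 i j hij with e | e | e | e
  · rw [e]; exact key1 i
  · rw [e]; exact key2 i
  · rw [e]; exact (key1 j).symm
  · rw [e]; exact (key2 j).symm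

omit [DecidableEq V] [DecidableRel G.Adj] in
theorem m4 (P : Pm5 G X c n m) (i : Fin 5) : G.Adj (n i) (m (i + 4)) := by
  have h := P.mn (i + 4)
  rw [five1] at h
  exact h.symm

theorem nbN (D : Cub3 G X) (P : Pm5 G X c n m) (i : Fin 5) {v : V} (hv : v ∈ X)
    (h : G.Adj (n i) v) : v = c i ∨ v = m i ∨ v = m (i + 4) :=
  three_of (D.deg _ (P.nX i)) (mem_nb.2 ⟨P.cX _, (P.cn i).symm⟩) (mem_nb.2 ⟨P.mX _, P.nm i⟩)
    (mem_nb.2 ⟨P.mX _, P.m4 i⟩) (P.mC D _ _).symm (P.mC D _ _).symm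
    (P.mm D _ _ (by clear * -; revert i; decide)) hv h

/-- the set that is removed -/
def R (c n : Fin 5 → V) (j : Fin 5) : Finset V :=
  insert (n (j + 1)) (insert (n (j + 3)) (Finset.univ.image c))

omit [DecidableRel G.Adj] in
theorem memR {c n : Fin 5 → V} {j : Fin 5} {v : V} :
    v ∈ R c n j ↔ v = n (j + 1) ∨ v = n (j + 3) ∨ ∃ i, c i = v := by
  unfold R
  rw [mem_insert, mem_insert, mem_image]
  simp

theorem nR1 (D : Cub3 G X) (P : Pm5 G X c n m) (j : Fin 5) :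
    n (j + 1) ∉ insert (n (j + 3)) (Finset.univ.image c) := by
  rw [mem_insert, mem_image]
  rintro (h | ⟨i, -, h⟩)
  · exact P.toPn5.nn D _ _ (by clear * -; revert j; decide) h
  · exact P.toPn5.nC D _ _ h.symm

theorem nR2 (D : Cub3 G X) (P : Pm5 G X c n m) (j : Fin 5) :
    n (j + 3) ∉ Finset.univ.image c := by
  rw [mem_image]
  rintro ⟨i, -, h⟩
  exact P.toPn5.nC D _ _ h.symm

omit [DecidableEq V] [DecidableRel G.Adj] in
theorem cinj (P : Pm5 G X c n m) : Function.Injective c := by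
  intro i j h
  by_contra hij
  exact P.ci _ _ hij h

theorem cardR (D : Cub3 G X) (P : Pm5 G X c n m) (j : Fin 5) : (R c n j).card = 7 := by
  unfold R
  rw [Finset.card_insert_of_notMem (P.nR1 D j), Finset.card_insert_of_notMem (P.nR2 D j),
    Finset.card_image_of_injective _ P.cinj]
  simp

omit [DecidableRel G.Adj] in
theorem RX (P : Pm5 G X c n m) (j : Fin 5) : R c n j ⊆ X := by
  intro v hv
  rw [memR] at hv
  rcases hv with h | h | ⟨i, h⟩
  · exact h ▸ P.nX _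
  · exact h ▸ P.nX _
  · exact h ▸ P.cX _

theorem mnotR (D : Cub3 G X) (P : Pm5 G X c n m) (i j : Fin 5) : m i ∉ R c n j := by
  rw [memR]
  rintro (h | h | ⟨t, h⟩)
  · exact P.mN D _ _ h
  · exact P.mN D _ _ h
  · exact P.mC D _ _ h.symm

theorem nnotR (D : Cub3 G X) (P : Pm5 G X c n m) (i j : Fin 5) (h1 : i ≠ j + 1)
    (h3 : i ≠ j + 3) : n i ∉ R c n j := by
  rw [memR]
  rintro (h | h | ⟨t, h⟩)
  · exact P.toPn5.nn D _ _ h1 h
  · exact P.toPn5.nn D _ _ h3 h
  · exact P.toPn5.nC D _ _ h.symm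

theorem inj_m (D : Cub3 G X) (P : Pm5 G X c n m) {i j : Fin 5} (h : m i = m j) : i = j := by
  by_contra hij
  exact P.mm D _ _ hij h

/-- the vertices of `R` adjacent to `m i` -/
theorem mR (D : Cub3 G X) (P : Pm5 G X c n m) (i j : Fin 5) {v : V} (hv : v ∈ R c n j)
    (h : G.Adj (m i) v) : (v = n (j + 1) ∧ (i = j + 1 ∨ i = j)) ∨
      (v = n (j + 3) ∧ (i = j + 3 ∨ i = j + 2)) := by
  rw [memR] at hv
  have e1 : ∀ j : Fin 5, j + 1 + 4 = j := by decide
  have e2 : ∀ j : Fin 5, j + 3 + 4 = j + 2 := by decide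
  rcases hv with e | e | ⟨t, e⟩
  · refine Or.inl ⟨e, ?_⟩
    rw [e] at h
    rcases P.nbN D (j + 1) (P.mX i) h.symm with h1 | h1 | h1
    · exact absurd h1 (P.mC D _ _)
    · exact Or.inl (P.inj_m D h1)
    · rw [e1] at h1
      exact Or.inr (P.inj_m D h1)
  · refine Or.inr ⟨e, ?_⟩
    rw [e] at h
    rcases P.nbN D (j + 3) (P.mX i) h.symm with h1 | h1 | h1
    · exact absurd h1 (P.mC D _ _)
    · exact Or.inl (P.inj_m D h1)
    · rw [e2] at h1
      exact Or.inr (P.inj_m D h1)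
  · exfalso
    rw [← e] at h
    rcases P.toPn5.nbC D t (P.mX i) h.symm with h1 | h1 | h1
    · exact P.mC D _ _ h1
    · exact P.mC D _ _ h1
    · exact P.mN D _ _ h1

omit [DecidableRel G.Adj] in
theorem two_le {S : Finset V} {a b : V} (ha : a ∈ S) (hb : b ∈ S) (hab : a ≠ b) :
    2 ≤ S.card := by
  rw [← Finset.card_pair hab]
  refine Finset.card_le_card ?_
  intro z hz
  rw [mem_insert, mem_singleton] at hz
  rcases hz with rfl | rfl
  · exact ha
  · exact hb

theorem bdR (D : Cub3 G X) (P : Pm5 G X c n m) (j : Fin 5) : 7 ≤ bd G X (R c n j) := by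
  obtain ⟨f, hf⟩ : ∃ f : V → ℕ, f = fun v => (nb G X v \ R c n j).card := ⟨_, rfl⟩
  have h0 : bd G X (R c n j) = ∑ v ∈ R c n j, f v := by rw [hf]; rfl
  have h1 : ∑ v ∈ R c n j, f v = f (n (j + 1)) + (f (n (j + 3)) + ∑ i, f (c i)) := by
    unfold R
    rw [Finset.sum_insert (P.nR1 D j), Finset.sum_insert (P.nR2 D j),
      Finset.sum_image (fun a _ b _ h => P.cinj h)]
  have e1 : ∀ j : Fin 5, j + 1 + 4 = j := by decide
  have e2 : ∀ j : Fin 5, j + 3 + 4 = j + 2 := by decide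
  have h2 : 2 ≤ f (n (j + 1)) := by
    rw [hf]
    have h := P.m4 (j + 1)
    rw [e1] at h
    exact two_le (mem_sdiff.2 ⟨mem_nb.2 ⟨P.mX (j + 1), P.nm _⟩, P.mnotR D _ _⟩)
      (mem_sdiff.2 ⟨mem_nb.2 ⟨P.mX j, h⟩, P.mnotR D _ _⟩)
      (P.mm D _ _ (by clear * -; revert j; decide))
  have h3 : 2 ≤ f (n (j + 3)) := by
    rw [hf]
    have h := P.m4 (j + 3)
    rw [e2] at h
    exact two_le (mem_sdiff.2 ⟨mem_nb.2 ⟨P.mX (j + 3), P.nm _⟩, P.mnotR D _ _⟩)
      (mem_sdiff.2 ⟨mem_nb.2 ⟨P.mX (j + 2), h⟩, P.mnotR D _ _⟩)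
      (P.mm D _ _ (by clear * -; revert j; decide))
  have h4 : (∑ i : Fin 5, (if i = j + 1 ∨ i = j + 3 then 0 else 1)) ≤ ∑ i, f (c i) := by
    refine Finset.sum_le_sum fun i _ => ?_
    split_ifs with h
    · exact Nat.zero_le _
    · push Not at h
      rw [hf]
      exact Finset.card_pos.2 ⟨n i, mem_sdiff.2 ⟨mem_nb.2 ⟨P.nX i, P.cn i⟩,
        P.nnotR D _ _ h.1 h.2⟩⟩
  have h5 : ∀ j : Fin 5, (∑ i : Fin 5, (if i = j + 1 ∨ i = j + 3 then 0 else 1)) = 3 := by
    decide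
  rw [h5 j] at h4
  omega

theorem psR (D : Cub3 G X) (P : Pm5 G X c n m) (j : Fin 5) : ps G 3 (X \ R c n j) ≤ 2 := by
  have h1 := ps_sdiff (G := G) 3 (P.RX j)
  have h2 := sum_deg' (G := G) (P.RX j)
  have h3 := P.bdR D j
  have h4 : ∑ v ∈ R c n j, (nb G X v).card = 21 := by
    rw [Finset.sum_congr rfl (fun v hv => D.deg v (P.RX j hv)), Finset.sum_const, P.cardR D j]
    rfl
  have h5 : e2 G (R c n j) ≤ 14 := by omega
  have hne : c (j + 1) ≠ c (j + 3) := P.ci _ _ (by clear * -; revert j; decide)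
  have h6 := al_closed (G := G) (Y := X) (S := R c n j) (J := {c (j + 1), c (j + 3)}) (by
    intro z hz
    rw [mem_insert, mem_singleton] at hz
    rcases hz with rfl | rfl
    · exact P.cX _
    · exact P.cX _) (by
    intro z hz
    rw [mem_insert, mem_singleton] at hz
    rcases hz with rfl | rfl
    · exact memR.2 (Or.inr (Or.inr ⟨_, rfl⟩))
    · exact memR.2 (Or.inr (Or.inr ⟨_, rfl⟩))) (indep_pair (fun h => by
      rcases P.toPn5.cadj D _ _ h with h7 | h7
      · revert h7; clear * -; revert j; decide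
      · revert h7; clear * -; revert j; decide)) (by
    intro z hz w hw hzw
    rw [mem_insert, mem_singleton] at hz
    rw [memR]
    rcases hz with rfl | rfl
    · rcases P.toPn5.nbC D _ hw hzw with h7 | h7 | h7
      · exact Or.inr (Or.inr ⟨_, h7.symm⟩)
      · exact Or.inr (Or.inr ⟨_, h7.symm⟩)
      · exact Or.inl h7
    · rcases P.toPn5.nbC D _ hw hzw with h7 | h7 | h7
      · exact Or.inr (Or.inr ⟨_, h7.symm⟩)
      · exact Or.inr (Or.inr ⟨_, h7.symm⟩)
      · exact Or.inr (Or.inl h7))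
  rw [Finset.card_pair hne] at h6
  rw [h4, P.cardR D j, D.p0] at h1
  have h7 : (e2 G (R c n j) : ℤ) ≤ 14 := by exact_mod_cast h5
  have h8 : (al G (X \ R c n j) : ℤ) + 2 ≤ al G X := by exact_mod_cast h6
  push_cast at h1
  linarith

/-- consecutive but one `m` are adjacent -/
theorem mstep (D : Cub3 G X) (P : Pm5 G X c n m) (j : Fin 5) : G.Adj (m j) (m (j + 3)) := by
  obtain ⟨Z, hZ⟩ : ∃ Z, Z = X \ R c n j := ⟨_, rfl⟩
  have hZX : Z ⊆ X := by rw [hZ]; exact Finset.sdiff_subset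
  have mZ : ∀ v, v ∈ Z ↔ v ∈ X ∧ v ∉ R c n j := fun v => by rw [hZ, mem_sdiff]
  have hpZ : ps G 3 Z ≤ 2 := by rw [hZ]; exact P.psR D j
  have e3 : ∀ j : Fin 5, j + 4 + 4 = j + 3 := by decide
  have mZm : ∀ i, m i ∈ Z := fun i => (mZ _).2 ⟨P.mX i, P.mnotR D i j⟩
  have n4Z : n (j + 4) ∈ Z := (mZ _).2 ⟨P.nX _, P.nnotR D _ _ (by clear * -; revert j; decide)
    (by clear * -; revert j; decide)⟩
  have h4m : G.Adj (n (j + 4)) (m (j + 3)) := by
    have h := P.m4 (j + 4)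
    rwa [e3] at h
  have hmm : m (j + 3) ≠ m (j + 4) := P.mm D _ _ (by clear * -; revert j; decide)
  -- the neighbours of `n (j + 4)` in `Z`
  have nb4 : nb G Z (n (j + 4)) = {m (j + 3), m (j + 4)} := by
    ext v
    rw [mem_nb, mem_insert, mem_singleton]
    constructor
    · rintro ⟨h1, h2⟩
      have h1' := (mZ v).1 h1
      rcases P.nbN D (j + 4) h1'.1 h2 with h | h | h
      · exact absurd (memR.2 (Or.inr (Or.inr ⟨_, h.symm⟩))) h1'.2
      · exact Or.inr h
      · rw [e3] at h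
        exact Or.inl h
    · rintro (h | h)
      · exact ⟨h ▸ mZm _, h ▸ h4m⟩
      · exact ⟨h ▸ mZm _, h ▸ P.nm _⟩
  have d1 : 3 ≤ (nb G Z (m (j + 4))).card := by
    rw [← D.deg (m (j + 4)) (P.mX _)]
    refine Finset.card_le_card ?_
    intro v hv
    have hv' := mem_nb.1 hv
    refine mem_nb.2 ⟨(mZ v).2 ⟨hv'.1, fun hR => ?_⟩, hv'.2⟩
    rcases P.mR D _ _ hR hv'.2 with ⟨-, h | h⟩ | ⟨-, h | h⟩ <;>
      (revert h; clear * -; revert j; decide)
  have d2 : 2 ≤ (nb G Z (m (j + 3))).card := by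
    have h1 : (nb G X (m (j + 3))).erase (n (j + 3)) ⊆ nb G Z (m (j + 3)) := by
      intro v hv
      rw [mem_erase] at hv
      have hv' := mem_nb.1 hv.2
      refine mem_nb.2 ⟨(mZ v).2 ⟨hv'.1, fun hR => ?_⟩, hv'.2⟩
      rcases P.mR D _ _ hR hv'.2 with ⟨-, h⟩ | ⟨h, -⟩
      · revert h
        clear * -
        revert j
        decide
      · exact hv.1 h
    have h2 := Finset.card_le_card h1
    have h3 := Finset.pred_card_le_card_erase (s := nb G X (m (j + 3))) (a := n (j + 3))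
    have h4 := D.deg (m (j + 3)) (P.mX _)
    omega
  have s1 := t3_drop (G := G) hZX D.tf n4Z
  rw [nb4, Finset.sum_pair hmm, Finset.card_pair hmm] at s1
  obtain ⟨Z', hZ'⟩ : ∃ Z', Z' = Z \ insert (n (j + 4)) {m (j + 3), m (j + 4)} := ⟨_, rfl⟩
  rw [← hZ'] at s1
  have hpZ' : ps G 3 Z' ≤ 2 := by
    have g1 : (3 : ℤ) ≤ (nb G Z (m (j + 4))).card := by exact_mod_cast d1
    have g2 : (2 : ℤ) ≤ (nb G Z (m (j + 3))).card := by exact_mod_cast d2
    push_cast at s1
    linarith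
  have mZ' : ∀ v, v ∈ Z' ↔ v ∈ Z ∧ v ≠ n (j + 4) ∧ v ≠ m (j + 3) ∧ v ≠ m (j + 4) := by
    intro v
    rw [hZ', mem_sdiff, mem_insert, mem_insert, mem_singleton]
    tauto
  have hZ'X : Z' ⊆ X := fun v hv => hZX ((mZ' v).1 hv).1
  have mjZ : m j ∈ Z' := (mZ' _).2 ⟨mZm j, P.mN D _ _, P.mm D _ _ (by clear * -; revert j; decide),
    P.mm D _ _ (by clear * -; revert j; decide)⟩
  have njZ : n j ∈ Z' := (mZ' _).2 ⟨(mZ _).2 ⟨P.nX _, P.nnotR D _ _
    (by clear * -; revert j; decide) (by clear * -; revert j; decide)⟩,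
    P.toPn5.nn D _ _ (by clear * -; revert j; decide), (P.mN D _ _).symm, (P.mN D _ _).symm⟩
  have nbj : nb G Z' (n j) = {m j} := by
    ext v
    rw [mem_nb, mem_singleton]
    constructor
    · rintro ⟨h1, h2⟩
      have h1' := (mZ' v).1 h1
      have h1'' := (mZ v).1 h1'.1
      rcases P.nbN D j h1''.1 h2 with h | h | h
      · exact absurd (memR.2 (Or.inr (Or.inr ⟨_, h.symm⟩))) h1''.2
      · exact h
      · exact absurd h h1'.2.2.2
    · intro h
      exact ⟨h ▸ mjZ, h ▸ P.nm j⟩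
  have s2 := t3_drop (G := G) hZ'X D.tf njZ
  rw [nbj, Finset.sum_singleton, Finset.card_singleton] at s2
  have s3 := D.rk (Z' \ insert (n j) {m j}) (Finset.sdiff_subset.trans hZ'X)
  have d3 : (nb G Z' (m j)).card ≤ 1 := by
    have : ((nb G Z' (m j)).card : ℤ) ≤ 1 := by
      push_cast at s2
      linarith
    exact_mod_cast this
  -- the third neighbour of `m j`
  obtain ⟨q, hq, hq1, hq2⟩ : ∃ q ∈ nb G X (m j), q ≠ n j ∧ q ≠ n (j + 1) := by
    have h1 := Finset.pred_card_le_card_erase (s := nb G X (m j)) (a := n j)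
    have h2 := Finset.pred_card_le_card_erase (s := (nb G X (m j)).erase (n j)) (a := n (j + 1))
    have h3 := D.deg (m j) (P.mX _)
    obtain ⟨q, hq⟩ := Finset.card_pos.1
      (by omega : 0 < (((nb G X (m j)).erase (n j)).erase (n (j + 1))).card)
    rw [mem_erase, mem_erase] at hq
    exact ⟨q, hq.2.2, hq.2.1, hq.1⟩
  have hq' := mem_nb.1 hq
  have hqZ : q ∉ Z' := by
    intro h
    have := two_le (mem_nb.2 ⟨h, hq'.2⟩) (mem_nb.2 ⟨njZ, (P.nm j).symm⟩) hq1
    omega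
  have hqR : q ∉ R c n j := by
    intro h
    rcases P.mR D _ _ h hq'.2 with ⟨h, -⟩ | ⟨-, h⟩
    · exact hq2 h
    · revert h
      clear * -
      revert j
      decide
  have hqZ2 : q ∈ Z := (mZ q).2 ⟨hq'.1, hqR⟩
  by_cases e1 : q = n (j + 4)
  · exfalso
    rw [e1] at hq'
    rcases P.nbN D _ (P.mX j) hq'.2.symm with h | h | h
    · exact P.mC D _ _ h
    · exact P.mm D _ _ (by clear * -; revert j; decide) h
    · exact P.mm D _ _ (by clear * -; revert j; decide) h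
  · by_cases e2 : q = m (j + 3)
    · rw [← e2]
      exact hq'.2
    · by_cases e4 : q = m (j + 4)
      · exfalso
        rw [e4] at hq'
        exact D.tf (m j) (P.mX _) (n j) (P.nX _) (m (j + 4)) (P.mX _) (P.nm j).symm (P.m4 j) hq'.2
      · exact absurd ((mZ' q).2 ⟨hqZ2, e1, e2, e4⟩) hqZ

theorem false (D : Cub3 G X) (P : Pm5 G X c n m) : False := by
  have e : ∀ j : Fin 5, j + 2 + 3 = j := by decide
  have h1 := P.mstep D (0 + 2)
  rw [e] at h1
  have h2 := three_of (D.deg _ (P.mX 0)) (mem_nb.2 ⟨P.nX 0, (P.nm 0).symm⟩)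
    (mem_nb.2 ⟨P.nX (0 + 1), P.mn 0⟩) (mem_nb.2 ⟨P.mX (0 + 3), P.mstep D 0⟩)
    (P.toPn5.nn D _ _ (by decide)) (P.mN D _ _).symm (P.mN D _ _).symm (P.mX (0 + 2)) h1.symm
  rcases h2 with h | h | h
  · exact P.mN D _ _ h
  · exact P.mN D _ _ h
  · exact P.mm D _ _ (by decide) h

end Pm5

/-- the third neighbours of a 5-cycle exist -/
theorem Pn5.ex {X : Finset V} (D : Cub3 G X) {c : Fin 5 → V} (cX : ∀ i, c i ∈ X)
    (cc : ∀ i, G.Adj (c i) (c (i + 1))) (ci : ∀ i j, i ≠ j → c i ≠ c j) :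
    ∃ n, Pn5 G X c n := by
  have h1 : ∀ i, ∃ v ∈ nb G X (c i), v ≠ c (i + 1) ∧ v ≠ c (i + 4) := by
    intro i
    have h1 := Finset.pred_card_le_card_erase (s := nb G X (c i)) (a := c (i + 1))
    have h2 := Finset.pred_card_le_card_erase (s := (nb G X (c i)).erase (c (i + 1)))
      (a := c (i + 4))
    have h3 := D.deg (c i) (cX _)
    obtain ⟨q, hq⟩ := Finset.card_pos.1
      (by omega : 0 < (((nb G X (c i)).erase (c (i + 1))).erase (c (i + 4))).card)
    rw [mem_erase, mem_erase] at hq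
    exact ⟨q, hq.2.2, hq.2.1, hq.1⟩
  choose n hn using h1
  exact ⟨n, cX, fun i => (mem_nb.1 (hn i).1).1, cc, fun i => (mem_nb.1 (hn i).1).2,
    fun i => (hn i).2.1, fun i => (hn i).2.2, ci⟩

/-- the cubic case is impossible -/
theorem Cub3.false {X : Finset V} (D : Cub3 G X) (hX : X.Nonempty) : False := by
  obtain ⟨v, hv⟩ := hX
  obtain ⟨a, ha⟩ := Finset.card_pos.1 (by rw [D.deg v hv]; omega : 0 < (nb G X v).card)
  have ha' := mem_nb.1 ha
  obtain ⟨w, hw, hwv⟩ := Finset.exists_mem_ne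
    (by rw [D.deg a ha'.1]; omega : 1 < (nb G X a).card) v
  have hw' := mem_nb.1 hw
  obtain ⟨u, hu, u', hu', huu⟩ : ∃ u ∈ (nb G X w).erase a, ∃ u' ∈ (nb G X w).erase a, u ≠ u' := by
    have h1 := Finset.pred_card_le_card_erase (s := nb G X w) (a := a)
    have h2 := D.deg w hw'.1
    have h3 := Finset.one_lt_card.1 (by omega : 1 < ((nb G X w).erase a).card)
    obtain ⟨s, hs, t, ht, hst⟩ := h3
    exact ⟨s, hs, t, ht, hst⟩
  rw [mem_erase] at hu hu'
  have hu2 := mem_nb.1 hu.2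
  have hu2' := mem_nb.1 hu'.2
  have h5 := D.c5 v hv a ha'.1 w hw'.1 hwv.symm ha'.2 hw'.2 u hu2.1 u' hu2'.1 hu.1 hu'.1 huu
    hu2.2 hu2'.2
  obtain ⟨z, hz, hza, hwz, b, hb, hvb, hbz⟩ : ∃ z ∈ X, z ≠ a ∧ G.Adj w z ∧
      ∃ b ∈ X, G.Adj v b ∧ G.Adj b z := by
    by_cases h : ∃ b ∈ X, G.Adj v b ∧ G.Adj b u
    · exact ⟨u, hu2.1, hu.1, hu2.2, h⟩
    · exact ⟨u', hu2'.1, hu'.1, hu2'.2, not_not.1 (fun h6 => h (h5.2 h6))⟩
  have nvw : ¬ G.Adj v w := D.tf v hv a ha'.1 w hw'.1 ha'.2 hw'.2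
  have nvz : v ≠ z := by
    intro e
    rw [← e] at hwz
    exact nvw hwz.symm
  have nab : a ≠ b := by
    intro e
    rw [← e] at hbz
    exact D.tf a ha'.1 w hw'.1 z hz hw'.2 hwz hbz
  have nwb : w ≠ b := by
    intro e
    rw [← e] at hvb
    exact nvw hvb
  obtain ⟨c, hc⟩ : ∃ c : Fin 5 → V, c = ![v, a, w, z, b] := ⟨_, rfl⟩
  have cX : ∀ i, c i ∈ X := by
    intro i
    rw [hc]
    fin_cases i
    · exact hv
    · exact ha'.1
    · exact hw'.1
    · exact hz
    · exact hb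
  have cc : ∀ i, G.Adj (c i) (c (i + 1)) := by
    intro i
    rw [hc]
    fin_cases i
    · exact ha'.2
    · exact hw'.2
    · exact hwz
    · exact hbz.symm
    · exact hvb.symm
  have ci : ∀ i j, i ≠ j → c i ≠ c j := by
    have k1 : ∀ i, c i ≠ c (i + 1) := fun i => (cc i).ne
    have k2 : ∀ i, c i ≠ c (i + 2) := by
      intro i
      rw [hc]
      fin_cases i
      · exact hwv.symm
      · exact hza.symm
      · exact nwb
      · exact nvz.symm
      · exact nab.symm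
    intro i j hij
    rcases dist5 i j hij with e | e | e | e
    · rw [e]; exact k1 i
    · rw [e]; exact k2 i
    · rw [e]; exact (k1 j).symm
    · rw [e]; exact (k2 j).symm
  obtain ⟨n, P⟩ := Pn5.ex D cX cc ci
  have h6 := fun i => P.exm D i
  choose m hm using h6
  exact Pm5.false D { P with
    mX := fun i => (hm i).1
    nm := fun i => (hm i).2.1
    mn := fun i => (hm i).2.2 }


end Pool.Agent.TwoDens.T3
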