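import Pool.Agent.T3L.CubB
import Pool.Agent.T3L.CubC

/-!
The cubic case is impossible.
-/

open Finset

namespace Pool.Agent.TwoDens.T3

open Pool.Agent.TwoDens Pool.Agent.TwoDens.RK Pool.Agent.TwoDens.DD Pool.Agent.TwoDens.TS

variable {V : Type*} [DecidableEq V] {G : SimpleGraph V} [DecidableRel G.Adj]

/-- the cubic case is impossible -/
theorem Cub.false {X : Finset V} (C : Cub G X) : False := by
  have D : Cub3 G X := by
    refine ⟨fun a _ b _ c _ => C.H.htf a b c, C.h3, ?_, fun Y _ => ?_, ?_, ?_⟩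
    · rw [← pp_eq_ps]
      exact C.hp
    · rw [← pp_eq_ps]
      exact pp_nonneg C.H.htf Y
    · intro v hv w hw hvw a ha b hb hab h1 h2 h3 h4
      exact C.noC4 hv hw ha hb hvw hab h1 h2 h3 h4
    · intro v hv a ha w hw hvw h1 h2 u hu u' hu' e1 e2 huu h3 h3'
      constructor
      · rintro ⟨b, hb, g1, g2⟩ ⟨b', hb', g1', g2'⟩
        exact huu (C.c5 hv hw ha hu hb hu' hb' hvw h1 h2 e1 e2 h3 g2.symm g1.symm h3' g2'.symm
          g1'.symm)
      · intro hno
        obtain ⟨z, hz, b, hb, ez, _, g1, g2, g3⟩ := C.P hv hw ha hvw h1 h2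
        rcases three_of (C.h3 w hw) (mem_nb.2 ⟨ha, h2.symm⟩) (mem_nb.2 ⟨hu, h3⟩)
          (mem_nb.2 ⟨hu', h3'⟩) e1.symm e2.symm huu hz g1 with e | e | e
        · exact absurd e ez
        · exact ⟨b, hb, g3.symm, e ▸ g2.symm⟩
        · exact absurd ⟨b, hb, g3.symm, e ▸ g2.symm⟩ hno
  exact D.false C.hne

end Pool.Agent.TwoDens.T3
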