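import Pool.Agent.T3L.Base

/-!
Minimum degree three: the graph is split or cubic.
-/

open Finset

namespace Pool.Agent.TwoDens.T3

open Pool.Agent.TwoDens Pool.Agent.TwoDens.RK Pool.Agent.TwoDens.DD Pool.Agent.TwoDens.TS

variable {V : Type*} [DecidableEq V] {G : SimpleGraph V} [DecidableRel G.Adj]

theorem exists_three {X : Finset V} (H : Hy G X) (hne : X.Nonempty) (hp : pp G X = 0)
    (h3 : ∀ v ∈ X, 3 ≤ (nb G X v).card) : ∃ v ∈ X, (nb G X v).card = 3 := by
  by_contra hcon
  push Not at hcon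
  have h4 : ∀ v ∈ X, 4 ≤ (nb G X v).card := by
    intro v hv
    have h1 := h3 v hv
    have h2 := hcon v hv
    omega
  have h5 : X.card * 4 ≤ e2 G X := by
    rw [e2_eq, ← smul_eq_mul]
    exact Finset.card_nsmul_le_sum X _ 4 h4
  have h6 := H.hnu X (Finset.Subset.refl X) hne
  unfold pp at hp
  have h5' : (X.card : ℤ) * 4 ≤ e2 G X := by exact_mod_cast h5
  have h6' : (X.card : ℤ) + 1 ≤ 3 * al G X := by exact_mod_cast h6
  have h7 : (0 : ℤ) ≤ X.card := Int.natCast_nonneg _
  linarith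

/-- all neighbours of a vertex of degree three have degree three -/
theorem all_three {X : Finset V} (H : Hy G X) (hp : pp G X = 0) (ih : IHs G X)
    (h3 : ∀ v ∈ X, 3 ≤ (nb G X v).card) {v w : V} (hv : v ∈ X) (hd : (nb G X v).card = 3)
    (hw : w ∈ nb G X v) : (nb G X w).card = 3 := by
  by_contra hcon
  have hS : ∑ u ∈ (nb G X v).erase w, (nb G X u).card + (nb G X w).card =
      ∑ u ∈ nb G X v, (nb G X u).card := Finset.sum_erase_add _ _ hw
  have hwX : w ∈ X := (mem_nb.1 hw).1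
  have h1 : ((nb G X v).erase w).card * 3 ≤ ∑ u ∈ (nb G X v).erase w, (nb G X u).card := by
    rw [← smul_eq_mul]
    refine Finset.card_nsmul_le_sum _ _ 3 ?_
    intro u hu
    exact h3 u (mem_nb.1 (mem_of_mem_erase hu)).1
  rw [card_erase_of_mem hw, hd] at h1
  have h2 := h3 w hwX
  have h4 := rem1_le H.htf hv
  rw [hp, hd] at h4
  have h5 : ∑ u ∈ nb G X v, (nb G X u).card ≤ 10 := by
    have : 2 * ((∑ u ∈ nb G X v, (nb G X u).card : ℕ) : ℤ) ≤ 20 := by
      push_cast at h4 ⊢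
      linarith
    have : 2 * (∑ u ∈ nb G X v, (nb G X u).card) ≤ 20 := by exact_mod_cast this
    omega
  have h6 : ∑ u ∈ nb G X v, (nb G X u).card = 10 := by omega
  obtain ⟨h7, h8⟩ := rem1_eq H.htf hv (by
    rw [hp, hd, h6]
    norm_num)
  rw [hp, hd, h6] at h8
  have hpY : pp G (X \ cl G X v) = 0 := by
    push_cast at h8
    linarith
  have hvcl : v ∈ cl G X v := by
    unfold cl
    exact mem_insert_self v _
  have hYX : X \ cl G X v ≠ X := by
    intro h
    have : v ∈ X \ cl G X v := by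
      rw [h]
      exact hv
    exact (mem_sdiff.1 this).2 hvcl
  have h9 := IHs.n2 H ih sdiff_subset hYX hpY
  have h10 := card_rem (G := G) hv
  rw [← rem_eq, hd] at h10
  have h11 := H.hnu X (Finset.Subset.refl X) ⟨v, hv⟩
  -- count
  have hsub : n2 G (X \ cl G X v) ⊆ (nb G X v).biUnion (fun u => nb G (X \ cl G X v) u) := by
    intro x hx
    unfold n2 at hx
    rw [mem_filter] at hx
    obtain ⟨hxY, hx2⟩ := hx
    have hxX := (mem_sdiff.1 hxY).1
    have hxc := (mem_sdiff.1 hxY).2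
    have h12 := h3 x hxX
    obtain ⟨u, hu, hu'⟩ : ∃ u ∈ nb G X x, u ∉ nb G (X \ cl G X v) x := by
      by_contra hc
      push Not at hc
      have := card_le_card (show nb G X x ⊆ nb G (X \ cl G X v) x from fun u hu => hc u hu)
      omega
    rw [mem_nb] at hu
    have hucl : u ∈ cl G X v := by
      by_contra hc
      exact hu' (mem_nb.2 ⟨mem_sdiff.2 ⟨hu.1, hc⟩, hu.2⟩)
    unfold cl at hucl
    rw [mem_insert] at hucl
    rcases hucl with h | h
    · exfalso
      apply hxc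
      unfold cl
      exact mem_insert_of_mem (mem_nb.2 ⟨hxX, h ▸ hu.2.symm⟩)
    · rw [mem_biUnion]
      exact ⟨u, h, mem_nb.2 ⟨hxY, hu.2.symm⟩⟩
  have h12 := (card_le_card hsub).trans card_biUnion_le
  have h13 : ∑ u ∈ nb G X v, ((nb G (X \ cl G X v) u).card + 1) ≤
      ∑ u ∈ nb G X v, (nb G X u).card := by
    refine Finset.sum_le_sum ?_
    intro u hu
    rw [mem_nb] at hu
    have h14 : nb G (X \ cl G X v) u ⊆ (nb G X u).erase v := by
      intro x hx
      rw [mem_nb, mem_sdiff] at hx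
      rw [mem_erase, mem_nb]
      refine ⟨?_, hx.1.1, hx.2⟩
      rintro rfl
      exact hx.1.2 hvcl
    have h15 := card_le_card h14
    have h16 : v ∈ nb G X u := mem_nb.2 ⟨hv, hu.2.symm⟩
    rw [card_erase_of_mem h16] at h15
    have h17 := card_pos.2 ⟨v, h16⟩
    omega
  rw [sum_add_distrib, h6, sum_const, hd] at h13
  simp only [smul_eq_mul] at h13
  omega

/-- minimum degree three: split or cubic -/
theorem step1 {X : Finset V} (H : Hy G X) (hne : X.Nonempty) (hp : pp G X = 0) (ih : IHs G X)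
    (h3 : ∀ v ∈ X, 3 ≤ (nb G X v).card) : Spl G X ∨ ∀ v ∈ X, (nb G X v).card = 3 := by
  obtain ⟨v, hv, hd⟩ := exists_three H hne hp h3
  by_cases hall : ∀ v ∈ X, (nb G X v).card = 3
  · exact Or.inr hall
  · left
    push Not at hall
    obtain ⟨w, hw, hwd⟩ := hall
    refine ⟨X.filter (fun u => (nb G X u).card = 3), X \ X.filter (fun u => (nb G X u).card = 3),
      ⟨v, mem_filter.2 ⟨hv, hd⟩⟩, ⟨w, mem_sdiff.2 ⟨hw, fun h => hwd (mem_filter.1 h).2⟩⟩,
      sep_closed ?_, ?_⟩
    · intro u hu x hx hux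
      rw [mem_filter] at hu ⊢
      exact ⟨hx, all_three H hp ih h3 hu.1 hu.2 (mem_nb.2 ⟨hx, hux⟩)⟩
    · exact union_sdiff_of_subset (filter_subset _ _)

end Pool.Agent.TwoDens.T3
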