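import Pool.Agent.T3L.Base

/-!
Triangle-free graphs with `e = 5 n - 10 α` which have a vertex of degree two.
-/

open Finset

namespace Pool.Agent.TwoDens.T3

open Pool.Agent.TwoDens Pool.Agent.TwoDens.RK Pool.Agent.TwoDens.DD Pool.Agent.TwoDens.TS

variable {V : Type*} [DecidableEq V] {G : SimpleGraph V} [DecidableRel G.Adj]

theorem oth2 {X : Finset V} {u v : V} (hv : v ∈ X) (ha : G.Adj u v)
    (hd : (nb G X u).card = 2) :
    ∃ z ∈ X, G.Adj u z ∧ z ≠ v ∧ ∀ t ∈ X, G.Adj u t → t = v ∨ t = z := by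
  obtain ⟨a, b, hab, h⟩ := card_eq_two.1 hd
  have hvm : v ∈ nb G X u := mem_nb.2 ⟨hv, ha⟩
  have hm : ∀ t ∈ X, G.Adj u t → t = a ∨ t = b := by
    intro t ht h1
    have h2 : t ∈ nb G X u := mem_nb.2 ⟨ht, h1⟩
    rw [h, mem_insert, mem_singleton] at h2
    exact h2
  have ham : a ∈ nb G X u := by rw [h]; exact mem_insert_self _ _
  have hbm : b ∈ nb G X u := by rw [h]; exact mem_insert_of_mem (mem_singleton_self _)
  rw [mem_nb] at ham hbm
  rcases hm v hv ha with h1 | h1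
  · refine ⟨b, hbm.1, hbm.2, fun h2 => hab (h1 ▸ h2.symm), fun t ht h3 => ?_⟩
    rw [h1]
    exact hm t ht h3
  · refine ⟨a, ham.1, ham.2, fun h2 => hab (h1 ▸ h2), fun t ht h3 => ?_⟩
    rw [h1]
    exact (hm t ht h3).symm

theorem oth3 {X : Finset V} {u v : V} (hv : v ∈ X) (ha : G.Adj u v)
    (hd : (nb G X u).card = 3) :
    ∃ z ∈ X, ∃ z' ∈ X, G.Adj u z ∧ G.Adj u z' ∧ z ≠ z' ∧ z ≠ v ∧ z' ≠ v ∧
      ∀ t ∈ X, G.Adj u t → t = v ∨ t = z ∨ t = z' := by
  have hvm : v ∈ nb G X u := mem_nb.2 ⟨hv, ha⟩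
  have h1 : ((nb G X u).erase v).card = 2 := by
    rw [card_erase_of_mem hvm, hd]
  obtain ⟨a, b, hab, h⟩ := card_eq_two.1 h1
  have ham : a ∈ (nb G X u).erase v := by rw [h]; exact mem_insert_self _ _
  have hbm : b ∈ (nb G X u).erase v := by rw [h]; exact mem_insert_of_mem (mem_singleton_self _)
  rw [mem_erase, mem_nb] at ham hbm
  refine ⟨a, ham.2.1, b, hbm.2.1, ham.2.2, hbm.2.2, hab, ham.1, hbm.1, ?_⟩
  intro t ht h3
  by_cases htv : t = v
  · exact Or.inl htv
  · have h2 : t ∈ (nb G X u).erase v := mem_erase.2 ⟨htv, mem_nb.2 ⟨ht, h3⟩⟩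
    rw [h, mem_insert, mem_singleton] at h2
    exact Or.inr h2

/-- the nonadjacent vertices `u`, `w` with all neighbours in `S ∪ T` -/
theorem al_two {X S T : Finset V} {u w : V} (hu : u ∈ X) (hw : w ∈ X) (huS : u ∈ S)
    (hwS : w ∈ S) (huw : u ≠ w) (hn : ¬ G.Adj u w)
    (h1 : ∀ t ∈ X, G.Adj u t → t ∈ S ∨ t ∈ T) (h2 : ∀ t ∈ X, G.Adj w t → t ∈ S ∨ t ∈ T) :
    al G ((X \ S) \ T) + 2 ≤ al G X := by
  have h := al_closed (G := G) (Y := X) (S := S ∪ T) (J := {u, w}) (by
      intro z hz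
      rw [mem_insert, mem_singleton] at hz
      rcases hz with rfl | rfl
      · exact hu
      · exact hw) (by
      intro z hz
      rw [mem_insert, mem_singleton] at hz
      rcases hz with rfl | rfl
      · exact mem_union_left _ huS
      · exact mem_union_left _ hwS) (indep_pair hn) (by
      intro z hz t ht ha
      rw [mem_insert, mem_singleton] at hz
      rw [mem_union]
      rcases hz with rfl | rfl
      · exact h1 t ht ha
      · exact h2 t ht ha)
  rw [card_pair huw] at h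
  rwa [sdiff_sdiff]

theorem nb_eq_of {X Y : Finset V} (hY : Y ⊆ X) {g : V} (h : ∀ t ∈ X, G.Adj g t → t ∈ Y) :
    nb G X g = nb G Y g := by
  ext t
  rw [mem_nb, mem_nb]
  exact ⟨fun h1 => ⟨h t h1.1 h1.2, h1.2⟩, fun h1 => ⟨hY h1.1, h1.2⟩⟩

/-- a vertex of degree two with two neighbours of degree two: a component which is a cycle -/
theorem case22 {X : Finset V} (H : Hy G X) (hp : pp G X = 0) {v u w : V} (hv : v ∈ X)
    (hu : u ∈ X) (hw : w ∈ X) (huw : u ≠ w) (avu : G.Adj v u) (avw : G.Adj v w)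
    (hdv : (nb G X v).card = 2) (hdu : (nb G X u).card = 2) (hdw : (nb G X w).card = 2) :
    (X.card = 5 ∧ ∀ v ∈ X, (nb G X v).card = 2) ∨ Spl G X := by
  have htf := H.htf
  have hnv : nb G X v = {u, w} := by
    symm
    refine eq_of_subset_of_card_le ?_ ?_
    · intro t ht
      rw [mem_insert, mem_singleton] at ht
      rcases ht with rfl | rfl
      · exact mem_nb.2 ⟨hu, avu⟩
      · exact mem_nb.2 ⟨hw, avw⟩
    · rw [hdv, card_pair huw]
  have hnuw : ¬ G.Adj u w := htf u v w avu.symm avw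
  obtain ⟨z1, hz1, au1, hz1v, Nu⟩ := oth2 hv avu.symm hdu
  obtain ⟨z2, hz2, aw2, hz2v, Nw⟩ := oth2 hv avw.symm hdw
  have Nv : ∀ t ∈ X, G.Adj v t → t = u ∨ t = w := by
    intro t ht h
    have h1 : t ∈ nb G X v := mem_nb.2 ⟨ht, h⟩
    rw [hnv, mem_insert, mem_singleton] at h1
    exact h1
  have hsum : ∑ t ∈ nb G X v, (nb G X t).card = 4 := by
    rw [hnv, sum_pair huw, hdu, hdw]
  obtain ⟨hal, hpY⟩ := rem1_eq htf hv (by rw [hsum, hp, hdv]; norm_num)
  rw [hsum, hp, hdv] at hpY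
  obtain ⟨Y, hYdef⟩ : ∃ Y, Y = X \ cl G X v := ⟨_, rfl⟩
  have hcl : ∀ t, t ∈ cl G X v ↔ t = v ∨ t = u ∨ t = w := by
    intro t
    unfold cl
    rw [hnv, mem_insert, mem_insert, mem_singleton]
  have hYm : ∀ t, t ∈ Y ↔ t ∈ X ∧ t ≠ v ∧ t ≠ u ∧ t ≠ w := by
    intro t
    rw [hYdef, mem_sdiff, hcl]
    tauto
  rw [← hYdef] at hal hpY
  have hpY2 : pp G Y = 2 := by
    push_cast at hpY
    linarith
  have hz1u : z1 ≠ u := au1.ne'
  have hz1w : z1 ≠ w := fun h => hnuw (h ▸ au1)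
  have hz2w : z2 ≠ w := aw2.ne'
  have hz2u : z2 ≠ u := fun h => hnuw (h ▸ aw2).symm
  have hz1Y : z1 ∈ Y := (hYm z1).2 ⟨hz1, hz1v, hz1u, hz1w⟩
  have hz2Y : z2 ∈ Y := (hYm z2).2 ⟨hz2, hz2v, hz2u, hz2w⟩
  have halT : al G (Y \ {z1, z2}) + 2 ≤ al G X := by
    rw [hYdef]
    refine al_two hu hw ((hcl u).2 (Or.inr (Or.inl rfl))) ((hcl w).2 (Or.inr (Or.inr rfl)))
      huw hnuw ?_ ?_
    · intro t ht h
      rcases Nu t ht h with h1 | h1
      · exact Or.inl ((hcl t).2 (Or.inl h1))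
      · exact Or.inr (by simp [h1])
    · intro t ht h
      rcases Nw t ht h with h1 | h1
      · exact Or.inl ((hcl t).2 (Or.inl h1))
      · exact Or.inr (by simp [h1])
  have hTY : ({z1, z2} : Finset V) ⊆ Y := by
    intro t ht
    rw [mem_insert, mem_singleton] at ht
    rcases ht with rfl | rfl
    · exact hz1Y
    · exact hz2Y
  have hpT := ppT (G := G) hTY
  have h0 := pp_nonneg htf (Y \ {z1, z2})
  have hal1 : ((al G (Y \ {z1, z2}) : ℕ) : ℤ) + 1 ≤ al G Y := by
    exact_mod_cast (by omega : al G (Y \ {z1, z2}) + 1 ≤ al G Y)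
  rw [hpY2] at hpT
  have hz12 : z1 ≠ z2 := by
    intro h
    rw [← h, insert_eq_of_mem (mem_singleton_self z1)] at hpT hal1 h0
    rw [sum_singleton, card_singleton, e2_singleton] at hpT
    have h3 : (0 : ℤ) ≤ ((nb G Y z1).card : ℕ) := Int.natCast_nonneg _
    push_cast at hpT h3
    linarith
  have d1 := one_le htf (by rw [hpY2]; norm_num) hz1Y
  have d2 := one_le htf (by rw [hpY2]; norm_num) hz2Y
  rw [sum_pair hz12, card_pair hz12, e2_pair hz12] at hpT
  have d1' : (1 : ℤ) ≤ ((nb G Y z1).card : ℕ) := by exact_mod_cast d1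
  have d2' : (1 : ℤ) ≤ ((nb G Y z2).card : ℕ) := by exact_mod_cast d2
  have a12 : G.Adj z1 z2 := by
    by_contra hcon
    rw [if_neg hcon] at hpT
    push_cast at hpT
    linarith
  rw [if_pos a12] at hpT
  push_cast at hpT
  have e1 : ((nb G Y z1).card : ℤ) ≤ 1 := by linarith
  have e2' : ((nb G Y z2).card : ℤ) ≤ 1 := by linarith
  have e1' : (nb G Y z1).card ≤ 1 := by exact_mod_cast e1
  have e2'' : (nb G Y z2).card ≤ 1 := by exact_mod_cast e2'
  have N1 : ∀ t ∈ X, G.Adj z1 t → t = u ∨ t = z2 := by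
    intro t ht h
    by_cases htY : t ∈ Y
    · exact Or.inr (card_le_one.1 e1' t (mem_nb.2 ⟨htY, h⟩) z2 (mem_nb.2 ⟨hz2Y, a12⟩))
    · have h1 : t = v ∨ t = u ∨ t = w := by
        by_contra hcon
        rw [not_or, not_or] at hcon
        exact htY ((hYm t).2 ⟨ht, hcon⟩)
      rcases h1 with h1 | h1 | h1
      · rcases Nv z1 hz1 (h1 ▸ h.symm) with h2 | h2
        · exact absurd h2 hz1u
        · exact absurd h2 hz1w
      · exact Or.inl h1
      · rcases Nw z1 hz1 (h1 ▸ h.symm) with h2 | h2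
        · exact absurd h2 hz1v
        · exact absurd h2 hz12
  have N2 : ∀ t ∈ X, G.Adj z2 t → t = w ∨ t = z1 := by
    intro t ht h
    by_cases htY : t ∈ Y
    · exact Or.inr (card_le_one.1 e2'' t (mem_nb.2 ⟨htY, h⟩) z1 (mem_nb.2 ⟨hz1Y, a12.symm⟩))
    · have h1 : t = v ∨ t = u ∨ t = w := by
        by_contra hcon
        rw [not_or, not_or] at hcon
        exact htY ((hYm t).2 ⟨ht, hcon⟩)
      rcases h1 with h1 | h1 | h1
      · rcases Nv z2 hz2 (h1 ▸ h.symm) with h2 | h2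
        · exact absurd h2 hz2u
        · exact absurd h2 hz2w
      · rcases Nu z2 hz2 (h1 ▸ h.symm) with h2 | h2
        · exact absurd h2 hz2v
        · exact absurd h2.symm hz12
      · exact Or.inl h1
  obtain ⟨Q, hQ⟩ : ∃ Q : Finset V, Q = {u, v, w, z1, z2} := ⟨_, rfl⟩
  have hQm : ∀ t, t ∈ Q ↔ t = u ∨ t = v ∨ t = w ∨ t = z1 ∨ t = z2 := by
    intro t
    rw [hQ]
    simp only [mem_insert, mem_singleton]
  have hQX : Q ⊆ X := by
    intro t ht
    rcases (hQm t).1 ht with rfl | rfl | rfl | rfl | rfl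
    · exact hu
    · exact hv
    · exact hw
    · exact hz1
    · exact hz2
  have hclosed : ∀ t ∈ Q, ∀ s ∈ X, G.Adj t s → s ∈ Q := by
    intro t ht s hs h
    rw [hQm]
    rcases (hQm t).1 ht with rfl | rfl | rfl | rfl | rfl
    · rcases Nu s hs h with h1 | h1
      · exact Or.inr (Or.inl h1)
      · exact Or.inr (Or.inr (Or.inr (Or.inl h1)))
    · rcases Nv s hs h with h1 | h1
      · exact Or.inl h1
      · exact Or.inr (Or.inr (Or.inl h1))
    · rcases Nw s hs h with h1 | h1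
      · exact Or.inr (Or.inl h1)
      · exact Or.inr (Or.inr (Or.inr (Or.inr h1)))
    · rcases N1 s hs h with h1 | h1
      · exact Or.inl h1
      · exact Or.inr (Or.inr (Or.inr (Or.inr h1)))
    · rcases N2 s hs h with h1 | h1
      · exact Or.inr (Or.inr (Or.inl h1))
      · exact Or.inr (Or.inr (Or.inr (Or.inl h1)))
  by_cases hXQ : X = Q
  · left
    refine ⟨?_, ?_⟩
    · rw [hXQ, hQ, card_insert_of_notMem (by simp [avu.ne', huw, hz1u.symm, hz2u.symm]),
        card_insert_of_notMem (by simp [avw.ne, hz1v.symm, hz2v.symm]),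
        card_insert_of_notMem (by simp [hz1w.symm, hz2w.symm]), card_pair hz12]
    · intro t ht
      rcases (hQm t).1 (hXQ ▸ ht) with rfl | rfl | rfl | rfl | rfl
      · exact hdu
      · exact hdv
      · exact hdw
      · have h1 : nb G X t = {u, z2} := by
          ext s
          rw [mem_nb, mem_insert, mem_singleton]
          constructor
          · rintro ⟨h1, h2⟩
            exact N1 s h1 h2
          · rintro (rfl | rfl)
            · exact ⟨hu, au1.symm⟩
            · exact ⟨hz2, a12⟩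
        rw [h1, card_pair hz2u.symm]
      · have h1 : nb G X t = {w, z1} := by
          ext s
          rw [mem_nb, mem_insert, mem_singleton]
          constructor
          · rintro ⟨h1, h2⟩
            exact N2 s h1 h2
          · rintro (rfl | rfl)
            · exact ⟨hw, aw2.symm⟩
            · exact ⟨hz1, a12.symm⟩
        rw [h1, card_pair hz1w.symm]
  · right
    refine ⟨Q, X \ Q, ⟨u, (hQm u).2 (Or.inl rfl)⟩, ?_, sep_closed hclosed,
      union_sdiff_of_subset hQX⟩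
    rw [sdiff_nonempty]
    exact fun h => hXQ (Finset.Subset.antisymm h hQX)

/-- a graph with five vertices of degree two and `pp = 0` -/
theorem al_five {X : Finset V} (hp : pp G X = 0) (h : X.card = 5)
    (hd : ∀ v ∈ X, (nb G X v).card = 2) : al G X = 2 := by
  have h1 : e2 G X = 10 := by
    rw [e2_eq, sum_congr rfl hd, sum_const, h, smul_eq_mul]
  unfold pp at hp
  rw [h1, h] at hp
  push_cast at hp
  have : (al G X : ℤ) = 2 := by linarith
  exact_mod_cast this

/-- a set with at most two vertices is no transversal -/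
theorem three_le {A T : Finset V} (htf : TF G) (hp : pp G A = 0)
    (h : al G (A \ T) < al G A) : 3 ≤ (T ∩ A).card := by
  by_contra hcon
  push Not at hcon
  have h1 : A \ T = A \ (T ∩ A) := by
    ext t
    simp only [mem_sdiff, mem_inter]
    tauto
  rw [h1] at h
  have h2 := ppT (G := G) (Y := A) (T := T ∩ A) inter_subset_right
  have h3 := pp_nonneg htf (A \ (T ∩ A))
  have h4 : ((al G (A \ (T ∩ A)) : ℕ) : ℤ) + 1 ≤ al G A := by exact_mod_cast h
  have h5 : 2 * (T ∩ A).card ≤ ∑ v ∈ T ∩ A, (nb G A v).card := by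
    have h6 : ∑ _v ∈ T ∩ A, 2 ≤ ∑ v ∈ T ∩ A, (nb G A v).card :=
      sum_le_sum (fun v hv => two_le htf hp (mem_inter.1 hv).2)
    rw [sum_const, smul_eq_mul] at h6
    omega
  have h6 : (2 * ((T ∩ A).card : ℤ)) ≤ ((∑ v ∈ T ∩ A, (nb G A v).card : ℕ) : ℤ) := by
    exact_mod_cast h5
  have h7 := e2_add_compl (G := G) (T ∩ A)
  rw [hp] at h2
  obtain ⟨c, hc⟩ : ∃ c, (T ∩ A).card = c := ⟨_, rfl⟩
  rw [hc] at h2 h6 h7 hcon
  have h8 : c = 0 ∨ c = 1 ∨ c = 2 := by omega
  have h9 : e2 G (T ∩ A) ≤ 2 := by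
    rcases h8 with rfl | rfl | rfl <;> omega
  have h10 : ((e2 G (T ∩ A) : ℕ) : ℤ) ≤ 2 := by exact_mod_cast h9
  rcases h8 with rfl | rfl | rfl
  · push_cast at h2 h6
    have h11 : e2 G (T ∩ A) = 0 := by omega
    rw [h11] at h2
    push_cast at h2
    linarith
  · push_cast at h2 h6
    linarith
  · push_cast at h2 h6
    linarith

end Pool.Agent.TwoDens.T3
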