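import Pool.Agent.T3L.S2

/-!
Triangle-free graphs with `e = 5 n - 10 α` which have a vertex of degree two: the induction step.
-/

open Finset

namespace Pool.Agent.TwoDens.T3

open Pool.Agent.TwoDens Pool.Agent.TwoDens.RK Pool.Agent.TwoDens.DD Pool.Agent.TwoDens.TS

variable {V : Type*} [DecidableEq V] {G : SimpleGraph V} [DecidableRel G.Adj]

/-- the path `u v w` with the outer neighbours `z1` of `u` and `z2`, `z3` of `w` -/
structure Blk (G : SimpleGraph V) [DecidableRel G.Adj] (X Y T : Finset V)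
    (u v w z1 z2 z3 : V) : Prop where
  hYm : ∀ t, t ∈ Y ↔ t ∈ X ∧ t ≠ v ∧ t ≠ u ∧ t ≠ w
  hT : T = {z1, z2, z3}
  hu : u ∈ X
  hv : v ∈ X
  hw : w ∈ X
  avu : G.Adj v u
  avw : G.Adj v w
  au1 : G.Adj u z1
  aw2 : G.Adj w z2
  aw3 : G.Adj w z3
  Nv : ∀ t ∈ X, G.Adj v t → t = u ∨ t = w
  Nu : ∀ t ∈ X, G.Adj u t → t = v ∨ t = z1
  Nw : ∀ t ∈ X, G.Adj w t → t = v ∨ t = z2 ∨ t = z3
  z1Y : z1 ∈ Y
  z2Y : z2 ∈ Y
  z3Y : z3 ∈ Y
  n12 : z1 ≠ z2
  n13 : z1 ≠ z3
  n23 : z2 ≠ z3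
  du : (nb G X u).card = 2
  dv : (nb G X v).card = 2
  alY : al G Y + 1 = al G X
  ppY : pp G Y = 0
  alT : al G (Y \ T) + 1 ≤ al G Y
  card : Y.card + 3 = X.card

theorem case23_mk {X : Finset V} (H : Hy G X) (hp : pp G X = 0) {v u w : V} (hv : v ∈ X)
    (hu : u ∈ X) (hw : w ∈ X) (huw : u ≠ w) (avu : G.Adj v u) (avw : G.Adj v w)
    (hdv : (nb G X v).card = 2) (hdu : (nb G X u).card = 2) (hdw : (nb G X w).card = 3) :
    ∃ Y T z1 z2 z3, Blk G X Y T u v w z1 z2 z3 := by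
  have htf := H.htf
  have hnv : nb G X v = {u, w} := by
    symm
    refine eq_of_subset_of_card_le ?_ ?_
    · intro t ht
      rw [mem_insert, mem_singleton] at ht
      rcases ht with rfl | rfl
      · exact mem_nb.2 ⟨hu, avu⟩
      · exact mem_nb.2 ⟨hw, avw⟩
    · rw [hdv, card_pair huw]
  have hnuw : ¬ G.Adj u w := htf u v w avu.symm avw
  obtain ⟨z1, hz1, au1, hz1v, Nu⟩ := oth2 hv avu.symm hdu
  obtain ⟨z2, hz2, z3, hz3, aw2, aw3, h23, hz2v, hz3v, Nw⟩ := oth3 hv avw.symm hdw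
  have Nv : ∀ t ∈ X, G.Adj v t → t = u ∨ t = w := by
    intro t ht h
    have h1 : t ∈ nb G X v := mem_nb.2 ⟨ht, h⟩
    rw [hnv, mem_insert, mem_singleton] at h1
    exact h1
  have hsum : ∑ t ∈ nb G X v, (nb G X t).card = 5 := by
    rw [hnv, sum_pair huw, hdu, hdw]
  obtain ⟨hal, hpY⟩ := rem1_eq htf hv (by rw [hsum, hp, hdv]; norm_num)
  rw [hsum, hp, hdv] at hpY
  have hcard : (X \ cl G X v).card + 3 = X.card := by
    have h1 := card_sdiff_add_card_inter X (cl G X v)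
    rw [inter_eq_right.2 (cl_sub hv), card_cl, hdv] at h1
    omega
  obtain ⟨Y, hYdef⟩ : ∃ Y, Y = X \ cl G X v := ⟨_, rfl⟩
  have hcl : ∀ t, t ∈ cl G X v ↔ t = v ∨ t = u ∨ t = w := by
    intro t
    unfold cl
    rw [hnv, mem_insert, mem_insert, mem_singleton]
  have hYm : ∀ t, t ∈ Y ↔ t ∈ X ∧ t ≠ v ∧ t ≠ u ∧ t ≠ w := by
    intro t
    rw [hYdef, mem_sdiff, hcl]
    tauto
  rw [← hYdef] at hal hpY hcard
  have hpY2 : pp G Y = 0 := by
    push_cast at hpY
    linarith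
  have hz1u : z1 ≠ u := au1.ne'
  have hz1w : z1 ≠ w := fun h => hnuw (h ▸ au1)
  have hz2w : z2 ≠ w := aw2.ne'
  have hz2u : z2 ≠ u := fun h => hnuw (h ▸ aw2).symm
  have hz3w : z3 ≠ w := aw3.ne'
  have hz3u : z3 ≠ u := fun h => hnuw (h ▸ aw3).symm
  have hz1Y : z1 ∈ Y := (hYm z1).2 ⟨hz1, hz1v, hz1u, hz1w⟩
  have hz2Y : z2 ∈ Y := (hYm z2).2 ⟨hz2, hz2v, hz2u, hz2w⟩
  have hz3Y : z3 ∈ Y := (hYm z3).2 ⟨hz3, hz3v, hz3u, hz3w⟩
  have halT : al G (Y \ {z1, z2, z3}) + 2 ≤ al G X := by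
    rw [hYdef]
    refine al_two hu hw ((hcl u).2 (Or.inr (Or.inl rfl))) ((hcl w).2 (Or.inr (Or.inr rfl)))
      huw hnuw ?_ ?_
    · intro t ht h
      rcases Nu t ht h with h1 | h1
      · exact Or.inl ((hcl t).2 (Or.inl h1))
      · exact Or.inr (by simp [h1])
    · intro t ht h
      rcases Nw t ht h with h1 | h1 | h1
      · exact Or.inl ((hcl t).2 (Or.inl h1))
      · exact Or.inr (by simp [h1])
      · exact Or.inr (by simp [h1])
  have h3 := three_le (A := Y) (T := {z1, z2, z3}) htf hpY2 (by omega)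
  have h4 : (({z1, z2, z3} : Finset V) ∩ Y).card ≤ ({z1, z2, z3} : Finset V).card :=
    card_le_card inter_subset_left
  have n12 : z1 ≠ z2 := by
    intro h
    rw [h, insert_eq_of_mem (mem_insert_self z2 {z3})] at h3 h4
    have := card_le_two (a := z2) (b := z3)
    omega
  have n13 : z1 ≠ z3 := by
    intro h
    rw [h, insert_eq_of_mem (mem_insert_of_mem (mem_singleton_self z3))] at h3 h4
    have := card_le_two (a := z2) (b := z3)
    omega
  exact ⟨Y, {z1, z2, z3}, z1, z2, z3, hYm, rfl, hu, hv, hw, avu, avw, au1, aw2, aw3, Nv, Nu, Nw,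
    hz1Y, hz2Y, hz3Y, n12, n13, h23, hdu, hdv, hal, hpY2, by omega, hcard⟩

section
variable {X Y T : Finset V} {u v w z1 z2 z3 : V} (B : Blk G X Y T u v w z1 z2 z3)
include B

theorem Blk.memT {t : V} : t ∈ T ↔ t = z1 ∨ t = z2 ∨ t = z3 := by
  rw [B.hT]
  simp only [mem_insert, mem_singleton]

theorem Blk.hTY : T ⊆ Y := by
  intro t ht
  rcases B.memT.1 ht with rfl | rfl | rfl
  · exact B.z1Y
  · exact B.z2Y
  · exact B.z3Y

theorem Blk.hYX : Y ⊆ X := fun t ht => ((B.hYm t).1 ht).1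

theorem Blk.Tc : T.card = 3 := by
  rw [B.hT, card_insert_of_notMem (by simp [B.n12, B.n13]), card_pair B.n23]

theorem Blk.neX : Y ≠ X := by
  intro h
  have h1 := B.card
  rw [h] at h1
  omega

/-- a vertex of `Y` outside `T` has no neighbours outside `Y` -/
theorem Blk.inY {g t : V} (hg : g ∈ Y) (hgT : g ∉ T) (ht : t ∈ X) (h : G.Adj g t) : t ∈ Y := by
  have hgm := (B.hYm g).1 hg
  rw [B.hYm]
  refine ⟨ht, ?_, ?_, ?_⟩
  · rintro rfl
    rcases B.Nv g hgm.1 h.symm with h1 | h1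
    · exact hgm.2.2.1 h1
    · exact hgm.2.2.2 h1
  · rintro rfl
    rcases B.Nu g hgm.1 h.symm with h1 | h1
    · exact hgm.2.1 h1
    · exact hgT (B.memT.2 (Or.inl h1))
  · rintro rfl
    rcases B.Nw g hgm.1 h.symm with h1 | h1 | h1
    · exact hgm.2.1 h1
    · exact hgT (B.memT.2 (Or.inr (Or.inl h1)))
    · exact hgT (B.memT.2 (Or.inr (Or.inr h1)))

theorem Blk.degY {g : V} (hg : g ∈ Y) (hgT : g ∉ T) : nb G X g = nb G Y g :=
  nb_eq_of B.hYX (fun _ ht h => B.inY hg hgT ht h)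

theorem Blk.n32 (htf : TF G) : ¬ G.Adj z2 z3 := htf z2 w z3 B.aw2.symm B.aw3

/-- the separated case -/
theorem Blk.spl (htf : TF G) (h : Spl G Y) : Spl G X := by
  obtain ⟨A, C, hA, hC, hs, hAC⟩ := h
  have key : ∀ A C : Finset V, C.Nonempty → Sep G A C → A ∪ C = Y → pp G A = 0 →
      al G (A \ T) < al G A → Spl G X := by
    intro A C hC hs hAC hpA hlt
    have h1 := three_le htf hpA hlt
    have hTA : T ⊆ A := by
      have h2 : T ∩ A = T := eq_of_subset_of_card_le inter_subset_left (by rw [B.Tc]; exact h1)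
      rw [← h2]
      exact inter_subset_right
    have hAY : A ⊆ Y := hAC ▸ subset_union_left
    have hCY : C ⊆ Y := hAC ▸ subset_union_right
    obtain ⟨D, hD⟩ : ∃ D : Finset V, D = A ∪ {u, v, w} := ⟨_, rfl⟩
    have hDm : ∀ t, t ∈ D ↔ t ∈ A ∨ t = u ∨ t = v ∨ t = w := by
      intro t
      rw [hD]
      simp only [mem_union, mem_insert, mem_singleton]
    have hDX : D ⊆ X := by
      intro t ht
      rcases (hDm t).1 ht with h2 | rfl | rfl | rfl
      · exact B.hYX (hAY h2)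
      · exact B.hu
      · exact B.hv
      · exact B.hw
    refine ⟨D, X \ D, ⟨u, (hDm u).2 (Or.inr (Or.inl rfl))⟩, ?_, sep_closed ?_,
      union_sdiff_of_subset hDX⟩
    · obtain ⟨c, hc⟩ := hC
      refine ⟨c, mem_sdiff.2 ⟨B.hYX (hCY hc), ?_⟩⟩
      rw [hDm]
      have h3 := (B.hYm c).1 (hCY hc)
      rintro (h2 | h2 | h2 | h2)
      · exact Finset.disjoint_left.1 hs.1 h2 hc
      · exact h3.2.2.1 h2
      · exact h3.2.1 h2
      · exact h3.2.2.2 h2
    · intro t ht s hsX hts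
      rw [hDm]
      by_cases hsY : s ∈ Y
      · have h4 : s ∈ A ∪ C := hAC ▸ hsY
        rw [mem_union] at h4
        rcases h4 with h4 | h4
        · exact Or.inl h4
        · exfalso
          have hsT : s ∉ T := fun h5 => Finset.disjoint_left.1 hs.1 (hTA h5) h4
          have h5 : t ∈ Y := B.inY hsY hsT (hDX ht) hts.symm
          have h6 : t ∈ A := by
            rcases (hDm t).1 ht with h6 | h6 | h6 | h6
            · exact h6
            · exact absurd h6 ((B.hYm t).1 h5).2.2.1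
            · exact absurd h6 ((B.hYm t).1 h5).2.1
            · exact absurd h6 ((B.hYm t).1 h5).2.2.2
          exact hs.2 t h6 s h4 hts
      · right
        by_contra hcon
        rw [not_or, not_or] at hcon
        exact hsY ((B.hYm s).2 ⟨hsX, hcon.2.1, hcon.1, hcon.2.2⟩)
  have hpp := hs.pp
  rw [hAC, B.ppY] at hpp
  have p1 := pp_nonneg htf A
  have p2 := pp_nonneg htf C
  have hsT : Sep G (A \ T) (C \ T) :=
    ⟨hs.1.mono sdiff_subset sdiff_subset,
      fun a ha b hb => hs.2 a (mem_sdiff.1 ha).1 b (mem_sdiff.1 hb).1⟩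
  have hal := hs.al
  have halT := hsT.al
  rw [← union_sdiff_distrib, hAC] at halT
  rw [hAC] at hal
  have h1 := B.alT
  rcases Nat.lt_or_ge (al G (A \ T)) (al G A) with h2 | h2
  · exact key A C hC hs hAC (by linarith) h2
  · exact key C A hA hs.symm (by rw [union_comm]; exact hAC) (by linarith) (by omega)

/-- a pair of adjacent vertices of degree two outside `T` -/
theorem Blk.ends {x x' : V} (hx : x ∈ Y) (hx' : x' ∈ Y) (hxT : x ∉ T) (hxT' : x' ∉ T)
    (ha : G.Adj x x') (hd : (nb G Y x).card = 2) (hd' : (nb G Y x').card = 2) : Ends G X := by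
  have h1 := (B.hYm x).1 hx
  have h2 := (B.hYm x').1 hx'
  exact ⟨u, B.hu, v, B.hv, x, h1.1, x', h2.1, B.avu.symm, ha, h1.2.2.1.symm, h2.2.2.1.symm,
    h1.2.1.symm, h2.2.1.symm, B.du, B.dv, by rw [B.degY hx hxT]; exact hd,
    by rw [B.degY hx' hxT']; exact hd'⟩

/-- the cycle of length five -/
theorem Blk.five (htf : TF G) (h5 : Y.card = 5) (hd : ∀ t ∈ Y, (nb G Y t).card = 2) :
    Ends G X ∧ C4 G X := by
  have hal := al_five B.ppY h5 hd
  have h1 := B.alT
  have hc : (Y \ T).card = 2 := by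
    have h2 := card_sdiff_add_card_inter Y T
    rw [inter_eq_right.2 B.hTY, B.Tc, h5] at h2
    omega
  obtain ⟨g, g', hgg, hg⟩ := card_eq_two.1 hc
  have hgm : g ∈ Y \ T := by rw [hg]; exact mem_insert_self _ _
  have hgm' : g' ∈ Y \ T := by rw [hg]; exact mem_insert_of_mem (mem_singleton_self _)
  rw [mem_sdiff] at hgm hgm'
  have ha : G.Adj g g' := by
    by_contra hcon
    have h2 := le_al (G := G) (X := Y \ T) (I := {g, g'}) (by rw [hg]) (indep_pair hcon)
    rw [card_pair hgg] at h2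
    omega
  refine ⟨B.ends hgm.1 hgm'.1 hgm.2 hgm'.2 ha (hd g hgm.1) (hd g' hgm'.1), ?_⟩
  have hpT := ppT (G := G) B.hTY
  have h2 : ∑ t ∈ T, (nb G Y t).card = 6 := by
    rw [sum_congr rfl (fun t ht => hd t (B.hTY ht)), sum_const, B.Tc, smul_eq_mul]
  have h3 : al G (Y \ T) = 1 := by
    have h4 : 1 ≤ al G (Y \ T) := al_pos ⟨g, mem_sdiff.2 hgm⟩
    omega
  have h4 : pp G (Y \ T) = 2 := by
    unfold pp
    rw [h3, hc, hg, e2_pair hgg, if_pos ha]
    norm_num
  rw [h4, h3, hal, h2, B.ppY, B.Tc, B.hT] at hpT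
  have h5' : e2 G {z1, z2, z3} = 4 := by
    push_cast at hpT
    have : ((e2 G {z1, z2, z3} : ℕ) : ℤ) = 4 := by linarith
    exact_mod_cast this
  rw [e2_insert (by simp [B.n12, B.n13]), e2_pair B.n23, if_neg (B.n32 htf)] at h5'
  have h6 : (nb G {z2, z3} z1).card = 2 := by omega
  have h7 : nb G {z2, z3} z1 = {z2, z3} :=
    eq_of_subset_of_card_le (nb_sub' _ _) (by rw [h6, card_pair B.n23])
  have h8 : z2 ∈ nb G {z2, z3} z1 := by rw [h7]; exact mem_insert_self _ _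
  have h9 : z3 ∈ nb G {z2, z3} z1 := by rw [h7]; exact mem_insert_of_mem (mem_singleton_self _)
  have i1 := (B.hYm z1).1 B.z1Y
  exact ⟨w, B.hw, z1, i1.1, z2, B.hYX B.z2Y, z3, B.hYX B.z3Y, i1.2.2.2.symm, B.n23, B.aw2,
    B.aw3, (mem_nb.1 h8).2, (mem_nb.1 h9).2⟩

/-- `T` does not separate a pair of adjacent vertices of degree two -/
theorem Blk.whole (H : Hy G X) (h3 : 3 * al G Y = Y.card + 1) (h8 : 8 ≤ Y.card) {x x' : V}
    (hx : x ∈ T) (hx' : x' ∈ Y) (ha : G.Adj x x') (hd : (nb G Y x').card = 2) : x' ∈ T := by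
  have htf := H.htf
  by_contra hcon
  have hpT := ppT (G := G) B.hTY
  have h0 := pp_nonneg htf (Y \ T)
  have hal1 : ((al G (Y \ T) : ℕ) : ℤ) + 1 ≤ al G Y := by exact_mod_cast B.alT
  have d1 := two_le htf B.ppY B.z1Y
  have d2 := two_le htf B.ppY B.z2Y
  have d3 := two_le htf B.ppY B.z3Y
  have hs : ∑ t ∈ T, (nb G Y t).card =
      (nb G Y z1).card + ((nb G Y z2).card + (nb G Y z3).card) := by
    rw [B.hT, sum_insert (by simp [B.n12, B.n13]), sum_pair B.n23]
  have he : e2 G T ≤ 4 := by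
    rw [B.hT]
    exact e2_triple_le htf B.n12 B.n13 B.n23
  rw [hs, B.ppY, B.Tc] at hpT
  have d1' : (2 : ℤ) ≤ ((nb G Y z1).card : ℕ) := by exact_mod_cast d1
  have d2' : (2 : ℤ) ≤ ((nb G Y z2).card : ℕ) := by exact_mod_cast d2
  have d3' : (2 : ℤ) ≤ ((nb G Y z3).card : ℕ) := by exact_mod_cast d3
  have he' : ((e2 G T : ℕ) : ℤ) ≤ 4 := by exact_mod_cast he
  push_cast at hpT
  have hle : pp G (Y \ T) ≤ 2 := by linarith
  have hxm : x' ∈ Y \ T := mem_sdiff.2 ⟨hx', hcon⟩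
  -- the degree of `x'` in the rest is one
  have hdx : (nb G (Y \ T) x').card ≤ 1 := by
    have h4 : nb G (Y \ T) x' ⊆ (nb G Y x').erase x := by
      intro t ht
      rw [mem_nb, mem_sdiff] at ht
      rw [mem_erase, mem_nb]
      exact ⟨fun h => ht.1.2 (h ▸ hx), ht.1.1, ht.2⟩
    have h5 := card_le_card h4
    rw [card_erase_of_mem (mem_nb.2 ⟨B.hTY hx, ha.symm⟩), hd] at h5
    omega
  have hp2 : pp G (Y \ T) = 2 := by
    have h6 : pp G (Y \ T) ≠ 0 := by
      intro h7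
      have := two_le htf h7 hxm
      omega
    obtain ⟨m, hm⟩ := pp_even (G := G) (Y \ T)
    have h7 : m ≠ 0 := fun h => h6 (by rw [hm, h, mul_zero])
    have h8' : 0 ≤ m := by linarith
    have h9 : m ≤ 1 := by linarith
    have h10 : m = 1 := by omega
    rw [hm, h10]
    norm_num
  have e1 : ((nb G Y z1).card : ℤ) ≤ 2 := by linarith
  have e2' : ((nb G Y z2).card : ℤ) ≤ 2 := by linarith
  have e3 : ((nb G Y z3).card : ℤ) ≤ 2 := by linarith
  have he4 : (4 : ℤ) ≤ ((e2 G T : ℕ) : ℤ) := by linarith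
  have he5 : 4 ≤ e2 G T := by exact_mod_cast he4
  rw [B.hT, e2_insert (by simp [B.n12, B.n13]), e2_pair B.n23, if_neg (B.n32 htf)] at he5
  have h6 : 2 ≤ (nb G {z2, z3} z1).card := by omega
  have h7 : nb G {z2, z3} z1 = {z2, z3} :=
    eq_of_subset_of_card_le (nb_sub' _ _) (by rw [card_pair B.n23]; exact h6)
  have h8' : z2 ∈ nb G {z2, z3} z1 := by rw [h7]; exact mem_insert_self _ _
  have h9 : z3 ∈ nb G {z2, z3} z1 := by rw [h7]; exact mem_insert_of_mem (mem_singleton_self _)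
  have f1 : (nb G Y z1).card ≤ 2 := by exact_mod_cast e1
  have f2 : (nb G Y z2).card ≤ 2 := by exact_mod_cast e2'
  have f3 : (nb G Y z3).card ≤ 2 := by exact_mod_cast e3
  rcases case22 (H.mono B.hYX) B.ppY B.z1Y B.z2Y B.z3Y B.n23 (mem_nb.1 h8').2 (mem_nb.1 h9).2
    (le_antisymm f1 d1) (le_antisymm f2 d2) (le_antisymm f3 d3) with h10 | h10
  · omega
  · have := h10.nu (H.mono B.hYX)
    omega

theorem Blk.eight (H : Hy G X) (h3 : 3 * al G Y = Y.card + 1) (h8 : 8 ≤ Y.card)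
    (hE : Ends G Y) : Ends G X := by
  obtain ⟨x, hx, x', hx', y, hy, y', hy', axx, ayy, n1, n2, n3, n4, d1, d2, d3, d4⟩ := hE
  by_cases h1 : x ∈ T ∨ x' ∈ T
  · have hxT : x ∈ T ∧ x' ∈ T := by
      rcases h1 with h1 | h1
      · exact ⟨h1, B.whole H h3 h8 h1 hx' axx d2⟩
      · exact ⟨B.whole H h3 h8 h1 hx axx.symm d1, h1⟩
    by_cases h2 : y ∈ T ∨ y' ∈ T
    · exfalso
      have hyT : y ∈ T ∧ y' ∈ T := by
        rcases h2 with h2 | h2
        · exact ⟨h2, B.whole H h3 h8 h2 hy' ayy d4⟩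
        · exact ⟨B.whole H h3 h8 h2 hy ayy.symm d3, h2⟩
      have h6 : ({x, x', y, y'} : Finset V) ⊆ T := by
        intro t ht
        simp only [mem_insert, mem_singleton] at ht
        rcases ht with rfl | rfl | rfl | rfl
        · exact hxT.1
        · exact hxT.2
        · exact hyT.1
        · exact hyT.2
      have h7 := card_le_card h6
      rw [card_insert_of_notMem (by simp [axx.ne, n1, n2]),
        card_insert_of_notMem (by simp [n3, n4]), card_pair ayy.ne, B.Tc] at h7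
      omega
    · rw [not_or] at h2
      exact B.ends hy hy' h2.1 h2.2 ayy d3 d4
  · rw [not_or] at h1
    exact B.ends hx hx' h1.1 h1.2 axx d1 d2

theorem Blk.good (H : Hy G X) (ih : IHs G X) : Good G X := by
  have hc := B.card
  have ha := B.alY
  have hG := ih Y B.hYX B.neX ⟨z1, B.z1Y⟩ B.ppY
  refine ⟨?_, ?_⟩
  · intro h
    right
    have h3 : 3 * al G Y = Y.card + 1 := by omega
    rcases hG.1 h3 with ⟨h4, h5⟩ | ⟨h4, h5, h6⟩
    · have h6 := B.five H.htf h4 h5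
      exact ⟨by omega, h6.1, h6.2⟩
    · exact ⟨by omega, B.eight H h3 h4 h5, h6.mono B.hYX⟩
  · intro h
    exact B.spl H.htf (hG.2 (by omega))

end

/-- a vertex of degree two -/
theorem step2 {X : Finset V} (H : Hy G X) (hp : pp G X = 0) (ih : IHs G X) {v : V} (hv : v ∈ X)
    (hd : (nb G X v).card = 2) : Good G X := by
  obtain ⟨u, w, huw, hnv⟩ := card_eq_two.1 hd
  have hum : u ∈ nb G X v := by rw [hnv]; exact mem_insert_self _ _
  have hwm : w ∈ nb G X v := by rw [hnv]; exact mem_insert_of_mem (mem_singleton_self _)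
  rw [mem_nb] at hum hwm
  have h1 := rem1_le H.htf hv
  rw [hp, hd, hnv, sum_pair huw] at h1
  push_cast at h1
  have h2 := two_le H.htf hp hum.1
  have h3 := two_le H.htf hp hwm.1
  have h4 : ((nb G X u).card : ℤ) + (nb G X w).card ≤ 5 := by linarith
  have h5 : (nb G X u).card + (nb G X w).card ≤ 5 := by exact_mod_cast h4
  have h6 : ((nb G X u).card = 2 ∧ (nb G X w).card = 2) ∨
      ((nb G X u).card = 2 ∧ (nb G X w).card = 3) ∨
      ((nb G X u).card = 3 ∧ (nb G X w).card = 2) := by omega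
  rcases h6 with ⟨h7, h8⟩ | ⟨h7, h8⟩ | ⟨h7, h8⟩
  · have h9 := case22 H hp hv hum.1 hwm.1 huw hum.2 hwm.2 hd h7 h8
    refine ⟨?_, ?_⟩
    · intro h
      rcases h9 with h9 | h9
      · exact Or.inl h9
      · have := h9.nu H
        omega
    · intro h
      rcases h9 with h9 | h9
      · have := al_five hp h9.1 h9.2
        omega
      · exact h9
  · obtain ⟨Y, T, z1, z2, z3, B⟩ := case23_mk H hp hv hum.1 hwm.1 huw hum.2 hwm.2 hd h7 h8
    exact B.good H ih
  · obtain ⟨Y, T, z1, z2, z3, B⟩ := case23_mk H hp hv hwm.1 hum.1 huw.symm hwm.2 hum.2 hd h8 h7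
    exact B.good H ih

end Pool.Agent.TwoDens.T3
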