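import Pool.Agent.T3L.S2b
import Pool.Agent.T3L.S1
import Pool.Agent.T3L.CubD

/-!
Triangle-free graphs with `e = 5 n - 10 α` and `n = 3 α - 1` have two disjoint pairs of adjacent
vertices of degree two.
-/

open Finset

namespace Pool.Agent.TwoDens.T3

open Pool.Agent.TwoDens Pool.Agent.TwoDens.RK Pool.Agent.TwoDens.DD Pool.Agent.TwoDens.TS

variable {V : Type*} [DecidableEq V] {G : SimpleGraph V} [DecidableRel G.Adj]

theorem goodAll : ∀ n : ℕ, ∀ X : Finset V, X.card = n → Hy G X → X.Nonempty → pp G X = 0 →
    Good G X := by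
  intro n
  induction n using Nat.strong_induction_on with
  | _ n IH =>
    intro X hn H hne hp
    have ih : IHs G X := by
      intro Y hY hYX hYn hpY
      have hlt : Y.card < n := by
        rw [← hn]
        exact card_lt_card (Finset.ssubset_iff_subset_ne.2 ⟨hY, hYX⟩)
      exact IH Y.card hlt Y rfl (H.mono hY) hYn hpY
    by_cases h2 : ∃ v ∈ X, (nb G X v).card = 2
    · obtain ⟨v, hv, hd⟩ := h2
      exact step2 H hp ih hv hd
    · have h3 : ∀ v ∈ X, 3 ≤ (nb G X v).card := by
        intro v hv
        have h4 := two_le H.htf hp hv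
        have h5 : (nb G X v).card ≠ 2 := fun h => h2 ⟨v, hv, h⟩
        omega
      rcases step1 H hne hp ih h3 with h4 | h4
      · refine ⟨?_, fun _ => h4⟩
        intro h
        have := h4.nu H
        omega
      · exact (Cub.false ⟨H, hne, hp, ih, h4⟩).elim

theorem theoremE {X : Finset V} (H : Hy G X) (hp : pp G X = 0)
    (h : 3 * al G X = X.card + 1) (h8 : 8 ≤ X.card) : Ends G X := by
  have hne : X.Nonempty := card_pos.1 (by omega)
  rcases (goodAll _ X rfl H hne hp).1 h with h1 | h1
  · omega
  · exact h1.2.1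

end Pool.Agent.TwoDens.T3
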