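import Pool.Agent.T3L.Low
import Pool.Agent.T3L.Thm
import Pool.Agent.T3L.ChainB

/-!
The former hand-in TripleMinusOne, kept here as a helper file.
-/

namespace Pool.Agent.TwoDens.T3.TripleMinusOneOld

open Pool.Agent.TwoDens

/-- `M(3r-4, r) = (5r-17)/(3r-10)` for all `r ≥ 4`. -/
theorem result (r : ℕ) (hr : 4 ≤ r) :
    minTwoDensity (3 * r - 4) r = (5 * (r : ℝ) - 17) / (3 * (r : ℝ) - 10) := by
  obtain ⟨s, rfl⟩ : ∃ s, r = s + 1 := ⟨r - 1, by omega⟩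
  have hs : 3 ≤ s := by omega
  have h1 : 3 * (s + 1) - 4 = 3 * s - 1 := by omega
  have h2 : (5 * ((s + 1 : ℕ) : ℝ) - 17) / (3 * ((s + 1 : ℕ) : ℝ) - 10) =
      (5 * (s : ℝ) - 12) / (3 * s - 7) := by
    push_cast
    congr 1 <;> ring
  rw [h1, h2]
  exact le_antisymm (T3.upper_line s hs) (T3.le_line s hs (fun _ _ H hp h h8 => T3.theoremE H hp h h8))

end Pool.Agent.TwoDens.T3.TripleMinusOneOld
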